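import Pool.Agent.H503.TA.Tower

/-!
# The real and imaginary parts of the period lattice
-/

set_option autoImplicit false
set_option linter.unusedSectionVars false

open Complex UpperHalfPlane MatrixGroups CongruenceSubgroup Filter Topology ModularForm
open MeasureTheory Set Asymptotics

namespace Pool.Agent.H503.TA

variable {N : ℕ} [NeZero N]
variable (f : CuspForm (Gamma0 N : Subgroup (GL (Fin 2) ℝ)) 2)

/-- the periods -/
def IsPer {N : ℕ} (f : CuspForm (Gamma0 N : Subgroup (GL (Fin 2) ℝ)) 2) (c : ℂ) : Prop :=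
  ∃ γ ∈ Gamma0 N, ∀ τ : ℍ, prim f ((γ • τ : ℍ) : ℂ) = prim f (τ : ℂ) + c

lemma isPer_zero : IsPer f 0 := ⟨1, Subgroup.one_mem _, fun τ => by rw [one_smul, add_zero]⟩

variable {f} in
lemma IsPer.add {c d : ℂ} (hc : IsPer f c) (hd : IsPer f d) : IsPer f (c + d) := by
  obtain ⟨γ, hγ, h1⟩ := hc
  obtain ⟨δ, hδ, h2⟩ := hd
  exact ⟨γ * δ, mul_mem hγ hδ, fun τ => by rw [mul_smul, h1, h2]; ring⟩

variable {f} in
lemma IsPer.neg {c : ℂ} (hc : IsPer f c) : IsPer f (-c) := by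
  obtain ⟨γ, hγ, h1⟩ := hc
  refine ⟨γ⁻¹, inv_mem hγ, fun τ => ?_⟩
  have := h1 (γ⁻¹ • τ)
  rw [smul_inv_smul] at this
  rw [this]
  ring

lemma per_of_zero {γ : SL(2, ℤ)} (h : γ 1 0 = 0) {c : ℂ}
    (hc : ∀ τ : ℍ, prim f ((γ • τ : ℍ) : ℂ) = prim f (τ : ℂ) + c) : c = 0 := by
  have h1 : ∀ j : ℤ, ∀ τ : ℍ, prim f ((ModularGroup.T ^ j • τ : ℍ) : ℂ) = prim f (τ : ℂ) := by
    intro j τ
    rw [ModularGroup.coe_T_zpow_smul_eq, prim_add_int]
  obtain ⟨j, rfl | rfl⟩ := eq_T_zpow h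
  · have := hc UpperHalfPlane.I
    rw [h1] at this
    simpa using this
  · have := hc UpperHalfPlane.I
    rw [ModularGroup.SL_neg_smul, h1] at this
    simpa using this

lemma isPer_conj (hreal : ∀ n, (coef f n).im = 0) {c : ℂ} (hc : IsPer f c) :
    IsPer f ((starRingEnd ℂ) c) := by
  obtain ⟨γ, hγ, h1⟩ := hc
  have key : ∀ γ : SL(2, ℤ), γ ∈ Gamma0 N → 0 < γ 1 0 → ∀ c : ℂ,
      (∀ τ : ℍ, prim f ((γ • τ : ℍ) : ℂ) = prim f (τ : ℂ) + c) → IsPer f ((starRingEnd ℂ) c) := by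
    intro γ hγ hpos c h1
    obtain ⟨M, hM⟩ := Int.eq_ofNat_of_zero_le hpos.le
    have hM0 : 0 < M := by
      rw [hM] at hpos
      exact_mod_cast hpos
    have hNM : N ∣ M := by
      rw [Gamma0_mem, hM, Int.cast_natCast, ZMod.natCast_eq_zero_iff] at hγ
      exact hγ
    have h2 := per_gamma f hM0 hM hNM h1
    have hcop : IsCoprime (-(γ 0 0)) (M : ℤ) := by
      refine ⟨-γ 1 1, -γ 0 1, ?_⟩
      have := det_eq γ
      rw [hM] at this
      linarith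
    obtain ⟨γ', h3, h4⟩ := exists_gamma hcop
    have hγ' : γ' ∈ Gamma0 N := by
      rw [Gamma0_mem, h4, Int.cast_natCast, ZMod.natCast_eq_zero_iff]
      exact hNM
    obtain ⟨c', hc'⟩ := prim_smul f hγ'
    have h5 := per_gamma f hM0 h4 hNM hc'
    rw [h3, conj_per f hreal, h2] at h5
    rw [h5]
    exact ⟨γ', hγ', hc'⟩
  rcases lt_trichotomy (γ 1 0) 0 with h | h | h
  · refine key (-γ) ?_ ?_ c ?_
    · have hneg : (-1 : SL(2, ℤ)) ∈ Gamma0 N := by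
        rw [Gamma0_mem]
        simp
      have := mul_mem hneg hγ
      simpa using this
    · rw [Matrix.SpecialLinearGroup.coe_neg, Matrix.neg_apply]
      linarith
    · intro τ
      rw [ModularGroup.SL_neg_smul]
      exact h1 τ
  · rw [per_of_zero f h h1, map_zero]
    exact isPer_zero f
  · exact key γ hγ h c h1

/-- the periods of `f` lie in a lattice -/
def InLattice {N : ℕ} (f : CuspForm (Gamma0 N : Subgroup (GL (Fin 2) ℝ)) 2) : Prop :=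
  ∃ ω₁ ω₂ : ℂ, (ω₁ * (starRingEnd ℂ) ω₂).im ≠ 0 ∧
    ∀ γ : SL(2, ℤ), γ ∈ Gamma0 N → ∃ x y : ℤ, ∀ z : ℍ,
      prim f ((γ • z : ℍ) : ℂ) = prim f (z : ℂ) + (x * ω₁ + y * ω₂)

/-- integral relation -/
lemma int_line {x0 y0 x y : ℤ} (h0 : x0 ≠ 0 ∨ y0 ≠ 0) (h : x * y0 = y * x0) :
    ∃ t : ℤ, (Int.gcd x0 y0 : ℤ) * x = t * x0 ∧ (Int.gcd x0 y0 : ℤ) * y = t * y0 := by
  have hg : 0 < Int.gcd x0 y0 := by
    rw [Int.gcd_pos_iff]
    exact h0
  obtain ⟨g, a, b, hg', hab, ha, hb⟩ : ∃ g a b : ℤ, g = Int.gcd x0 y0 ∧ IsCoprime a b ∧ x0 = a * g ∧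
      y0 = b * g := by
    obtain ⟨a, b, hab, ha, hb⟩ := Int.exists_gcd_one hg
    exact ⟨_, a, b, rfl, Int.isCoprime_iff_gcd_eq_one.2 hab, ha, hb⟩
  rw [← hg']
  have hg0 : g ≠ 0 := by
    rw [hg']
    exact_mod_cast hg.ne'
  have h1 : x * b = y * a := by
    rw [ha, hb] at h
    have : (x * b - y * a) * g = 0 := by linear_combination h
    rcases mul_eq_zero.1 this with h2 | h2
    · linear_combination h2
    · exact absurd h2 hg0
  obtain ⟨u, v, huv⟩ := hab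
  refine ⟨u * x + v * y, ?_, ?_⟩
  · rw [ha]
    linear_combination (-g * x) * huv + (g * v) * h1
  · rw [hb]
    linear_combination (-g * y) * huv + (-g * u) * h1

/-- the determinant argument -/
lemma real_line {ω₁ ω₂ u : ℂ} (hω : (ω₁ * (starRingEnd ℂ) ω₂).im ≠ 0)
    (hu : u = 1 ∨ u = Complex.I) {x0 y0 x y : ℤ} {r0 r : ℝ}
    (h0 : (r0 : ℂ) * u = x0 * ω₁ + y0 * ω₂) (h : (r : ℂ) * u = x * ω₁ + y * ω₂) :
    x * y0 = y * x0 := by
  by_contra hD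
  apply hω
  have hDr : ((x * y0 - y * x0 : ℤ) : ℝ) ≠ 0 := by
    exact_mod_cast fun h1 => hD (sub_eq_zero.1 h1)
  have hDc : (((x * y0 - y * x0 : ℤ) : ℝ) : ℂ) ≠ 0 := by exact_mod_cast hDr
  have f1 : ω₁ = ((((y0 : ℝ) * r - y * r0) / ((x * y0 - y * x0 : ℤ) : ℝ) : ℝ) : ℂ) * u := by
    rw [← mul_right_inj' hDc]
    push_cast
    push_cast at hDc
    field_simp
    linear_combination (-(y0 : ℂ)) * h + (y : ℂ) * h0
  have f2 : ω₂ = ((((x : ℝ) * r0 - x0 * r) / ((x * y0 - y * x0 : ℤ) : ℝ) : ℝ) : ℂ) * u := by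
    rw [← mul_right_inj' hDc]
    push_cast
    push_cast at hDc
    field_simp
    linear_combination (-(x : ℂ)) * h0 + (x0 : ℂ) * h
  obtain ⟨α, f1⟩ : ∃ α : ℝ, ω₁ = α * u := ⟨_, f1⟩
  obtain ⟨β, f2⟩ : ∃ β : ℝ, ω₂ = β * u := ⟨_, f2⟩
  rw [f1, f2]
  rcases hu with rfl | rfl
  · simp
  · simp

/-- for each parity the periods `c ± c̄` are the multiples of one number -/
theorem exists_generator (hreal : ∀ n, (coef f n).im = 0) (hlat : InLattice f) {s : ℂ}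
    (hs : s = 1 ∨ s = -1) : ∃ Ω : ℂ, ∀ w : ℂ,
      (∃ c, IsPer f c ∧ w = c + s * (starRingEnd ℂ) c) ↔ ∃ k : ℤ, w = k * Ω := by
  obtain ⟨ω₁, ω₂, hω, hV⟩ := hlat
  obtain ⟨u, hu, hur⟩ : ∃ u : ℂ, (u = 1 ∨ u = Complex.I) ∧
      ∀ w : ℂ, ∃ r : ℝ, w + s * (starRingEnd ℂ) w = r * u := by
    rcases hs with rfl | rfl
    · refine ⟨1, Or.inl rfl, fun w => ⟨2 * w.re, ?_⟩⟩
      rw [one_mul, Complex.add_conj]
      simp
    · refine ⟨Complex.I, Or.inr rfl, fun w => ⟨2 * w.im, ?_⟩⟩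
      rw [neg_one_mul, ← sub_eq_add_neg, Complex.sub_conj]
  have hint : ∀ c, IsPer f c → ∃ x y : ℤ, c = x * ω₁ + y * ω₂ := by
    rintro c ⟨γ, hγ, hc⟩
    obtain ⟨x, y, hxy⟩ := hV γ hγ
    refine ⟨x, y, ?_⟩
    have h1 := hc UpperHalfPlane.I
    have h2 := hxy UpperHalfPlane.I
    rw [h1] at h2
    exact add_left_cancel h2
  have hint2 : ∀ c, IsPer f c → ∃ x y : ℤ, c + s * (starRingEnd ℂ) c = x * ω₁ + y * ω₂ := by
    intro c hc
    obtain ⟨x1, y1, h1⟩ := hint c hc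
    obtain ⟨x2, y2, h2⟩ := hint _ (isPer_conj f hreal hc)
    rcases hs with rfl | rfl
    · refine ⟨x1 + x2, y1 + y2, ?_⟩
      rw [h2]
      conv_lhs => rw [h1]
      push_cast
      ring
    · refine ⟨x1 - x2, y1 - y2, ?_⟩
      rw [h2]
      conv_lhs => rw [h1]
      push_cast
      ring
  by_cases hall : ∀ c, IsPer f c → c + s * (starRingEnd ℂ) c = 0
  · refine ⟨0, fun w => ⟨?_, ?_⟩⟩
    · rintro ⟨c, hc, rfl⟩
      exact ⟨0, by rw [hall c hc]; simp⟩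
    · rintro ⟨k, rfl⟩
      exact ⟨0, isPer_zero f, by simp⟩
  push Not at hall
  obtain ⟨c0, hc0, hne⟩ := hall
  obtain ⟨x0, y0, hxy0⟩ := hint2 c0 hc0
  obtain ⟨r0, hr0⟩ := hur c0
  set w0 := c0 + s * (starRingEnd ℂ) c0 with hw0
  have hxy : x0 ≠ 0 ∨ y0 ≠ 0 := by
    by_contra h
    push Not at h
    apply hne
    rw [hxy0, h.1, h.2]
    simp
  have hg : 0 < Int.gcd x0 y0 := by
    rw [Int.gcd_pos_iff]
    exact hxy
  have hgc : ((Int.gcd x0 y0 : ℕ) : ℂ) ≠ 0 := by exact_mod_cast hg.ne'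
  -- every element is an integral multiple of `w0 / g`
  have hmul : ∀ c, IsPer f c → ∃ t : ℤ, c + s * (starRingEnd ℂ) c =
      (t : ℂ) * (w0 / (Int.gcd x0 y0 : ℕ)) := by
    intro c hc
    obtain ⟨x, y, hxy'⟩ := hint2 c hc
    obtain ⟨r, hr⟩ := hur c
    have h1 := real_line hω hu (by rw [← hr0, hxy0]) (by rw [← hr, hxy'])
    obtain ⟨t, ht1, ht2⟩ := int_line hxy h1
    refine ⟨t, ?_⟩
    have ht1' : ((Int.gcd x0 y0 : ℕ) : ℂ) * x = t * x0 := by exact_mod_cast ht1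
    have ht2' : ((Int.gcd x0 y0 : ℕ) : ℂ) * y = t * y0 := by exact_mod_cast ht2
    rw [hxy', hxy0]
    field_simp
    linear_combination ω₁ * ht1' + ω₂ * ht2'
  let T : AddSubgroup ℤ :=
    { carrier := {t | ∃ c, IsPer f c ∧ (t : ℂ) * (w0 / (Int.gcd x0 y0 : ℕ)) =
        c + s * (starRingEnd ℂ) c}
      zero_mem' := ⟨0, isPer_zero f, by simp⟩
      add_mem' := by
        rintro a b ⟨c, hc, h1⟩ ⟨d, hd, h2⟩
        refine ⟨c + d, hc.add hd, ?_⟩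
        push_cast
        rw [add_mul, h1, h2, map_add]
        ring
      neg_mem' := by
        rintro a ⟨c, hc, h1⟩
        refine ⟨-c, hc.neg, ?_⟩
        push_cast
        rw [neg_mul, h1, map_neg]
        ring }
  obtain ⟨t0, ht0⟩ := Int.subgroup_cyclic T
  have hTmem : ∀ t : ℤ, (∃ c, IsPer f c ∧ (t : ℂ) * (w0 / (Int.gcd x0 y0 : ℕ)) =
      c + s * (starRingEnd ℂ) c) ↔ ∃ k : ℤ, k * t0 = t := by
    intro t
    have h1 := AddSubgroup.mem_closure_singleton (x := t0) (y := t)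
    simp only [smul_eq_mul] at h1
    rw [← h1, ← ht0]
    exact Iff.rfl
  refine ⟨(t0 : ℂ) * (w0 / (Int.gcd x0 y0 : ℕ)), fun w => ⟨?_, ?_⟩⟩
  · rintro ⟨c, hc, rfl⟩
    obtain ⟨t, ht⟩ := hmul c hc
    obtain ⟨k, hk⟩ := (hTmem t).1 ⟨c, hc, ht.symm⟩
    refine ⟨k, ?_⟩
    rw [ht, ← hk]
    push_cast
    ring
  · rintro ⟨k, rfl⟩
    obtain ⟨c, hc, h1⟩ := (hTmem (k * t0)).2 ⟨k, rfl⟩
    refine ⟨c, hc, ?_⟩
    rw [← h1]
    push_cast
    ring

/-- the generator does not vanish -/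
theorem generator_ne_zero (hf : f ≠ 0) {s : ℂ} (hs : s = 1 ∨ s = -1) {Ω : ℂ}
    (hΩ : ∀ w : ℂ, (∃ c, IsPer f c ∧ w = c + s * (starRingEnd ℂ) c) ↔ ∃ k : ℤ, w = k * Ω) :
    Ω ≠ 0 := by
  rintro rfl
  apply hf
  have h1 : ∀ c, IsPer f c → c + s * (starRingEnd ℂ) c = 0 := by
    intro c hc
    obtain ⟨k, hk⟩ := (hΩ _).1 ⟨c, hc, rfl⟩
    rw [hk, mul_zero]
  have key : ∀ κ : ℂ, κ ≠ 0 → (∀ w : ℂ, w + s * (starRingEnd ℂ) w = 0 → (κ * w).re = 0) → f = 0 := by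
    intro κ hκ h2
    refine eq_zero_of_periods f hκ fun γ hγ τ => ?_
    obtain ⟨c, hc⟩ := prim_smul f hγ
    have h3 := h2 c (h1 c ⟨γ, hγ, hc⟩)
    rw [hc, mul_add, Complex.add_re, h3, add_zero]
  rcases hs with rfl | rfl
  · refine key 1 one_ne_zero fun w hw => ?_
    have := congrArg Complex.re hw
    simp at this
    simp
    linarith
  · refine key Complex.I Complex.I_ne_zero fun w hw => ?_
    have := congrArg Complex.im hw
    simp at this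
    simp
    linarith

end Pool.Agent.H503.TA
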