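import Pool.Agent.H503.TA.Mel

/-!
# Twists by Dirichlet characters
-/

set_option autoImplicit false
set_option linter.unusedSectionVars false

open Complex UpperHalfPlane MatrixGroups CongruenceSubgroup Filter Topology ModularForm
open MeasureTheory Set Asymptotics

namespace Pool.Agent.H503.TA

variable {N : ℕ} [NeZero N]
variable (f : CuspForm (Gamma0 N : Subgroup (GL (Fin 2) ℝ)) 2)

/-- the `L`-function of `f ⊗ χ` continues to an entire function which does not vanish at `1` -/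
def NonvanishingAtOne {M : ℕ} (c : ℕ → ℂ) (χ : DirichletCharacter ℂ M) : Prop :=
  ∃ L : ℂ → ℂ, Differentiable ℂ L ∧
    (∀ s : ℂ, 2 < s.re → L s = LSeries (fun n => χ n * c n) s) ∧ L 1 ≠ 0

lemma hasSum_G (x : ℝ) {y : ℝ} (hy : 0 < y) :
    HasSum (fun n : ℕ => coef f n * Complex.exp (2 * Real.pi * Complex.I * n *
      ((x : ℂ) + y * Complex.I))) (G f x y) := by
  rw [G_eq f x hy]
  exact hasSum_f f (pt x hy)

lemma G_add_int (x : ℝ) (k : ℤ) {y : ℝ} (hy : 0 < y) : G f (x + k) y = G f x y := by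
  refine (hasSum_G f (x + k) hy).unique ((hasSum_G f x hy).congr_fun fun n => ?_)
  have h1 : 2 * Real.pi * Complex.I * n * (((x + k : ℝ) : ℂ) + y * Complex.I) =
      2 * Real.pi * Complex.I * n * ((x : ℂ) + y * Complex.I) +
        ((n * k : ℤ) : ℂ) * (2 * Real.pi * Complex.I) := by
    push_cast
    ring
  rw [h1, Complex.exp_add, Complex.exp_int_mul_two_pi_mul_I, mul_one]

/-- the period attached to `a / M` -/
noncomputable def per (M : ℕ) (a : ℤ) : ℂ := 2 * Real.pi * mellin (G f ((a : ℝ) / M)) 1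

lemma mellin_congr {F1 F2 : ℝ → ℂ} (h : ∀ y : ℝ, 0 < y → F1 y = F2 y) (s : ℂ) :
    mellin F1 s = mellin F2 s := by
  unfold mellin
  exact setIntegral_congr_fun measurableSet_Ioi fun y hy => by rw [h y hy]

lemma G_period {M : ℕ} (hM : 0 < M) (a k : ℤ) {y : ℝ} (hy : 0 < y) :
    G f (((a + M * k : ℤ) : ℝ) / M) y = G f ((a : ℝ) / M) y := by
  have hMr : (M : ℝ) ≠ 0 := by exact_mod_cast hM.ne'
  have h1 : ((a + M * k : ℤ) : ℝ) / M = (a : ℝ) / M + k := by
    push_cast
    field_simp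
  rw [h1, G_add_int f _ _ hy]

lemma per_period {M : ℕ} (hM : 0 < M) (a k : ℤ) : per f M (a + M * k) = per f M a := by
  unfold per
  rw [mellin_congr (fun y hy => G_period f hM a k hy)]

lemma per_zmod {M : ℕ} [NeZero M] (a : ℤ) : per f M (((a : ZMod M).val : ℕ) : ℤ) = per f M a := by
  have hM : 0 < M := Nat.pos_of_ne_zero (NeZero.ne M)
  have h1 : (((a : ZMod M).val : ℕ) : ℤ) = a % M := by
    rw [ZMod.val_intCast]
  have h2 : a = a % M + M * (a / M) := (Int.emod_add_mul_ediv a M).symm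
  conv_rhs => rw [h2]
  rw [per_period f hM, h1]

lemma per_gamma {γ : SL(2, ℤ)} {M : ℕ} (hM : 0 < M) (hγ : γ 1 0 = (M : ℤ)) (hN : N ∣ M) {c : ℂ}
    (hc : ∀ τ : ℍ, prim f ((γ • τ : ℍ) : ℂ) = prim f (τ : ℂ) + c) : per f M (γ 0 0) = c :=
  mellin_one f hM hγ hN hc

/-- a matrix with given first column -/
lemma exists_gamma {M : ℕ} {a : ℤ} (ha : IsCoprime a (M : ℤ)) :
    ∃ γ : SL(2, ℤ), γ 0 0 = a ∧ γ 1 0 = (M : ℤ) := ha.exists_SL2_col 0

lemma conj_G (hreal : ∀ n, (coef f n).im = 0) (x : ℝ) {y : ℝ} (hy : 0 < y) :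
    G f (-x) y = (starRingEnd ℂ) (G f x y) := by
  refine (hasSum_G f (-x) hy).unique ?_
  have h1 := (hasSum_G f x hy).map (starRingEnd ℂ) Complex.continuous_conj
  refine h1.congr_fun fun n => ?_
  simp only [Function.comp_apply, map_mul]
  rw [Complex.conj_eq_iff_im.2 (hreal n), ← Complex.exp_conj]
  congr 2
  simp only [map_mul, map_add, Complex.conj_I, Complex.conj_ofReal, map_ofNat, Complex.conj_natCast]
  push_cast
  ring

lemma conj_per (hreal : ∀ n, (coef f n).im = 0) (M : ℕ) (a : ℤ) :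
    per f M (-a) = (starRingEnd ℂ) (per f M a) := by
  unfold per
  have h1 : mellin (G f (((-a : ℤ) : ℝ) / M)) 1 =
      (starRingEnd ℂ) (mellin (G f ((a : ℝ) / M)) 1) := by
    unfold mellin
    rw [← integral_conj]
    refine setIntegral_congr_fun measurableSet_Ioi fun y hy => ?_
    simp only [sub_self, Complex.cpow_zero, one_smul]
    rw [← conj_G f hreal _ hy]
    congr 1
    push_cast
    ring
  rw [h1]
  simp only [map_mul, Complex.conj_ofReal, map_ofNat]

section
variable {M : ℕ} [NeZero M]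

/-- the Gauss sum -/
noncomputable def tau (χ : DirichletCharacter ℂ M) : ℂ := gaussSum χ⁻¹ (ZMod.stdAddChar (N := M))

/-- the twisted function -/
noncomputable def Fchi (χ : DirichletCharacter ℂ M) (y : ℝ) : ℂ :=
  ∑ a : ZMod M, χ⁻¹ a * G f ((a.val : ℝ) / M) y

lemma gauss_n (χ : DirichletCharacter ℂ M) {n : ℕ} (hn : n.Coprime M) :
    ∑ a : ZMod M, χ⁻¹ a * ZMod.stdAddChar (N := M) ((n : ZMod M) * a) = tau χ * χ n := by
  have hu : IsUnit (n : ZMod M) := (ZMod.isUnit_iff_coprime n M).2 hn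
  obtain ⟨u, hu⟩ := hu
  have h1 := gaussSum_mulShift χ⁻¹ (ZMod.stdAddChar (N := M)) u
  have h2 : gaussSum χ⁻¹ ((ZMod.stdAddChar (N := M)).mulShift (u : ZMod M)) =
      ∑ a : ZMod M, χ⁻¹ a * ZMod.stdAddChar (N := M) ((n : ZMod M) * a) := by
    unfold gaussSum
    refine Finset.sum_congr rfl fun a _ => ?_
    rw [AddChar.mulShift_apply, hu]
  rw [← h2]
  unfold tau
  rw [← h1, ← hu]
  have h3 : χ⁻¹ (u : ZMod M) * χ (u : ZMod M) = 1 := by
    rw [← MulChar.mul_apply, inv_mul_cancel, MulChar.one_apply_coe]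
  linear_combination (-gaussSum χ⁻¹ ((ZMod.stdAddChar (N := M)).mulShift (u : ZMod M))) * h3

theorem hasSum_Fchi (hc : ∀ n : ℕ, ¬ n.Coprime M → coef f n = 0) (χ : DirichletCharacter ℂ M)
    {y : ℝ} (hy : 0 < y) :
    HasSum (fun n : ℕ => (tau χ * (χ n * coef f n)) * (Real.exp (-(2 * Real.pi * n) * y) : ℂ))
      (Fchi f χ y) := by
  have hM0 : 0 < M := Nat.pos_of_ne_zero (NeZero.ne M)
  have hMc : (M : ℂ) ≠ 0 := by exact_mod_cast hM0.ne'
  have h1 : HasSum (fun n : ℕ => ∑ a : ZMod M, χ⁻¹ a * (coef f n *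
      Complex.exp (2 * Real.pi * Complex.I * n * ((((a.val : ℝ) / M : ℝ) : ℂ) + y * Complex.I))))
      (Fchi f χ y) :=
    hasSum_sum fun a _ => (hasSum_G f ((a.val : ℝ) / M) hy).mul_left (χ⁻¹ a)
  refine h1.congr_fun fun n => ?_
  by_cases hn : n.Coprime M
  · have h2 : ∀ a : ZMod M, Complex.exp (2 * Real.pi * Complex.I * n *
        ((((a.val : ℝ) / M : ℝ) : ℂ) + y * Complex.I)) =
        ZMod.stdAddChar (N := M) ((n : ZMod M) * a) *
          (Real.exp (-(2 * Real.pi * n) * y) : ℂ) := by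
      intro a
      have h3 : ((n : ZMod M) * a) = (((n * a.val : ℕ) : ℤ) : ZMod M) := by
        push_cast
        rw [ZMod.natCast_zmod_val]
      rw [h3, ZMod.stdAddChar_coe, Complex.ofReal_exp, ← Complex.exp_add]
      congr 1
      push_cast
      field_simp
      linear_combination (n * M * y : ℂ) * Complex.I_sq
    rw [← mul_assoc (tau χ), ← gauss_n χ hn, Finset.sum_mul, Finset.sum_mul]
    refine Finset.sum_congr rfl fun a _ => ?_
    rw [h2]
    ring
  · simp [hc n hn]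

/-- the character sum of periods -/
noncomputable def Schi (χ : DirichletCharacter ℂ M) : ℂ :=
  ∑ a : ZMod M, χ⁻¹ a * per f M a.val

lemma mellin_sum (hN : N ∣ M) (χ : DirichletCharacter ℂ M) (s : ℂ) :
    mellin (Fchi f χ) s = ∑ a : ZMod M, χ⁻¹ a * mellin (G f ((a.val : ℝ) / M)) s := by
  have hM0 : 0 < M := Nat.pos_of_ne_zero (NeZero.ne M)
  unfold mellin Fchi
  have h1 : ∀ y : ℝ, ((y : ℂ) ^ (s - 1)) • (∑ a : ZMod M, χ⁻¹ a * G f ((a.val : ℝ) / M) y) =
      ∑ a : ZMod M, χ⁻¹ a * (((y : ℂ) ^ (s - 1)) • G f ((a.val : ℝ) / M) y) := by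
    intro y
    rw [Finset.smul_sum]
    refine Finset.sum_congr rfl fun a _ => ?_
    simp only [smul_eq_mul]
    ring
  simp only [h1]
  rw [integral_finsetSum]
  · refine Finset.sum_congr rfl fun a _ => ?_
    rw [integral_const_mul]
  · intro a _
    by_cases ha : IsUnit a
    · have hcop : IsCoprime ((a.val : ℕ) : ℤ) (M : ℤ) := by
        rw [Nat.isCoprime_iff_coprime]
        rw [← ZMod.isUnit_iff_coprime, ZMod.natCast_zmod_val]
        exact ha
      obtain ⟨γ, h0, h2⟩ := exists_gamma hcop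
      have h3 := mellin_conv f hM0 h2 hN s
      rw [h0] at h3
      push_cast at h3
      exact Integrable.const_mul h3 _
    · simp [MulChar.map_nonunit _ ha]

lemma mellin_entire_sum (hN : N ∣ M) (χ : DirichletCharacter ℂ M) :
    Differentiable ℂ (fun s => ∑ a : ZMod M, χ⁻¹ a * mellin (G f ((a.val : ℝ) / M)) s) := by
  have hM0 : 0 < M := Nat.pos_of_ne_zero (NeZero.ne M)
  refine Differentiable.fun_sum fun a _ => ?_
  by_cases ha : IsUnit a
  · have hcop : IsCoprime ((a.val : ℕ) : ℤ) (M : ℤ) := by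
      rw [Nat.isCoprime_iff_coprime]
      rw [← ZMod.isUnit_iff_coprime, ZMod.natCast_zmod_val]
      exact ha
    obtain ⟨γ, h0, h2⟩ := exists_gamma hcop
    have h3 := mellin_entire f hM0 h2 hN
    rw [h0] at h3
    push_cast at h3
    exact h3.const_mul _
  · simp [MulChar.map_nonunit _ ha]

lemma coef_O : (fun n => coef f n) =O[atTop] fun n : ℕ => (n : ℝ) ^ (1 : ℝ) := by
  have h1 := CuspFormClass.qExpansion_isBigO f
  rw [strictWidthInfty_Gamma0] at h1
  have h2 : (((2 : ℤ) : ℝ) / 2) = 1 := by norm_num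
  rw [h2] at h1
  exact h1

/-- the Dirichlet series -/
theorem hasSum_L (hc : ∀ n : ℕ, ¬ n.Coprime M → coef f n = 0) (χ : DirichletCharacter ℂ M)
    {s : ℂ} (hs : 2 < s.re) :
    HasSum (fun n : ℕ => Complex.Gamma s * (tau χ * (χ n * coef f n)) /
      ((2 * Real.pi * n : ℝ) : ℂ) ^ s) (mellin (Fchi f χ) s) := by
  refine hasSum_mellin (fun n => ?_) (by linarith) (fun t ht => ?_) ?_
  · rcases Nat.eq_zero_or_pos n with rfl | hn
    · left
      simp [coef_zero]
    · right
      positivity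
  · exact hasSum_Fchi f hc χ ht
  · have h1 : Summable fun n : ℕ => (n : ℝ) ^ (1 - s.re) :=
      Real.summable_nat_rpow.2 (by linarith)
    have h2 : (fun n : ℕ => ‖tau χ * (χ n * coef f n)‖ / (2 * Real.pi * n) ^ s.re) =O[atTop]
        fun n : ℕ => (n : ℝ) ^ (1 - s.re) := by
      obtain ⟨C, hC⟩ := (coef_O f).bound
      refine IsBigO.of_bound (‖tau χ‖ * C) ?_
      filter_upwards [hC, eventually_gt_atTop 0] with n hn hn0
      have hn1 : (1 : ℝ) ≤ n := by exact_mod_cast hn0
      have hnpos : (0 : ℝ) < n := by linarith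
      have hpi := Real.pi_gt_three
      rw [Real.norm_of_nonneg (by positivity), Real.norm_of_nonneg (by positivity)]
      rw [Real.norm_of_nonneg (by positivity)] at hn
      have h3 : ‖χ n‖ ≤ 1 := DirichletCharacter.norm_le_one χ _
      have h4 : (n : ℝ) ^ s.re ≤ (2 * Real.pi * n) ^ s.re := by
        apply Real.rpow_le_rpow hnpos.le _ (by linarith)
        nlinarith
      have h5 : (0 : ℝ) < (n : ℝ) ^ s.re := by positivity
      rw [Real.rpow_sub hnpos, norm_mul, norm_mul]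
      calc ‖tau χ‖ * (‖χ n‖ * ‖coef f n‖) / (2 * Real.pi * n) ^ s.re
          ≤ ‖tau χ‖ * (1 * (C * (n : ℝ) ^ (1 : ℝ))) / (n : ℝ) ^ s.re := by
            have h6 : 0 ≤ C * (n : ℝ) ^ (1 : ℝ) := (norm_nonneg _).trans hn
            gcongr
        _ = ‖tau χ‖ * C * ((n : ℝ) ^ (1 : ℝ) / (n : ℝ) ^ s.re) := by ring
    exact summable_of_isBigO_nat h1 h2

/-- the nonvanishing criterion -/
theorem nonvanishing_of_Schi (hN : N ∣ M) (hc : ∀ n : ℕ, ¬ n.Coprime M → coef f n = 0)
    (χ : DirichletCharacter ℂ M) (hS : Schi f χ ≠ 0) : NonvanishingAtOne (coef f) χ := by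
  have h2pi : (2 * Real.pi : ℂ) ≠ 0 := by
    have := Real.pi_ne_zero
    exact_mod_cast mul_ne_zero two_ne_zero this
  have hval : mellin (Fchi f χ) 1 = Schi f χ / (2 * Real.pi) := by
    rw [mellin_sum f hN, Schi, Finset.sum_div]
    refine Finset.sum_congr rfl fun a _ => ?_
    unfold per
    push_cast
    field_simp
  have htau : tau χ ≠ 0 := by
    intro h0
    apply hS
    have h1 : mellin (Fchi f χ) 1 = 0 := by
      have h2 : mellin (Fchi f χ) 1 = mellin (fun _ => (0 : ℂ)) 1 := by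
        refine mellin_congr (fun y hy => ?_) 1
        have h3 := hasSum_Fchi f hc χ hy
        simp only [h0, zero_mul] at h3
        exact h3.unique hasSum_zero
      rw [h2]
      simp [mellin]
    rw [hval, div_eq_zero_iff] at h1
    exact h1.resolve_right h2pi
  refine ⟨fun s => ((2 * Real.pi : ℝ) : ℂ) ^ s * (Complex.Gamma s)⁻¹ * (tau χ)⁻¹ *
    ∑ a : ZMod M, χ⁻¹ a * mellin (G f ((a.val : ℝ) / M)) s, ?_, ?_, ?_⟩
  · refine Differentiable.mul (Differentiable.mul (Differentiable.mul ?_ ?_) ?_) ?_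
    · refine Differentiable.const_cpow differentiable_id (Or.inl ?_)
      push_cast
      exact h2pi
    · exact Complex.differentiable_one_div_Gamma
    · exact differentiable_const _
    · exact mellin_entire_sum f hN χ
  · intro s hs
    have hG : Complex.Gamma s ≠ 0 := Complex.Gamma_ne_zero_of_re_pos (by linarith)
    have h1 := hasSum_L f hc χ hs
    rw [mellin_sum f hN] at h1
    have h2 := h1.mul_left (((2 * Real.pi : ℝ) : ℂ) ^ s * (Complex.Gamma s)⁻¹ * (tau χ)⁻¹)
    refine h2.tsum_eq.symm.trans ?_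
    rw [LSeries]
    refine tsum_congr fun n => ?_
    rw [LSeries.term_def]
    rcases Nat.eq_zero_or_pos n with rfl | hn
    · simp [coef_zero]
    · rw [if_neg hn.ne']
      have h3 : ((2 * Real.pi * n : ℝ) : ℂ) ^ s = ((2 * Real.pi : ℝ) : ℂ) ^ s * (n : ℂ) ^ s := by
        rw [Complex.ofReal_mul, Complex.mul_cpow_ofReal_nonneg (by positivity) (by positivity)]
        simp
      have h4 : ((2 * Real.pi : ℝ) : ℂ) ^ s ≠ 0 := by
        rw [Ne, Complex.cpow_eq_zero_iff]
        push_cast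
        tauto
      have h5 : (n : ℂ) ^ s ≠ 0 := by
        rw [Ne, Complex.cpow_eq_zero_iff]
        have : (n : ℂ) ≠ 0 := by exact_mod_cast hn.ne'
        tauto
      rw [h3]
      field_simp
  · have h1 : ∑ a : ZMod M, χ⁻¹ a * mellin (G f ((a.val : ℝ) / M)) 1 ≠ 0 := by
      rw [← mellin_sum f hN, hval]
      exact div_ne_zero hS h2pi
    simp only [Complex.cpow_one, Complex.Gamma_one, inv_one, mul_one]
    refine mul_ne_zero (mul_ne_zero ?_ (inv_ne_zero htau)) h1
    push_cast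
    exact h2pi

end

end Pool.Agent.H503.TA
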