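import Pool.Agent.H503.TA.Main

/-!
# The Galois action for `ℓ = 2, 3`
-/

set_option autoImplicit false
set_option linter.unusedSectionVars false

open Complex UpperHalfPlane MatrixGroups CongruenceSubgroup Filter Topology ModularForm
open MeasureTheory Set Asymptotics

namespace Pool.Agent.H503.TA

/-- the two cases `(ℓ, e) = (3, 1), (2, 2)` -/
structure Good (ℓ e : ℕ) : Prop where
  prime : ℓ.Prime
  e0 : e ≠ 0
  e2 : e + 2 ≤ ℓ * e
  two : 2 < ℓ ^ e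
  tot : ∀ n : ℕ, (ℓ ^ (n + e)).totient = 2 * ℓ ^ n

lemma good_three : Good 3 1 where
  prime := Nat.prime_three
  e0 := one_ne_zero
  e2 := by norm_num
  two := by norm_num
  tot := fun n => by
    rw [Nat.totient_prime_pow_succ Nat.prime_three]
    ring

lemma good_two : Good 2 2 where
  prime := Nat.prime_two
  e0 := two_ne_zero
  e2 := by norm_num
  two := by norm_num
  tot := fun n => by
    rw [show n + 2 = (n + 1) + 1 by ring, Nat.totient_prime_pow_succ Nat.prime_two]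
    ring

section
variable {ℓ e : ℕ} (h : Good ℓ e)
include h

lemma ord_g (n : ℕ) : orderOf (1 + ℓ ^ e : ZMod (ℓ ^ (n + e))) = ℓ ^ n := by
  have h1 := ZMod.orderOf_one_add_mul_prime_pow h.prime e h.e0 h.e2 1 (by
    intro hd
    have h8 : ℓ ∣ 1 := by exact_mod_cast hd
    exact h.prime.one_lt.ne' (Nat.dvd_one.1 h8)) n
  simpa using h1

lemma unit_g (n : ℕ) : IsUnit (1 + ℓ ^ e : ZMod (ℓ ^ (n + e))) := by
  have : ((1 + ℓ ^ e : ℕ) : ZMod (ℓ ^ (n + e))) = (1 + ℓ ^ e : ZMod (ℓ ^ (n + e))) := by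
    push_cast
    rfl
  rw [← this, ZMod.isUnit_iff_coprime]
  apply Nat.Coprime.pow_right
  rw [Nat.coprime_comm, h.prime.coprime_iff_not_dvd]
  intro hd
  have h2 : ℓ ∣ ℓ ^ e := dvd_pow_self ℓ h.e0
  have h3 : ℓ ∣ 1 := (Nat.dvd_add_left h2).1 hd
  exact h.prime.one_lt.ne' (Nat.dvd_one.1 h3)

/-- the reduction modulo `ℓ^e` of a power of `g` -/
lemma red_g (n i : ℕ) : ZMod.castHom (Dvd.intro_left (ℓ ^ n) (pow_add ℓ n e).symm :
    ℓ ^ e ∣ ℓ ^ (n + e)) (ZMod (ℓ ^ e)) ((1 + ℓ ^ e : ZMod (ℓ ^ (n + e))) ^ i) = 1 := by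
  rw [map_pow, map_add, map_one, map_pow, map_natCast]
  have : ((ℓ : ZMod (ℓ ^ e)) ^ e) = 0 := by
    rw [← Nat.cast_pow, ZMod.natCast_self]
  rw [this, add_zero, one_pow]

lemma one_ne_neg_one : (1 : ZMod (ℓ ^ e)) ≠ -1 := by
  intro h1
  have h2 : ((2 : ℕ) : ZMod (ℓ ^ e)) = 0 := by
    push_cast
    linear_combination h1
  rw [ZMod.natCast_eq_zero_iff] at h2
  have := Nat.le_of_dvd (by norm_num) h2
  have := h.two
  omega

/-- every unit is plus or minus a power of `g` -/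
lemma units_eq (n : ℕ) (u : (ZMod (ℓ ^ (n + e)))ˣ) : ∃ i : ℕ,
    (u : ZMod (ℓ ^ (n + e))) = (1 + ℓ ^ e : ZMod (ℓ ^ (n + e))) ^ i ∨
    (u : ZMod (ℓ ^ (n + e))) = -(1 + ℓ ^ e : ZMod (ℓ ^ (n + e))) ^ i := by
  have hℓ0 : NeZero (ℓ ^ (n + e)) := ⟨pow_ne_zero _ h.prime.ne_zero⟩
  obtain ⟨g, hg⟩ := unit_g h n
  have hord : orderOf g = ℓ ^ n := by
    rw [← orderOf_units, hg]
    exact ord_g h n
  have hcard : Nat.card (ZMod (ℓ ^ (n + e)))ˣ = 2 * ℓ ^ n := by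
    rw [Nat.card_eq_fintype_card, ZMod.card_units_eq_totient, h.tot]
  have hindex : (Subgroup.zpowers g).index = 2 := by
    have h1 := Subgroup.card_mul_index (Subgroup.zpowers g)
    rw [Nat.card_zpowers, hord, hcard, mul_comm 2] at h1
    exact Nat.eq_of_mul_eq_mul_left (pow_pos h.prime.pos n) h1
  have hneg : (-1 : (ZMod (ℓ ^ (n + e)))ˣ) ∉ Subgroup.zpowers g := by
    intro hmem
    rw [← mem_powers_iff_mem_zpowers] at hmem
    obtain ⟨i, hi⟩ := hmem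
    have h2 := congrArg (fun u : (ZMod (ℓ ^ (n + e)))ˣ => ZMod.castHom (Dvd.intro_left (ℓ ^ n)
      (pow_add ℓ n e).symm : ℓ ^ e ∣ ℓ ^ (n + e)) (ZMod (ℓ ^ e)) (u : ZMod (ℓ ^ (n + e)))) hi
    simp only [Units.val_pow_eq_pow_val, hg, red_g h, Units.val_neg, Units.val_one, map_neg,
      map_one] at h2
    exact one_ne_neg_one h h2
  by_cases hu : u ∈ Subgroup.zpowers g
  · rw [← mem_powers_iff_mem_zpowers] at hu
    obtain ⟨i, hi⟩ := hu
    refine ⟨i, Or.inl ?_⟩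
    rw [← hi, Units.val_pow_eq_pow_val, hg]
  · have h3 : (-1) * u ∈ Subgroup.zpowers g := by
      rw [Subgroup.mul_mem_iff_of_index_two hindex]
      tauto
    rw [← mem_powers_iff_mem_zpowers] at h3
    obtain ⟨i, hi⟩ := h3
    refine ⟨i, Or.inr ?_⟩
    have h4 := congrArg (fun u : (ZMod (ℓ ^ (n + e)))ˣ => (u : ZMod (ℓ ^ (n + e)))) hi
    simp only [Units.val_pow_eq_pow_val, hg, Units.val_mul, Units.val_neg, Units.val_one] at h4
    rw [h4]
    ring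

/-- the value of a primitive character at `g` is a primitive root of unity -/
lemma primitive_g (t : ℕ) (χ : DirichletCharacter ℂ (ℓ ^ (t + 1 + e))) (hχ : χ.IsPrimitive) :
    IsPrimitiveRoot (χ (1 + ℓ ^ e : ZMod (ℓ ^ (t + 1 + e)))) (ℓ ^ (t + 1)) := by
  have hℓ0 : NeZero (ℓ ^ (t + 1 + e)) := ⟨pow_ne_zero _ h.prime.ne_zero⟩
  have hF : Fact ℓ.Prime := ⟨h.prime⟩
  have hpow : (χ (1 + ℓ ^ e : ZMod (ℓ ^ (t + 1 + e)))) ^ (ℓ ^ (t + 1)) = 1 := by
    rw [← map_pow, ← ord_g h (t + 1), pow_orderOf_eq_one, map_one]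
  rw [IsPrimitiveRoot.iff_orderOf]
  apply orderOf_eq_prime_pow _ hpow
  intro hone
  have hd : ℓ ^ (t + e) ∣ ℓ ^ (t + 1 + e) := pow_dvd_pow ℓ (by omega)
  have hft : χ.FactorsThrough (ℓ ^ (t + e)) := by
    rw [DirichletCharacter.factorsThrough_iff_ker_unitsMap hd]
    intro u hu
    rw [MonoidHom.mem_ker] at hu ⊢
    have hcast : ∀ x : ZMod (ℓ ^ (t + 1 + e)), (x.cast : ZMod (ℓ ^ (t + e))) =
      ZMod.castHom hd (ZMod (ℓ ^ (t + e))) x := fun x => rfl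
    have h1 : ZMod.castHom hd (ZMod (ℓ ^ (t + e))) (u : ZMod (ℓ ^ (t + 1 + e))) = 1 := by
      have h2 := congrArg (fun u : (ZMod (ℓ ^ (t + e)))ˣ => (u : ZMod (ℓ ^ (t + e)))) hu
      simp only [ZMod.unitsMap_val, Units.val_one] at h2
      rw [← hcast]
      exact h2
    have hgred : ZMod.castHom hd (ZMod (ℓ ^ (t + e))) (1 + ℓ ^ e : ZMod (ℓ ^ (t + 1 + e))) =
        (1 + ℓ ^ e : ZMod (ℓ ^ (t + e))) := by
      rw [map_add, map_one, map_pow, map_natCast]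
    obtain ⟨i, hi | hi⟩ := units_eq h (t + 1) u
    · rw [hi, map_pow, hgred] at h1
      have h3 : ℓ ^ t ∣ i := by
        rw [← ord_g h t]
        exact orderOf_dvd_of_pow_eq_one h1
      obtain ⟨j, rfl⟩ := h3
      apply Units.ext
      rw [MulChar.coe_toUnitHom, hi, map_pow, pow_mul, hone, one_pow, Units.val_one]
    · exfalso
      rw [hi, map_neg, map_pow, hgred] at h1
      have h4 := congrArg (ZMod.castHom (Dvd.intro_left (ℓ ^ t)
        (pow_add ℓ t e).symm : ℓ ^ e ∣ ℓ ^ (t + e)) (ZMod (ℓ ^ e))) h1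
      rw [map_neg, red_g h, map_one] at h4
      exact one_ne_neg_one h h4.symm
  have h5 : χ.conductor ∣ ℓ ^ (t + e) := χ.conductor_dvd_of_mem_conductorSet hft
  rw [hχ] at h5
  have h6 := (Nat.pow_dvd_pow_iff_le_right h.prime.one_lt).1 h5
  omega

end

section
variable {K : Type*} [Field K] [Algebra K ℝ]

/-- the embedding of `K` into `ℂ` -/
noncomputable def emb (K : Type*) [Field K] [Algebra K ℝ] : K →+* ℂ :=
  (algebraMap ℝ ℂ).comp (algebraMap K ℝ)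

/-- if one primitive root of unity is a root of `P` then all are -/
lemma root_all {n : ℕ} (hn : 0 < n) (hirr : Irreducible (Polynomial.cyclotomic n K))
    (P : Polynomial K) {z w : ℂ} (hz : IsPrimitiveRoot z n) (hw : IsPrimitiveRoot w n)
    (h0 : P.eval₂ (emb K) z = 0) : P.eval₂ (emb K) w = 0 := by
  have hroot : ∀ {x : ℂ}, IsPrimitiveRoot x n →
      (Polynomial.cyclotomic n K).eval₂ (emb K) x = 0 := by
    intro x hx
    rw [Polynomial.eval₂_eq_eval_map, Polynomial.map_cyclotomic]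
    exact hx.isRoot_cyclotomic hn
  rcases hirr.isCoprime_or_dvd P with hcop | ⟨Q, rfl⟩
  · exfalso
    obtain ⟨a, b, hab⟩ := hcop
    have h1 := congrArg (Polynomial.eval₂ (emb K) z) hab
    rw [Polynomial.eval₂_add, Polynomial.eval₂_mul, Polynomial.eval₂_mul, h0, hroot hz,
      Polynomial.eval₂_one] at h1
    simp at h1
  · rw [Polynomial.eval₂_mul, hroot hw, zero_mul]

/-- a line in a plane -/
lemma line {α : Type*} {ω₁ ω₂ u : ℂ} (hω : (ω₁ * (starRingEnd ℂ) ω₂).im ≠ 0)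
    (hu : u = 1 ∨ u = Complex.I) (Q : α → ℂ)
    (hV : ∀ a, ∃ x y : K, Q a = emb K x * ω₁ + emb K y * ω₂)
    (hR : ∀ a, ∃ r : ℝ, Q a = r * u) : ∃ Ω : ℂ, ∀ a, ∃ k : K, Q a = emb K k * Ω := by
  by_cases hall : ∀ a, Q a = 0
  · exact ⟨0, fun a => ⟨0, by rw [hall a]; simp⟩⟩
  push Not at hall
  obtain ⟨a0, ha0⟩ := hall
  refine ⟨Q a0, fun a => ?_⟩
  obtain ⟨x1, y1, h1⟩ := hV a0
  obtain ⟨x2, y2, h2⟩ := hV a
  obtain ⟨r1, hr1⟩ := hR a0
  obtain ⟨r2, hr2⟩ := hR a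
  have hembr : ∀ x : K, emb K x = ((algebraMap K ℝ x : ℝ) : ℂ) := fun x => rfl
  have hinj : Function.Injective (emb K) := (emb K).injective
  have hD : x1 * y2 - x2 * y1 = 0 := by
    by_contra hD
    have hDc : emb K (x1 * y2 - x2 * y1) ≠ 0 := fun h0 => hD (hinj (by rw [h0, map_zero]))
    have e1 : emb K (x1 * y2 - x2 * y1) * ω₁ = emb K y2 * Q a0 - emb K y1 * Q a := by
      rw [h1, h2, map_sub, map_mul, map_mul]
      ring
    have e2 : emb K (x1 * y2 - x2 * y1) * ω₂ = emb K x1 * Q a - emb K x2 * Q a0 := by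
      rw [h1, h2, map_sub, map_mul, map_mul]
      ring
    rw [hr1, hr2, hembr, hembr, hembr] at e1 e2
    rw [hembr] at hDc
    set D : ℝ := algebraMap K ℝ (x1 * y2 - x2 * y1) with hDdef
    have hD0 : D ≠ 0 := fun h0 => hDc (by rw [h0]; simp)
    have f1 : ω₁ = (((algebraMap K ℝ y2) * r1 - (algebraMap K ℝ y1) * r2) / D : ℝ) * u := by
      push_cast
      rw [← mul_right_inj' hDc, e1]
      field_simp
      try ring
    have f2 : ω₂ = (((algebraMap K ℝ x1) * r2 - (algebraMap K ℝ x2) * r1) / D : ℝ) * u := by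
      push_cast
      rw [← mul_right_inj' hDc, e2]
      field_simp
      try ring
    apply hω
    rw [f1, f2]
    rcases hu with rfl | rfl
    · simp
    · simp
  by_cases hx : x1 = 0
  · have hy : y1 ≠ 0 := by
      rintro rfl
      apply ha0
      rw [h1, hx]
      simp
    have hx2 : x2 = 0 := by
      rw [hx, zero_mul, zero_sub, neg_eq_zero] at hD
      exact (mul_eq_zero.1 hD).resolve_right hy
    refine ⟨y2 / y1, ?_⟩
    have hyc : emb K y1 ≠ 0 := fun h0 => hy (hinj (by rw [h0, map_zero]))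
    rw [h1, h2, hx, hx2, map_div₀, map_zero]
    field_simp
    ring
  · refine ⟨x2 / x1, ?_⟩
    have hxc : emb K x1 ≠ 0 := fun h0 => hx (hinj (by rw [h0, map_zero]))
    rw [h1, h2, map_div₀]
    have hDc := congrArg (emb K) hD
    rw [map_sub, map_mul, map_mul, map_zero] at hDc
    field_simp
    linear_combination (ω₂) * hDc

end

section
variable {N : ℕ} [NeZero N]
variable (f : CuspForm (Gamma0 N : Subgroup (GL (Fin 2) ℝ)) 2)
variable {K : Type*} [Field K] [Algebra K ℝ]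

/-- the periods of `f` lie in a plane over `K` -/
def PeriodsIn (K : Type*) [Field K] [Algebra K ℝ] : Prop :=
  ∃ ω₁ ω₂ : ℂ, (ω₁ * (starRingEnd ℂ) ω₂).im ≠ 0 ∧
    ∀ γ : SL(2, ℤ), γ ∈ Gamma0 N → ∃ x y : K, ∀ z : ℍ, prim f ((γ • z : ℍ) : ℂ) =
      prim f (z : ℂ) + ((algebraMap K ℝ x : ℝ) * ω₁ + (algebraMap K ℝ y : ℝ) * ω₂)

/-- the shape of the character sums -/
lemma Schi_shape {ℓ e : ℕ} (h : Good ℓ e) (n : ℕ) [NeZero (ℓ ^ (n + e))] (hN : N ∣ ℓ ^ (n + e))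
    (hreal : ∀ n, (coef f n).im = 0) (hper : PeriodsIn f K) {s : ℂ} (hs : s = 1 ∨ s = -1) :
    ∃ (Ω : ℂ) (P : Polynomial K), ∀ χ : DirichletCharacter ℂ (ℓ ^ (n + e)), χ (-1) = s →
      2 * Schi f χ = Ω * P.eval₂ (emb K) (χ⁻¹ (1 + ℓ ^ e : ZMod (ℓ ^ (n + e)))) := by
  classical
  have hM : 0 < ℓ ^ (n + e) := Nat.pos_of_ne_zero (NeZero.ne _)
  obtain ⟨ω₁, ω₂, hω, hV⟩ := hper
  have hperV : ∀ a : ℤ, IsCoprime a ((ℓ ^ (n + e) : ℕ) : ℤ) → ∃ x y : K,
      per f (ℓ ^ (n + e)) a = emb K x * ω₁ + emb K y * ω₂ := by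
    intro a ha
    obtain ⟨γ, h0, h1⟩ := exists_gamma ha
    have hγN : γ ∈ Gamma0 N := by
      rw [Gamma0_mem, h1, Int.cast_natCast, ZMod.natCast_eq_zero_iff]
      exact hN
    obtain ⟨x, y, hxy⟩ := hV γ hγN
    exact ⟨x, y, by rw [← h0]; exact per_gamma f hM h1 hN hxy⟩
  -- the symmetrized periods
  set Q : (ZMod (ℓ ^ (n + e)))ˣ → ℂ := fun a =>
    per f (ℓ ^ (n + e)) ((a : ZMod (ℓ ^ (n + e))).val : ℤ) +
      s * per f (ℓ ^ (n + e)) (-((a : ZMod (ℓ ^ (n + e))).val : ℤ)) with hQ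
  have hcop : ∀ a : (ZMod (ℓ ^ (n + e)))ˣ,
      IsCoprime (((a : ZMod (ℓ ^ (n + e))).val : ℕ) : ℤ) ((ℓ ^ (n + e) : ℕ) : ℤ) := by
    intro a
    rw [Nat.isCoprime_iff_coprime, ← ZMod.isUnit_iff_coprime, ZMod.natCast_zmod_val]
    exact a.isUnit
  obtain ⟨u, hu, hur⟩ : ∃ u : ℂ, (u = 1 ∨ u = Complex.I) ∧
      ∀ w : ℂ, ∃ r : ℝ, w + s * (starRingEnd ℂ) w = r * u := by
    rcases hs with rfl | rfl
    · refine ⟨1, Or.inl rfl, fun w => ⟨2 * w.re, ?_⟩⟩
      rw [one_mul, Complex.add_conj]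
      simp
    · refine ⟨Complex.I, Or.inr rfl, fun w => ⟨2 * w.im, ?_⟩⟩
      rw [neg_one_mul, ← sub_eq_add_neg, Complex.sub_conj]
  obtain ⟨Ω, hΩ⟩ := line (K := K) hω hu Q (fun a => by
    obtain ⟨x1, y1, h1⟩ := hperV _ (hcop a)
    obtain ⟨x2, y2, h2⟩ := hperV _ (hcop a).neg_left
    rcases hs with rfl | rfl
    · refine ⟨x1 + x2, y1 + y2, ?_⟩
      rw [hQ]
      simp only [h1, h2, map_add]
      ring
    · refine ⟨x1 - x2, y1 - y2, ?_⟩
      rw [hQ]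
      simp only [h1, h2, map_sub]
      ring) (fun a => by
    rw [hQ]
    simp only [conj_per f hreal]
    exact hur _)
  choose k hk using hΩ
  choose i hi using units_eq h n
  have hsc : ∃ σ : K, emb K σ = s := by
    rcases hs with rfl | rfl
    · exact ⟨1, map_one _⟩
    · exact ⟨-1, by rw [map_neg, map_one]⟩
  obtain ⟨σ, hσ⟩ := hsc
  refine ⟨Ω, ∑ a : (ZMod (ℓ ^ (n + e)))ˣ, Polynomial.C (if (a : ZMod (ℓ ^ (n + e))) =
    (1 + ℓ ^ e : ZMod (ℓ ^ (n + e))) ^ i a then k a else σ * k a) * Polynomial.X ^ i a,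
    fun χ hχ => ?_⟩
  have hinv : χ⁻¹ (-1) = s := by
    rw [MulChar.inv_apply_eq_inv, Ring.inverse_eq_inv', hχ]
    rcases hs with rfl | rfl <;> norm_num
  have h1 : 2 * Schi f χ = ∑ a : ZMod (ℓ ^ (n + e)), χ⁻¹ a * (per f (ℓ ^ (n + e)) (a.val : ℤ) +
      s * per f (ℓ ^ (n + e)) (-(a.val : ℤ))) := by
    have h2 : ∑ a : ZMod (ℓ ^ (n + e)), χ⁻¹ a * per f (ℓ ^ (n + e)) (-(a.val : ℤ)) =
        s * Schi f χ := by
      unfold Schi
      rw [← Equiv.sum_comp (Equiv.neg (ZMod (ℓ ^ (n + e)))), Finset.mul_sum]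
      refine Finset.sum_congr rfl fun a _ => ?_
      simp only [Equiv.neg_apply]
      have h3 : per f (ℓ ^ (n + e)) (-((-a).val : ℤ)) = per f (ℓ ^ (n + e)) (a.val : ℤ) := by
        rw [← per_zmod f (M := ℓ ^ (n + e)) (-((-a).val : ℤ))]
        congr 2
        push_cast
        rw [ZMod.natCast_zmod_val, neg_neg]
      rw [h3, ← neg_one_mul a, map_mul, hinv]
      ring
    have h4 : ∑ a : ZMod (ℓ ^ (n + e)), χ⁻¹ a * (per f (ℓ ^ (n + e)) (a.val : ℤ) +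
      s * per f (ℓ ^ (n + e)) (-(a.val : ℤ))) = Schi f χ +
        s * ∑ a : ZMod (ℓ ^ (n + e)), χ⁻¹ a * per f (ℓ ^ (n + e)) (-(a.val : ℤ)) := by
      unfold Schi
      rw [Finset.mul_sum, ← Finset.sum_add_distrib]
      refine Finset.sum_congr rfl fun a _ => ?_
      ring
    rw [h4, h2]
    have h5 : s * s = 1 := by rcases hs with rfl | rfl <;> norm_num
    linear_combination (-Schi f χ) * h5
  have h6 : ∑ a : ZMod (ℓ ^ (n + e)), χ⁻¹ a * (per f (ℓ ^ (n + e)) (a.val : ℤ) +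
      s * per f (ℓ ^ (n + e)) (-(a.val : ℤ))) =
      ∑ a : (ZMod (ℓ ^ (n + e)))ˣ, χ⁻¹ (a : ZMod (ℓ ^ (n + e))) * Q a := by
    rw [← Finset.sum_filter_of_ne (p := fun a : ZMod (ℓ ^ (n + e)) => IsUnit a)]
    · symm
      refine Finset.sum_bij (fun a _ => (a : ZMod (ℓ ^ (n + e)))) ?_ ?_ ?_ ?_
      · intro a _
        simp
      · intro a _ b _ hab
        exact Units.ext hab
      · intro b hb
        rw [Finset.mem_filter] at hb
        obtain ⟨u, hu⟩ := hb.2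
        exact ⟨u, Finset.mem_univ _, hu⟩
      · intro a _
        rfl
    · intro a _ hne
      by_contra hna
      apply hne
      rw [MulChar.map_nonunit _ hna, zero_mul]
  rw [h1, h6, Polynomial.eval₂_finsetSum, Finset.mul_sum]
  refine Finset.sum_congr rfl fun a _ => ?_
  rw [Polynomial.eval₂_mul, Polynomial.eval₂_C, Polynomial.eval₂_pow, Polynomial.eval₂_X, hk a,
    ← map_pow]
  split_ifs with hif
  · rw [← hif]
    ring
  · have h7 := (hi a).resolve_left hif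
    conv_lhs => rw [h7]
    rw [← neg_one_mul, map_mul χ⁻¹, hinv, map_mul (emb K), hσ]
    ring

/-- all primitive characters -/
theorem Schi_ne_zero {ℓ e : ℕ} (h : Good ℓ e) (t : ℕ) [NeZero (ℓ ^ (t + 1 + e))]
    (hN : N ∣ ℓ ^ (t + 1 + e)) (hf : f ≠ 0)
    (hreal : ∀ n, (coef f n).im = 0) (hc : ∀ n : ℕ, ¬ n.Coprime (ℓ ^ (t + 1 + e)) → coef f n = 0)
    (hper : PeriodsIn f K) (hirr : Irreducible (Polynomial.cyclotomic (ℓ ^ (t + 1)) K))
    (χ : DirichletCharacter ℂ (ℓ ^ (t + 1 + e))) (hχ : χ.IsPrimitive) : Schi f χ ≠ 0 := by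
  have he := h.e0
  have hs : χ (-1) = 1 ∨ χ (-1) = -1 := by
    have h1 : χ (-1) * χ (-1) = 1 := by
      rw [← map_mul]
      simp
    have h4 : (χ (-1) - 1) * (χ (-1) + 1) = 0 := by linear_combination h1
    rcases mul_eq_zero.1 h4 with h5 | h5
    · left
      linear_combination h5
    · right
      linear_combination h5
  obtain ⟨χ0, hp0, hs0, hS0⟩ := exists_primitive f h.prime (m := t + 1 + e) (by omega) hN hf hreal
    hc hs
  obtain ⟨Ω, P, hP⟩ := Schi_shape f h (t + 1) hN hreal hper hs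
  have h1 := hP χ rfl
  have h2 := hP χ0 hs0
  have hprim : ∀ ψ : DirichletCharacter ℂ (ℓ ^ (t + 1 + e)), ψ.IsPrimitive →
      IsPrimitiveRoot (ψ⁻¹ (1 + ℓ ^ e : ZMod (ℓ ^ (t + 1 + e)))) (ℓ ^ (t + 1)) := by
    intro ψ hψ
    rw [MulChar.inv_apply_eq_inv, Ring.inverse_eq_inv']
    exact (primitive_g h t ψ hψ).inv
  intro h0
  rw [h0, mul_zero] at h1
  have hΩ : Ω ≠ 0 := by
    rintro rfl
    rw [zero_mul] at h2
    apply hS0
    simpa using h2
  have h3 := (mul_eq_zero.1 h1.symm).resolve_left hΩ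
  have h4 := root_all (pow_pos h.prime.pos _) hirr P (hprim χ hχ) (hprim χ0 hp0) h3
  rw [h4, mul_zero] at h2
  apply hS0
  simpa using h2

end

end Pool.Agent.H503.TA
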