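import Pool.Agent.H503.TA.Max

/-!
# Generators of `Γ₀(ℓ^m)` with lower left entry `ℓ^m`
-/

set_option autoImplicit false
set_option linter.unusedSectionVars false

open Complex UpperHalfPlane MatrixGroups CongruenceSubgroup Filter Topology ModularForm

namespace Pool.Agent.H503.TA

/-- the choice of the residue -/
lemma choose_a {ℓ : ℕ} (hℓ : ℓ.Prime) {k d : ℤ} (hk : 2 ≤ |k|) (hkd : IsCoprime k d) :
    ∃ a : ℤ, ¬ (ℓ : ℤ) ∣ a ∧ |k * a + d| < |k| := by
  have hk0 : k ≠ 0 := by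
    rintro rfl
    simp at hk
  set q := (-d) / k with hq
  set r := (-d) % k with hr
  have h1 : k * q + r = -d := Int.mul_ediv_add_emod (-d) k
  have h2 : 0 ≤ r := Int.emod_nonneg _ hk0
  have h3 : r < |k| := Int.emod_lt_abs _ hk0
  have h4 : r ≠ 0 := by
    intro h0
    rw [h0, add_zero] at h1
    have h5 : k ∣ d := ⟨-q, by linarith⟩
    have h6 : IsUnit k := hkd.isUnit_of_dvd' dvd_rfl h5
    rw [Int.isUnit_iff] at h6
    rcases h6 with h6 | h6 <;> rw [h6] at hk <;> norm_num at hk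
  have h5 : 0 < r := lt_of_le_of_ne h2 (Ne.symm h4)
  by_cases hd : (ℓ : ℤ) ∣ q
  · rcases lt_or_gt_of_ne hk0 with hneg | hpos
    · refine ⟨q - 1, ?_, ?_⟩
      · intro h
        have h7 : (ℓ : ℤ) ∣ 1 := by
          have := dvd_sub hd h
          simpa using this
        have h8 : ℓ ∣ 1 := by exact_mod_cast h7
        exact hℓ.one_lt.ne' (Nat.dvd_one.1 h8)
      · rw [abs_of_neg hneg] at h3 ⊢
        rw [abs_lt]
        constructor <;> nlinarith
    · refine ⟨q + 1, ?_, ?_⟩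
      · intro h
        have h7 : (ℓ : ℤ) ∣ 1 := by
          have := dvd_sub h hd
          simpa using this
        have h8 : ℓ ∣ 1 := by exact_mod_cast h7
        exact hℓ.one_lt.ne' (Nat.dvd_one.1 h8)
      · rw [abs_of_pos hpos] at h3 ⊢
        rw [abs_lt]
        constructor <;> nlinarith
  · refine ⟨q, hd, ?_⟩
    rw [show k * q + d = -r by linarith, abs_neg, abs_of_pos h5]
    exact h3

lemma eq_T_zpow {γ : SL(2, ℤ)} (h : γ 1 0 = 0) :
    ∃ j : ℤ, γ = ModularGroup.T ^ j ∨ γ = -ModularGroup.T ^ j := by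
  have hdet := det_eq γ
  rw [h, mul_zero, sub_zero] at hdet
  rcases Int.mul_eq_one_iff_eq_one_or_neg_one.1 hdet with ⟨h1, h2⟩ | ⟨h1, h2⟩
  · refine ⟨γ 0 1, Or.inl ?_⟩
    ext i j
    rw [ModularGroup.coe_T_zpow]
    fin_cases i <;> fin_cases j <;> simp [h, h1, h2]
  · refine ⟨-γ 0 1, Or.inr ?_⟩
    ext i j
    rw [Matrix.SpecialLinearGroup.coe_neg, ModularGroup.coe_T_zpow]
    fin_cases i <;> fin_cases j <;> simp [h, h1, h2]

/-- `Γ₀(ℓ^m)` is generated by `T`, `-1` and the matrices with lower left entry `ℓ^m` -/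
theorem gamma0_le {ℓ : ℕ} (hℓ : ℓ.Prime) {m : ℕ} (H : Subgroup SL(2, ℤ))
    (hT : ModularGroup.T ∈ H) (hneg : (-1 : SL(2, ℤ)) ∈ H)
    (hH : ∀ γ : SL(2, ℤ), γ 1 0 = (ℓ : ℤ) ^ m → γ ∈ H) :
    ∀ γ : SL(2, ℤ), (ℓ : ℤ) ^ m ∣ γ 1 0 → γ ∈ H := by
  have hneg' : ∀ γ : SL(2, ℤ), -γ ∈ H → γ ∈ H := by
    intro γ h
    have := H.mul_mem hneg h
    simpa using this
  have hℓ0 : (0 : ℤ) < (ℓ : ℤ) ^ m := by
    have := hℓ.pos
    positivity
  suffices h : ∀ n : ℕ, ∀ γ : SL(2, ℤ), ∀ k : ℤ, k.natAbs = n → γ 1 0 = (ℓ : ℤ) ^ m * k → γ ∈ H by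
    rintro γ ⟨k, hk⟩
    exact h _ γ k rfl hk
  intro n
  induction n using Nat.strong_induction_on with
  | _ n ih =>
    intro γ k hkn hk
    rcases Nat.lt_or_ge k.natAbs 2 with hlt | hge
    · have hcases : k = 0 ∨ k = 1 ∨ k = -1 := by omega
      rcases hcases with rfl | rfl | rfl
      · rw [mul_zero] at hk
        obtain ⟨j, hj | hj⟩ := eq_T_zpow hk
        · rw [hj]
          exact H.zpow_mem hT j
        · apply hneg'
          rw [hj, neg_neg]
          exact H.zpow_mem hT j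
      · exact hH γ (by rw [hk, mul_one])
      · apply hneg'
        apply hH
        rw [Matrix.SpecialLinearGroup.coe_neg, Matrix.neg_apply, hk]
        ring
    · have hk2 : 2 ≤ |k| := by
        rw [← Int.natCast_natAbs]
        exact_mod_cast hge
      have hdet := det_eq γ
      have hcop : IsCoprime k (γ 1 1) := ⟨-γ 0 1 * (ℓ : ℤ) ^ m, γ 0 0, by
        rw [hk] at hdet
        linarith⟩
      obtain ⟨a, ha, hlt⟩ := choose_a hℓ hk2 hcop
      have hcop2 : IsCoprime a ((ℓ : ℤ) ^ m) := by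
        apply IsCoprime.pow_right
        rw [isCoprime_comm]
        exact (Nat.prime_iff_prime_int.1 hℓ).coprime_iff_not_dvd.2 ha
      obtain ⟨γ', h0, h1⟩ := hcop2.exists_SL2_col 0
      have hγ' : γ' ∈ H := hH γ' h1
      have hprod : (γ * γ') 1 0 = (ℓ : ℤ) ^ m * (k * a + γ 1 1) := by
        rw [Matrix.SpecialLinearGroup.coe_mul, Matrix.mul_apply, Fin.sum_univ_two, h0, h1, hk]
        ring
      have hmem : γ * γ' ∈ H := by
        refine ih (k * a + γ 1 1).natAbs ?_ (γ * γ') _ rfl hprod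
        rw [← hkn]
        have : ((k * a + γ 1 1).natAbs : ℤ) < (k.natAbs : ℤ) := by
          rw [Int.natCast_natAbs, Int.natCast_natAbs]
          exact hlt
        exact_mod_cast this
      exact (H.mul_mem_cancel_right hγ').1 hmem

section
variable {N : ℕ} [NeZero N]
variable (f : CuspForm (Gamma0 N : Subgroup (GL (Fin 2) ℝ)) 2)

/-- the stabilizer of the real part of the primitive -/
def stab (κ : ℂ) : Subgroup SL(2, ℤ) where
  carrier := {γ | ∀ τ : ℍ, (κ * prim f ((γ • τ : ℍ) : ℂ)).re = (κ * prim f (τ : ℂ)).re}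
  one_mem' := fun τ => by rw [one_smul]
  mul_mem' := fun {a b} ha hb τ => by rw [mul_smul, ha, hb]
  inv_mem' := fun {a} ha τ => by
    have := ha (a⁻¹ • τ)
    rw [smul_inv_smul] at this
    exact this.symm

lemma mem_stab {κ : ℂ} {γ : SL(2, ℤ)} : γ ∈ stab f κ ↔
    ∀ τ : ℍ, (κ * prim f ((γ • τ : ℍ) : ℂ)).re = (κ * prim f (τ : ℂ)).re := Iff.rfl

lemma prim_add_one (z : ℂ) : prim f (z + 1) = prim f z := by
  unfold prim
  congr 1
  funext n
  rw [show 2 * Real.pi * Complex.I * n * (z + 1) = 2 * Real.pi * Complex.I * n * z +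
    n * (2 * Real.pi * Complex.I) by ring, Complex.exp_add, Complex.exp_nat_mul_two_pi_mul_I,
    mul_one]

lemma prim_add_int (z : ℂ) (k : ℤ) : prim f (z + k) = prim f z := by
  have : Function.Periodic (prim f) 1 := prim_add_one f
  simpa using this.int_mul k z

/-- the main vanishing criterion -/
theorem eq_zero_of_level {ℓ : ℕ} (hℓ : ℓ.Prime) {m : ℕ} {κ : ℂ} (hκ : κ ≠ 0)
    (hH : ∀ γ : SL(2, ℤ), γ 1 0 = (ℓ : ℤ) ^ m → γ ∈ stab f κ) : f = 0 := by
  have hle := gamma0_le hℓ (m := m) (stab f κ) (fun τ => ?_) (fun τ => ?_) hH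
  · apply eq_zero_of_periods f hκ
    intro γ hγ
    have : NeZero (ℓ ^ m) := ⟨pow_ne_zero _ hℓ.ne_zero⟩
    have hfi : (Gamma0 (ℓ ^ m)).index ≠ 0 := Subgroup.FiniteIndex.index_ne_zero
    obtain ⟨j, hj0, -, hj⟩ := Subgroup.exists_pow_mem_of_index_ne_zero hfi γ
    have hmem : γ ^ j ∈ stab f κ := by
      apply hle
      rw [Gamma0_mem] at hj
      rw [ZMod.intCast_zmod_eq_zero_iff_dvd] at hj
      simpa using hj
    obtain ⟨c, hc⟩ := prim_smul f hγ
    have hpow : ∀ n : ℕ, ∀ τ : ℍ, prim f ((γ ^ n • τ : ℍ) : ℂ) = prim f τ + n * c := by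
      intro n
      induction n with
      | zero => intro τ; simp
      | succ n ih =>
        intro τ
        rw [pow_succ, mul_smul, ih, hc]
        push_cast
        ring
    have h1 := hmem UpperHalfPlane.I
    rw [hpow] at h1
    have h2 : (κ * c).re = 0 := by
      have h3 : (κ * (prim f UpperHalfPlane.I + j * c)).re =
          (κ * prim f UpperHalfPlane.I).re + j * (κ * c).re := by
        simp only [mul_add, Complex.add_re, Complex.mul_re, Complex.mul_im, Complex.natCast_re,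
          Complex.natCast_im]
        ring
      rw [h3] at h1
      have hj1 : (j : ℝ) ≠ 0 := by exact_mod_cast hj0.ne'
      have h4 : (j : ℝ) * (κ * c).re = 0 := by linarith
      exact (mul_eq_zero.1 h4).resolve_left hj1
    intro τ
    rw [hc, mul_add, Complex.add_re, h2, add_zero]
  · have : ((ModularGroup.T • τ : ℍ) : ℂ) = (τ : ℂ) + 1 := by
      have := ModularGroup.coe_T_zpow_smul_eq (n := 1) (z := τ)
      simpa using this
    rw [this, prim_add_one]
  · rw [ModularGroup.SL_neg_smul, one_smul]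

end

end Pool.Agent.H503.TA
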