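import Pool.Agent.H503.TA.Four

/-!
# Existence of nonvanishing twists at every layer
-/

set_option autoImplicit false
set_option linter.unusedSectionVars false

open Complex UpperHalfPlane MatrixGroups CongruenceSubgroup Filter Topology ModularForm
open MeasureTheory Set Asymptotics

namespace Pool.Agent.H503.TA

section
variable {ℓ : ℕ} (hℓ : ℓ.Prime) {m : ℕ} (hm : 2 ≤ m)
include hℓ hm

lemma factors_of_not_primitive [NeZero (ℓ ^ m)] (χ : DirichletCharacter ℂ (ℓ ^ m))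
    (hχ : ¬ χ.IsPrimitive) : χ.FactorsThrough (ℓ ^ (m - 1)) := by
  obtain ⟨j, hj, hj2⟩ := (Nat.dvd_prime_pow hℓ).1 χ.conductor_dvd_level
  have hne : j ≠ m := by
    rintro rfl
    exact hχ hj2
  have h1 : j ≤ m - 1 := by omega
  refine DirichletCharacter.FactorsThrough.mono χ χ.factorsThrough_conductor ?_ ?_
  · rw [hj2]
    exact pow_dvd_pow ℓ h1
  · exact pow_dvd_pow ℓ (by omega)

/-- the shift -/
lemma shift_eq [NeZero (ℓ ^ m)] (χ : DirichletCharacter ℂ (ℓ ^ m))
    (hχ : χ.FactorsThrough (ℓ ^ (m - 1))) (a : ZMod (ℓ ^ m)) :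
    χ (a + ((ℓ ^ (m - 1) : ℕ) : ZMod (ℓ ^ m))) = χ a := by
  obtain ⟨hd, χ0, rfl⟩ := hχ
  set h : ZMod (ℓ ^ m) := ((ℓ ^ (m - 1) : ℕ) : ZMod (ℓ ^ m)) with hh
  have hnil : IsNilpotent h := by
    refine ⟨2, ?_⟩
    rw [hh, ← Nat.cast_pow, ← pow_mul, ZMod.natCast_eq_zero_iff]
    exact pow_dvd_pow ℓ (by omega)
  have hunit : IsUnit (a + h) ↔ IsUnit a := by
    constructor
    · intro hu
      have := (hnil.neg.isUnit_add_left_of_commute hu (Commute.all _ _))
      simpa using this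
    · intro hu
      exact hnil.isUnit_add_left_of_commute hu (Commute.all _ _)
  by_cases ha : IsUnit a
  · have ha' := hunit.2 ha
    obtain ⟨u, hu⟩ := ha
    obtain ⟨w, hw⟩ := ha'
    rw [← hw, ← hu, DirichletCharacter.changeLevel_eq_cast_of_dvd χ0 hd,
      DirichletCharacter.changeLevel_eq_cast_of_dvd χ0 hd]
    congr 1
    have h1 : ∀ x : ZMod (ℓ ^ m), (x.cast : ZMod (ℓ ^ (m - 1))) =
        ZMod.castHom hd (ZMod (ℓ ^ (m - 1))) x := fun x => rfl
    rw [h1, h1, hw, hu, map_add]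
    have h2 : ZMod.castHom hd (ZMod (ℓ ^ (m - 1))) h = 0 := by
      rw [hh, map_natCast, ZMod.natCast_self]
    rw [h2, add_zero]
  · rw [MulChar.map_nonunit _ ha, MulChar.map_nonunit _ (fun hu => ha (hunit.1 hu))]

lemma tau_eq_zero [NeZero (ℓ ^ m)] (χ : DirichletCharacter ℂ (ℓ ^ m))
    (hχ : ¬ χ.IsPrimitive) : tau χ = 0 := by
  have hf := factors_of_not_primitive hℓ hm χ hχ
  have hf' : χ⁻¹.FactorsThrough (ℓ ^ (m - 1)) := by
    obtain ⟨hd, χ0, h0⟩ := hf
    exact ⟨hd, χ0⁻¹, by rw [map_inv, h0]⟩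
  set h : ZMod (ℓ ^ m) := ((ℓ ^ (m - 1) : ℕ) : ZMod (ℓ ^ m)) with hh
  have h1 : tau χ = ZMod.stdAddChar (N := ℓ ^ m) h * tau χ := by
    unfold tau gaussSum
    rw [Finset.mul_sum]
    conv_lhs => rw [← Equiv.sum_comp (Equiv.addRight h)]
    refine Finset.sum_congr rfl fun a _ => ?_
    simp only [Equiv.coe_addRight]
    rw [shift_eq hℓ hm χ⁻¹ hf' a, AddChar.map_add_eq_mul]
    ring
  have h2 : ZMod.stdAddChar (N := ℓ ^ m) h ≠ 1 := by
    intro h3
    have h4 : ZMod.stdAddChar (N := ℓ ^ m) h = ZMod.stdAddChar (N := ℓ ^ m) 0 := by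
      rw [h3, AddChar.map_zero_eq_one]
    have h5 := ZMod.injective_stdAddChar h4
    rw [hh, ZMod.natCast_eq_zero_iff] at h5
    have h6 := (Nat.pow_dvd_pow_iff_le_right hℓ.one_lt).1 h5
    omega
  have h3 : (1 - ZMod.stdAddChar (N := ℓ ^ m) h) * tau χ = 0 := by linear_combination h1
  rcases mul_eq_zero.1 h3 with h4 | h4
  · exact absurd (sub_eq_zero.1 h4).symm h2
  · exact h4

end

section
variable {M : ℕ} [NeZero M]

/-- orthogonality -/
lemma orthogonality (q : ZMod M → ℂ) (h : ∀ χ : DirichletCharacter ℂ M, ∑ a, χ⁻¹ a * q a = 0)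
    {b : ZMod M} (hb : IsUnit b) : q b = 0 := by
  have h1 : ∑ χ : DirichletCharacter ℂ M, χ b * ∑ a, χ⁻¹ a * q a = 0 := by
    refine Finset.sum_eq_zero fun χ _ => ?_
    rw [h χ, mul_zero]
  have h2 : ∑ χ : DirichletCharacter ℂ M, χ b * ∑ a, χ⁻¹ a * q a =
      ∑ a, q a * ∑ χ : DirichletCharacter ℂ M, χ⁻¹ a * χ b := by
    simp only [Finset.mul_sum]
    rw [Finset.sum_comm]
    refine Finset.sum_congr rfl fun a _ => Finset.sum_congr rfl fun χ _ => ?_
    ring
  rw [h2, Finset.sum_eq_single b] at h1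
  · have h3 : ∑ χ : DirichletCharacter ℂ M, χ⁻¹ b * χ b = (M.totient : ℂ) := by
      have h4 : ∀ χ : DirichletCharacter ℂ M, χ⁻¹ b * χ b = 1 := by
        intro χ
        rw [← MulChar.mul_apply, inv_mul_cancel]
        obtain ⟨u, rfl⟩ := hb
        exact MulChar.one_apply_coe u
      rw [Finset.sum_congr rfl (fun χ _ => h4 χ), Finset.sum_const, Finset.card_univ,
        nsmul_eq_mul, mul_one]
      have := DirichletCharacter.card_eq_totient_of_hasEnoughRootsOfUnity ℂ M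
      rw [← Nat.card_eq_fintype_card, this]
    rw [h3] at h1
    have h5 : (M.totient : ℂ) ≠ 0 := by
      have : 0 < M.totient := Nat.totient_pos.2 (Nat.pos_of_ne_zero (NeZero.ne M))
      exact_mod_cast this.ne'
    exact (mul_eq_zero.1 h1).resolve_right h5
  · intro a _ hab
    by_cases ha : IsUnit a
    · have h3 := DirichletCharacter.sum_char_inv_mul_char_eq ℂ ha b
      rw [if_neg hab] at h3
      have h4 : ∑ χ : DirichletCharacter ℂ M, χ⁻¹ a * χ b = 0 := by
        rw [← h3]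
        refine Finset.sum_congr rfl fun χ _ => ?_
        congr 1
        obtain ⟨u, rfl⟩ := ha
        rw [MulChar.inv_apply, ZMod.inv_coe_unit, Ring.inverse_unit]
      rw [h4, mul_zero]
    · have : ∀ χ : DirichletCharacter ℂ M, χ⁻¹ a * χ b = 0 := fun χ => by
        rw [MulChar.map_nonunit _ ha, zero_mul]
      rw [Finset.sum_congr rfl (fun χ _ => this χ), Finset.sum_const_zero, mul_zero]
  · intro h3
    exact absurd (Finset.mem_univ b) h3

/-- orthogonality for the characters of given parity -/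
lemma orthogonality_parity (q : ZMod M → ℂ) {s : ℂ} (hs : s = 1 ∨ s = -1)
    (h : ∀ χ : DirichletCharacter ℂ M, χ (-1) = s → ∑ a, χ⁻¹ a * q a = 0)
    {b : ZMod M} (hb : IsUnit b) : q b + s * q (-b) = 0 := by
  refine orthogonality (fun a => q a + s * q (-a)) (fun χ => ?_) hb
  have hsq : χ (-1) * χ (-1) = 1 := by
    rw [← map_mul]
    simp
  have h1 : ∑ a, χ⁻¹ a * (q a + s * q (-a)) = (1 + s * χ⁻¹ (-1)) * ∑ a, χ⁻¹ a * q a := by
    have h2 : ∑ a, χ⁻¹ a * q (-a) = χ⁻¹ (-1) * ∑ a, χ⁻¹ a * q a := by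
      rw [← Equiv.sum_comp (Equiv.neg (ZMod M)), Finset.mul_sum]
      refine Finset.sum_congr rfl fun a _ => ?_
      simp only [Equiv.neg_apply, neg_neg]
      rw [← neg_one_mul a, map_mul]
      ring
    calc ∑ a, χ⁻¹ a * (q a + s * q (-a))
        = ∑ a, χ⁻¹ a * q a + s * ∑ a, χ⁻¹ a * q (-a) := by
          rw [Finset.mul_sum, ← Finset.sum_add_distrib]
          refine Finset.sum_congr rfl fun a _ => ?_
          ring
      _ = _ := by
          rw [h2]
          ring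
  have hinv : χ⁻¹ (-1) = χ (-1) := by
    rw [MulChar.inv_apply_eq_inv]
    rw [Ring.inverse_eq_inv']
    exact (eq_inv_of_mul_eq_one_left hsq).symm
  rw [h1]
  by_cases hχ : χ (-1) = s
  · rw [h χ hχ, mul_zero]
  · have h3 : 1 + s * χ⁻¹ (-1) = 0 := by
      rw [hinv]
      have h4 : (χ (-1) - 1) * (χ (-1) + 1) = 0 := by linear_combination hsq
      rcases mul_eq_zero.1 h4 with h5 | h5
      · have h6 : χ (-1) = 1 := by linear_combination h5
        rcases hs with rfl | rfl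
        · exact absurd h6 hχ
        · rw [h6]
          ring
      · have h6 : χ (-1) = -1 := by linear_combination h5
        rcases hs with rfl | rfl
        · rw [h6]
          ring
        · exact absurd h6 hχ
    rw [h3, zero_mul]

end

section
variable {N : ℕ} [NeZero N]
variable (f : CuspForm (Gamma0 N : Subgroup (GL (Fin 2) ℝ)) 2)

lemma Schi_of_tau {M : ℕ} [NeZero M] (hN : N ∣ M) (hc : ∀ n : ℕ, ¬ n.Coprime M → coef f n = 0)
    (χ : DirichletCharacter ℂ M) (h0 : tau χ = 0) : Schi f χ = 0 := by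
  have h2pi : (2 * Real.pi : ℂ) ≠ 0 := by
    have := Real.pi_ne_zero
    exact_mod_cast mul_ne_zero two_ne_zero this
  have hval : mellin (Fchi f χ) 1 = Schi f χ / (2 * Real.pi) := by
    rw [mellin_sum f hN, Schi, Finset.sum_div]
    refine Finset.sum_congr rfl fun a _ => ?_
    unfold per
    push_cast
    field_simp
  have h1 : mellin (Fchi f χ) 1 = 0 := by
    have h2 : mellin (Fchi f χ) 1 = mellin (fun _ => (0 : ℂ)) 1 := by
      refine mellin_congr (fun y hy => ?_) 1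
      have h3 := hasSum_Fchi f hc χ hy
      simp only [h0, zero_mul] at h3
      exact h3.unique hasSum_zero
    rw [h2]
    simp [mellin]
  rw [hval, div_eq_zero_iff] at h1
  exact h1.resolve_right h2pi

/-- if the character sums of one parity vanish then the form vanishes -/
theorem eq_zero_of_Schi {ℓ : ℕ} (hℓ : ℓ.Prime) {m : ℕ} [NeZero (ℓ ^ m)] (hN : N ∣ ℓ ^ m)
    (hreal : ∀ n, (coef f n).im = 0) {s : ℂ} (hs : s = 1 ∨ s = -1)
    (h : ∀ χ : DirichletCharacter ℂ (ℓ ^ m), χ (-1) = s → Schi f χ = 0) : f = 0 := by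
  have hM : 0 < ℓ ^ m := Nat.pos_of_ne_zero (NeZero.ne _)
  -- the vanishing of the parts of the periods
  have h1 : ∀ a : ℤ, IsCoprime a ((ℓ ^ m : ℕ) : ℤ) →
      per f (ℓ ^ m) a + s * (starRingEnd ℂ) (per f (ℓ ^ m) a) = 0 := by
    intro a ha
    have hu : IsUnit (a : ZMod (ℓ ^ m)) := by
      exact (ZMod.coe_int_isUnit_iff_isCoprime a (ℓ ^ m)).2 ha.symm
    have h2 := orthogonality_parity (fun a : ZMod (ℓ ^ m) => per f (ℓ ^ m) a.val) hs
      (fun χ hχ => h χ hχ) hu
    have h3 : per f (ℓ ^ m) (((-(a : ZMod (ℓ ^ m))).val : ℕ) : ℤ) = per f (ℓ ^ m) (-a) := by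
      have := per_zmod f (M := ℓ ^ m) (-a)
      push_cast at this
      exact this
    rw [h3, per_zmod, conj_per f hreal] at h2
    exact h2
  have key : ∀ κ : ℂ, (∀ w : ℂ, w + s * (starRingEnd ℂ) w = 0 → (κ * w).re = 0) →
      ∀ γ : SL(2, ℤ), γ 1 0 = (ℓ : ℤ) ^ m → γ ∈ stab f κ := by
    intro κ hκ γ hγ
    have hγ' : γ 1 0 = ((ℓ ^ m : ℕ) : ℤ) := by
      rw [hγ]
      push_cast
      rfl
    have hγN : γ ∈ Gamma0 N := by
      rw [Gamma0_mem, hγ', Int.cast_natCast, ZMod.natCast_eq_zero_iff]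
      exact hN
    obtain ⟨c, hc⟩ := prim_smul f hγN
    have h2 := per_gamma f hM hγ' hN hc
    have hcop : IsCoprime (γ 0 0) ((ℓ ^ m : ℕ) : ℤ) := by
      refine ⟨γ 1 1, -γ 0 1, ?_⟩
      have := det_eq γ
      rw [hγ'] at this
      linarith
    have h3 := h1 _ hcop
    rw [h2] at h3
    have h4 := hκ c h3
    intro τ
    rw [hc, mul_add, Complex.add_re, h4, add_zero]
  rcases hs with rfl | rfl
  · refine eq_zero_of_level f hℓ (m := m) (κ := 1) one_ne_zero (key 1 ?_)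
    intro w hw
    have := congrArg Complex.re hw
    simp at this
    simp
    linarith
  · refine eq_zero_of_level f hℓ (m := m) (κ := Complex.I) Complex.I_ne_zero (key Complex.I ?_)
    intro w hw
    have := congrArg Complex.im hw
    simp at this
    simp
    linarith

/-- existence of a nonvanishing twist at every layer -/
theorem exists_primitive {ℓ : ℕ} (hℓ : ℓ.Prime) {m : ℕ} [NeZero (ℓ ^ m)] (hm : 2 ≤ m)
    (hN : N ∣ ℓ ^ m) (hf : f ≠ 0) (hreal : ∀ n, (coef f n).im = 0)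
    (hc : ∀ n : ℕ, ¬ n.Coprime (ℓ ^ m) → coef f n = 0) {s : ℂ} (hs : s = 1 ∨ s = -1) :
    ∃ χ : DirichletCharacter ℂ (ℓ ^ m), χ.IsPrimitive ∧ χ (-1) = s ∧ Schi f χ ≠ 0 := by
  by_contra hno
  push Not at hno
  apply hf
  refine eq_zero_of_Schi f hℓ hN hreal hs fun χ hχ => ?_
  by_cases hp : χ.IsPrimitive
  · exact hno χ hp hχ
  · exact Schi_of_tau f hN hc χ (tau_eq_zero hℓ hm χ hp)

end

end Pool.Agent.H503.TA
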