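import Pool.Agent.H503.TA.Prim

/-!
# The maximum principle for the primitive of a cusp form of weight two
-/

set_option autoImplicit false
set_option linter.unusedSectionVars false

open Complex UpperHalfPlane MatrixGroups CongruenceSubgroup Filter Topology ModularForm
open scoped Manifold

namespace Pool.Agent.H503.TA

variable {N : ℕ} [NeZero N]
variable (f : CuspForm (Gamma0 N : Subgroup (GL (Fin 2) ℝ)) 2)

lemma mdiff_slash (δ : SL(2, ℤ)) : MDiff ((f : ℍ → ℂ) ∣[(2 : ℤ)] δ) := by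
  rw [SL_slash]
  exact (ModularFormClass.holo f).slash 2 _

lemma zero_slash (δ : SL(2, ℤ)) : IsZeroAtImInfty ((f : ℍ → ℂ) ∣[(2 : ℤ)] δ) :=
  CuspFormClass.zero_at_infty_slash f δ

lemma slash_val (δ : SL(2, ℤ)) (τ : ℍ) : ((f : ℍ → ℂ) ∣[(2 : ℤ)] δ) τ =
    f (δ • τ) / (((δ 1 0 : ℤ) : ℂ) * τ + (δ 1 1 : ℤ)) ^ 2 := by
  rw [SL_slash_apply]
  simp [UpperHalfPlane.denom, div_eq_mul_inv]

/-- the matrix `T^N` conjugated -/
lemma conj_T_mem (δ : SL(2, ℤ)) : δ * ModularGroup.T ^ (N : ℤ) * δ⁻¹ ∈ Gamma0 N := by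
  have h1 : ModularGroup.T ^ (N : ℤ) ∈ CongruenceSubgroup.Gamma N := by
    rw [Gamma_mem, ModularGroup.coe_T_zpow]
    simp
  have h2 : δ * ModularGroup.T ^ (N : ℤ) * δ⁻¹ ∈ CongruenceSubgroup.Gamma N := (Gamma_normal N).conj_mem _ h1 δ
  rw [Gamma0_mem]
  rw [Gamma_mem] at h2
  exact h2.2.2.1

lemma f_invariant {γ : SL(2, ℤ)} (hγ : γ ∈ Gamma0 N) :
    (f : ℍ → ℂ) ∣[(2 : ℤ)] γ = f := by
  ext τ
  rw [slash_val, f_smul f hγ τ]
  have := den_ne γ τ
  field_simp

lemma slash_T (δ : SL(2, ℤ)) :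
    ((f : ℍ → ℂ) ∣[(2 : ℤ)] δ) ∣[(2 : ℤ)] (ModularGroup.T ^ (N : ℤ)) =
      (f : ℍ → ℂ) ∣[(2 : ℤ)] δ := by
  rw [← SlashAction.slash_mul]
  have h : δ * ModularGroup.T ^ (N : ℤ) = (δ * ModularGroup.T ^ (N : ℤ) * δ⁻¹) * δ := by group
  rw [h, SlashAction.slash_mul, f_invariant f (conj_T_mem δ)]

lemma denom_val (δ : SL(2, ℤ)) (z : ℂ) :
    denom (δ : GL (Fin 2) ℝ) z = ((δ 1 0 : ℤ) : ℂ) * z + (δ 1 1 : ℤ) := by
  simp [UpperHalfPlane.denom]

lemma slash_per (δ : SL(2, ℤ)) :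
    Function.Periodic (((f : ℍ → ℂ) ∣[(2 : ℤ)] δ) ∘ ofComplex) (N : ℝ) := by
  intro w
  by_cases! hw : 0 < im w
  · have h0 : 0 < im (w + ((N : ℝ) : ℂ)) := by simpa using hw
    simp only [Function.comp_apply, ofComplex_apply_of_im_pos h0, ofComplex_apply_of_im_pos hw]
    have h1 := congrFun (slash_T f δ) ⟨w, hw⟩
    have h2 : (ModularGroup.T ^ (N : ℤ) • (⟨w, hw⟩ : ℍ) : ℍ) = ⟨w + ((N : ℝ) : ℂ), h0⟩ := by
      ext
      rw [ModularGroup.coe_T_zpow_smul_eq]
      simp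
    have h3 : denom (ModularGroup.T ^ (N : ℤ) : SL(2, ℤ)) (⟨w, hw⟩ : ℍ) = 1 := by
      have := ModularGroup.coe_T_zpow (N : ℤ)
      rw [denom_val, this]
      simp
    rw [SL_slash_apply, h2, h3] at h1
    rw [← h1]
    simp
  · have h0 : im (w + ((N : ℝ) : ℂ)) ≤ 0 := by simpa using hw
    simp only [Function.comp_apply, ofComplex_apply_of_im_nonpos h0,
      ofComplex_apply_of_im_nonpos hw]

/-- the primitive at every cusp -/
theorem prim_cusp (δ : SL(2, ℤ)) : ∃ A : ℂ → ℂ, DifferentiableOn ℂ A (Metric.ball 0 1) ∧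
    ∀ τ : ℍ, prim f ((δ • τ : ℍ) : ℂ) = A (Function.Periodic.qParam N τ) := by
  have hN : (0 : ℝ) < N := by exact_mod_cast Nat.pos_of_ne_zero (NeZero.ne N)
  have hNc : (N : ℂ) ≠ 0 := by exact_mod_cast (NeZero.ne N)
  set g : ℍ → ℂ := (f : ℍ → ℂ) ∣[(2 : ℤ)] δ with hg
  set F : ℂ → ℂ := cuspFunction N g with hF
  have hFd : DifferentiableOn ℂ F (Metric.ball 0 1) :=
    differentiableOn_cuspFunction_ball hN (slash_per f δ) (mdiff_slash f δ)
      (zero_slash f δ).isBoundedAtImInfty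
  have hF0 : F 0 = 0 := by
    rw [hF, cuspFunction_apply_zero hN
      (analyticAt_cuspFunction_zero hN (slash_per f δ) (mdiff_slash f δ)
      (zero_slash f δ).isBoundedAtImInfty) (slash_per f δ)]
    exact (zero_slash f δ).valueAtInfty_eq_zero
  have hFq : ∀ τ : ℍ, F (Function.Periodic.qParam N τ) = g τ := fun τ =>
    eq_cuspFunction τ hN.ne' (slash_per f δ)
  -- the quotient by `q`
  have h0mem : Metric.ball (0 : ℂ) 1 ∈ 𝓝 (0 : ℂ) := Metric.ball_mem_nhds 0 one_pos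
  have hDd : DifferentiableOn ℂ (dslope F 0) (Metric.ball 0 1) :=
    (Complex.differentiableOn_dslope h0mem).2 hFd
  obtain ⟨B, hB⟩ := hDd.isExactOn_ball
  have hB' : ∀ q ∈ Metric.ball (0 : ℂ) 1, q * dslope F 0 q = F q := by
    intro q hq
    have := sub_smul_dslope F 0 q
    simpa [hF0] using this
  have hderivB : ∀ z ∈ HP, HasDerivAt (fun z => (N : ℂ) * B (Function.Periodic.qParam N z))
      (2 * Real.pi * Complex.I * g (ofComplex z)) z := by
    intro z hz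
    have hq : Function.Periodic.qParam N z ∈ Metric.ball (0 : ℂ) 1 := by
      rw [mem_ball_zero_iff]
      exact Function.Periodic.norm_qParam_lt_one hN hz
    have h1 : HasDerivAt (Function.Periodic.qParam (N : ℝ))
        (Function.Periodic.qParam N z * (2 * Real.pi * Complex.I / N)) z := by
      have := (((hasDerivAt_id z).const_mul (2 * Real.pi * Complex.I)).div_const
        ((N : ℝ) : ℂ)).cexp
      refine (this.congr_deriv ?_)
      simp [Function.Periodic.qParam]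
    have h2 := ((hB _ hq).comp z h1).const_mul (N : ℂ)
    refine h2.congr_deriv ?_
    have h3 := hFq ⟨z, hz⟩
    have h4 : ofComplex z = ⟨z, hz⟩ := ofComplex_apply_of_im_pos hz
    rw [h4, ← h3]
    have h5 := hB' _ hq
    have h6 : ((⟨z, hz⟩ : ℍ) : ℂ) = z := rfl
    rw [h6, ← h5]
    field_simp
  have hderivP : ∀ z ∈ HP, HasDerivAt (fun z => prim f (mob δ z))
      (2 * Real.pi * Complex.I * g (ofComplex z)) z := by
    intro z hz
    set τ : ℍ := ⟨z, hz⟩ with hτ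
    have hz' : z = (τ : ℂ) := rfl
    rw [hz', ofComplex_apply]
    have h1 := hasDerivAt_prim f (δ • τ)
    rw [← mob_coe] at h1
    have h2 := h1.comp (τ : ℂ) (hasDerivAt_mob δ τ)
    refine h2.congr_deriv ?_
    rw [hg, slash_val]
    have hd := den_ne δ τ
    field_simp
  obtain ⟨c, hc⟩ := const_of_deriv hderivP hderivB
  refine ⟨fun q => (N : ℂ) * B q + c, ?_, fun τ => ?_⟩
  · intro q hq
    exact (((hB q hq).differentiableAt.const_mul _).add_const _).differentiableWithinAt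
  · rw [← mob_coe]
    exact hc τ τ.im_pos

/-- the maximum principle -/
theorem max_principle (κ : ℂ)
    (h : ∀ γ ∈ Gamma0 N, ∀ τ : ℍ, (κ * prim f ((γ • τ : ℍ) : ℂ)).re = (κ * prim f (τ : ℂ)).re) :
    ∃ c : ℂ, ∀ τ : ℍ, Complex.exp (κ * prim f (τ : ℂ)) = c := by
  classical
  have hN : (0 : ℝ) < N := by exact_mod_cast Nat.pos_of_ne_zero (NeZero.ne N)
  have hN1 : (1 : ℝ) ≤ N := by exact_mod_cast Nat.pos_of_ne_zero (NeZero.ne N)
  choose A hA1 hA2 using prim_cusp f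
  set E : SL(2, ℤ) → ℂ → ℂ := fun δ q => Complex.exp (κ * A δ q) with hE
  have hEd : ∀ δ, DifferentiableOn ℂ (E δ) (Metric.ball 0 1) := fun δ =>
    ((hA1 δ).const_mul κ).cexp
  have hEq : ∀ δ (τ : ℍ), E δ (Function.Periodic.qParam N τ) =
      Complex.exp (κ * prim f ((δ • τ : ℍ) : ℂ)) := fun δ τ => by rw [hE, hA2]
  set r : ℝ := Real.exp (-(1 / N)) with hr
  have hr1 : r < 1 := by
    rw [hr, Real.exp_lt_one_iff]
    have : 0 < 1 / (N : ℝ) := by positivity
    linarith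
  have hsub : Metric.closedBall (0 : ℂ) r ⊆ Metric.ball 0 1 := Metric.closedBall_subset_ball hr1
  -- the invariance
  have hinv : ∀ γ ∈ Gamma0 N, ∀ δ : SL(2, ℤ), ∀ τ : ℍ,
      ‖E (γ * δ) (Function.Periodic.qParam N τ)‖ = ‖E δ (Function.Periodic.qParam N τ)‖ := by
    intro γ hγ δ τ
    rw [hEq, hEq, Complex.norm_exp, Complex.norm_exp, mul_smul, h γ hγ (δ • τ)]
  -- representatives
  have hfin : Finite (SL(2, ℤ) ⧸ Gamma0 N) := inferInstance
  set R : SL(2, ℤ) ⧸ Gamma0 N → SL(2, ℤ) := fun x => (Quotient.out x)⁻¹ with hR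
  have hrep : ∀ δ : SL(2, ℤ), ∃ x, ∃ γ ∈ Gamma0 N, δ = γ * R x := by
    intro δ
    refine ⟨QuotientGroup.mk δ⁻¹, ?_⟩
    obtain ⟨γ, hγ⟩ := QuotientGroup.mk_out_eq_mul (Gamma0 N) δ⁻¹
    refine ⟨(γ : SL(2, ℤ)), γ.2, ?_⟩
    rw [hR]
    simp only
    rw [hγ]
    group
  -- the maxima
  have hmax : ∀ δ : SL(2, ℤ), ∃ q ∈ Metric.closedBall (0 : ℂ) r,
      ∀ q' ∈ Metric.closedBall (0 : ℂ) r, ‖E δ q'‖ ≤ ‖E δ q‖ := by
    intro δ
    obtain ⟨q, hq, hq'⟩ := (isCompact_closedBall (0 : ℂ) r).exists_isMaxOn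
      ⟨0, Metric.mem_closedBall_self (Real.exp_pos _).le⟩
      ((hEd δ).continuousOn.mono hsub).norm
    exact ⟨q, hq, fun q' hq'' => hq' hq''⟩
  choose Q hQ1 hQ2 using hmax
  obtain ⟨x0, hx0⟩ := Finite.exists_max (fun x => ‖E (R x) (Q (R x))‖)
  set δ0 := R x0 with hδ0
  set M : ℝ := ‖E δ0 (Q δ0)‖ with hM
  have hbound : ∀ τ : ℍ, ∀ δ : SL(2, ℤ), ‖E δ (Function.Periodic.qParam N τ)‖ ≤ M := by
    intro τ δ
    obtain ⟨g, hg⟩ := ModularGroup.exists_smul_mem_fd τ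
    have him : (1 : ℝ) / 2 ≤ (g • τ).im := by
      have := ModularGroup.three_le_four_mul_im_sq_of_mem_fd hg
      by_contra hlt
      push Not at hlt
      have hpos := (g • τ).im_pos
      nlinarith
    obtain ⟨x, γ, hγ, hx⟩ := hrep (δ * g⁻¹)
    have h1 : ‖E δ (Function.Periodic.qParam N τ)‖ =
        ‖E (R x) (Function.Periodic.qParam N (g • τ : ℍ))‖ := by
      rw [hEq, hEq, Complex.norm_exp, Complex.norm_exp]
      have h2 : δ • τ = γ • (R x • (g • τ)) := by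
        rw [← mul_smul, ← mul_smul, ← hx]
        congr 1
        group
      rw [h2, h γ hγ]
    rw [h1]
    refine (hQ2 (R x) _ ?_).trans (hx0 x)
    rw [mem_closedBall_zero_iff, Function.Periodic.norm_qParam, hr]
    apply Real.exp_le_exp.2
    rw [neg_mul, neg_mul, neg_div, neg_le_neg_iff]
    apply div_le_div_of_nonneg_right _ hN.le
    rw [UpperHalfPlane.coe_im]
    have := Real.pi_gt_three
    nlinarith
  -- the maximum is attained in the ball
  have hmaxOn : IsMaxOn (norm ∘ E δ0) (Metric.ball 0 1) (Q δ0) := by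
    intro q hq
    simp only [Set.mem_ofPred_eq, Function.comp_apply]
    by_cases hq0 : q = 0
    · subst hq0
      exact hQ2 δ0 0 (Metric.mem_closedBall_self (Real.exp_pos _).le)
    · have hq1 : ‖q‖ < 1 := mem_ball_zero_iff.1 hq
      set z := Function.Periodic.invQParam N q with hz
      have hzim : 0 < z.im := by
        rw [hz, Function.Periodic.im_invQParam]
        have hlog : Real.log ‖q‖ < 0 := Real.log_neg (norm_pos_iff.2 hq0) hq1
        have hneg : -(N : ℝ) / (2 * Real.pi) < 0 := by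
          have : 0 < (N : ℝ) / (2 * Real.pi) := by positivity
          rw [neg_div]
          linarith
        exact mul_pos_of_neg_of_neg hneg hlog
      have hqz : Function.Periodic.qParam N z = q := Function.Periodic.qParam_right_inv hN.ne' hq0
      have := hbound ⟨z, hzim⟩ δ0
      have h6 : ((⟨z, hzim⟩ : ℍ) : ℂ) = z := rfl
      rw [h6, hqz] at this
      exact this
  have hconst := Complex.eqOn_of_isPreconnected_of_isMaxOn_norm
    (convex_ball (0 : ℂ) 1).isPreconnected Metric.isOpen_ball (hEd δ0) (hsub (hQ1 δ0)) hmaxOn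
  refine ⟨E δ0 (Q δ0), fun τ => ?_⟩
  have h1 := hEq δ0 (δ0⁻¹ • τ)
  rw [smul_inv_smul] at h1
  rw [← h1]
  exact hconst (mem_ball_zero_iff.2 (Function.Periodic.norm_qParam_lt_one hN (δ0⁻¹ • τ : ℍ).im_pos))

/-- if the real (or imaginary) parts of the periods vanish then the form is zero -/
theorem eq_zero_of_periods {κ : ℂ} (hκ : κ ≠ 0)
    (h : ∀ γ ∈ Gamma0 N, ∀ τ : ℍ, (κ * prim f ((γ • τ : ℍ) : ℂ)).re = (κ * prim f (τ : ℂ)).re) :
    f = 0 := by
  obtain ⟨c, hc⟩ := max_principle f κ h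
  ext τ
  have hd : HasDerivAt (fun z => Complex.exp (κ * prim f z))
      (Complex.exp (κ * prim f τ) * (κ * (2 * Real.pi * Complex.I * f τ))) (τ : ℂ) :=
    ((hasDerivAt_prim f τ).const_mul κ).cexp
  have hd2 : HasDerivAt (fun z => Complex.exp (κ * prim f z)) 0 (τ : ℂ) := by
    have : HasDerivAt (fun _ : ℂ => c) 0 (τ : ℂ) := hasDerivAt_const _ _
    refine this.congr_of_eventuallyEq ?_
    filter_upwards [HP_open.mem_nhds (show (τ : ℂ) ∈ HP from τ.im_pos)] with z hz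
    exact hc ⟨z, hz⟩
  have h3 := hd.unique hd2
  have h4 := Complex.exp_ne_zero (κ * prim f τ)
  have h5 : (2 * Real.pi * Complex.I : ℂ) ≠ 0 := Complex.two_pi_I_ne_zero
  simpa [h4, hκ, h5] using h3

end Pool.Agent.H503.TA
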