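import Pool.Agent.H503.TA.Grp

/-!
# Vertical lines and Mellin transforms
-/

set_option autoImplicit false
set_option linter.unusedSectionVars false

open Complex UpperHalfPlane MatrixGroups CongruenceSubgroup Filter Topology ModularForm
open MeasureTheory Set Asymptotics

namespace Pool.Agent.H503.TA

variable {N : ℕ} [NeZero N]
variable (f : CuspForm (Gamma0 N : Subgroup (GL (Fin 2) ℝ)) 2)

/-- the form on a vertical line -/
noncomputable def G {N : ℕ} (f : CuspForm (Gamma0 N : Subgroup (GL (Fin 2) ℝ)) 2) (x y : ℝ) : ℂ :=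
  f (ofComplex ((x : ℂ) + y * Complex.I))

lemma G_eq (x : ℝ) {y : ℝ} (hy : 0 < y) : G f x y = f (pt x hy) := by
  unfold G
  congr 1
  exact ofComplex_apply (pt x hy)

lemma pt_im (x : ℝ) {y : ℝ} (hy : 0 < y) : (pt x hy).im = y := by
  rw [← UpperHalfPlane.coe_im, pt_coe]
  simp

lemma hasDerivAt_line (x : ℝ) {y : ℝ} (hy : 0 < y) :
    HasDerivAt (fun y : ℝ => prim f ((x : ℂ) + y * Complex.I)) (-(2 * Real.pi) * G f x y) y := by
  have h1 := hasDerivAt_prim f (pt x hy)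
  rw [pt_coe] at h1
  have h2 : HasDerivAt (fun y : ℝ => (x : ℂ) + y * Complex.I) (1 * Complex.I) y :=
    ((Complex.ofRealCLM.hasDerivAt (x := y)).mul_const Complex.I).const_add (x : ℂ)
  have h3 := h1.comp y h2
  refine h3.congr_deriv ?_
  rw [← G_eq]
  linear_combination (2 * Real.pi * G f x y) * Complex.I_mul_I

lemma G_cont (x : ℝ) : ContinuousOn (G f x) (Ioi 0) := by
  intro y hy
  have h1 : ContinuousAt (fun z : ℂ => f (ofComplex z)) ((x : ℂ) + y * Complex.I) := by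
    have h2 := (UpperHalfPlane.mdifferentiable_iff.1 (ModularFormClass.holo f))
    have h3 : ((x : ℂ) + y * Complex.I) ∈ {z : ℂ | 0 < z.im} := by
      simpa using hy
    exact (h2.differentiableAt ((isOpen_lt continuous_const Complex.continuous_im).mem_nhds
      h3)).continuousAt
  have h4 : ContinuousAt (fun y : ℝ => (x : ℂ) + y * Complex.I) y := by fun_prop
  exact (ContinuousAt.comp (f := fun y : ℝ => (x : ℂ) + y * Complex.I) h1 h4).continuousWithinAt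

lemma G_top (x : ℝ) : (G f x) =O[atTop] fun t => Real.exp (-(2 * Real.pi) * t) := by
  obtain ⟨C, hC0, hC⟩ := f_le f
  refine IsBigO.of_bound C ?_
  filter_upwards [eventually_ge_atTop (1 : ℝ)] with y hy
  have hy0 : 0 < y := lt_of_lt_of_le one_pos hy
  rw [G_eq f x hy0, Real.norm_of_nonneg (Real.exp_pos _).le]
  have := hC (pt x hy0) (by rw [pt_im]; exact hy)
  rw [pt_im] at this
  rw [neg_mul]
  exact this

/-- the point below -/
lemma smul_pt {γ : SL(2, ℤ)} {M : ℕ} (hM : 0 < M) (hγ : γ 1 0 = (M : ℤ)) {y : ℝ} (hy : 0 < y)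
    (hy' : 0 < 1 / ((M : ℝ) ^ 2 * y)) :
    γ • pt (-(γ 1 1 : ℤ) / M) hy' = pt ((γ 0 0 : ℤ) / M) hy := by
  have hMr : (M : ℝ) ≠ 0 := by exact_mod_cast hM.ne'
  have hMc : (M : ℂ) ≠ 0 := by exact_mod_cast hM.ne'
  have hyc : (y : ℂ) ≠ 0 := by exact_mod_cast hy.ne'
  ext
  rw [← mob_coe, mob, pt_coe, pt_coe, hγ]
  have hdet : ((γ 0 0 : ℤ) : ℂ) * (γ 1 1 : ℤ) - (γ 0 1 : ℤ) * (M : ℂ) = 1 := by
    have h := congrArg (fun n : ℤ => (n : ℂ)) (det_eq γ)
    rw [hγ] at h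
    push_cast at h
    exact h
  push_cast
  have h1 : (M : ℂ) * (-((γ 1 1 : ℤ) : ℂ) / M + 1 / ((M : ℂ) ^ 2 * y) * Complex.I) + (γ 1 1 : ℤ) =
      Complex.I / (M * y) := by
    field_simp
    ring
  rw [h1, div_eq_iff (div_ne_zero Complex.I_ne_zero (mul_ne_zero hMc hyc))]
  field_simp
  linear_combination (-(y : ℂ) * M) * hdet - (M * y) * Complex.I_sq

/-- the value of the primitive near the cusp `a / M` -/
lemma prim_near {γ : SL(2, ℤ)} {M : ℕ} (hM : 0 < M) (hγ : γ 1 0 = (M : ℤ)) {c : ℂ}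
    (hc : ∀ τ : ℍ, prim f ((γ • τ : ℍ) : ℂ) = prim f (τ : ℂ) + c) :
    Tendsto (fun y : ℝ => prim f ((((γ 0 0 : ℤ) / M : ℝ) : ℂ) + y * Complex.I)) (𝓝[>] 0) (𝓝 c) := by
  obtain ⟨C, hC0, hC⟩ := prim_le f
  have hMr : (0 : ℝ) < M := by exact_mod_cast hM
  have h0 : Tendsto (fun y : ℝ => C * Real.exp (-(2 * Real.pi * (1 / ((M : ℝ) ^ 2 * y)))))
      (𝓝[>] 0) (𝓝 0) := by
    have h1 : Tendsto (fun y : ℝ => 1 / ((M : ℝ) ^ 2 * y)) (𝓝[>] 0) atTop := by
      have h2 : Tendsto (fun y : ℝ => y⁻¹ * (1 / (M : ℝ) ^ 2)) (𝓝[>] 0) atTop :=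
        tendsto_inv_nhdsGT_zero.atTop_mul_const (by positivity)
      refine h2.congr fun y => ?_
      rw [one_div, one_div, mul_inv, mul_comm]
    have h3 : Tendsto (fun y : ℝ => -(2 * Real.pi * (1 / ((M : ℝ) ^ 2 * y)))) (𝓝[>] 0) atBot :=
      tendsto_neg_atTop_atBot.comp (h1.const_mul_atTop (by positivity))
    have h4 := (Real.tendsto_exp_atBot.comp h3).const_mul C
    simpa using h4
  rw [tendsto_iff_norm_sub_tendsto_zero]
  refine squeeze_zero' (Eventually.of_forall fun y => norm_nonneg _) ?_ h0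
  have hsmall : ∀ᶠ y : ℝ in 𝓝[>] 0, y ≤ 1 / (M : ℝ) ^ 2 := by
    have : Iic (1 / (M : ℝ) ^ 2) ∈ 𝓝 (0 : ℝ) := Iic_mem_nhds (by positivity)
    exact mem_nhdsWithin_of_mem_nhds this
  filter_upwards [hsmall, self_mem_nhdsWithin] with y hy1 hy
  have hy0 : 0 < y := hy
  have hy' : 0 < 1 / ((M : ℝ) ^ 2 * y) := by positivity
  have h5 := hc (pt (-(γ 1 1 : ℤ) / M) hy')
  rw [smul_pt hM hγ hy0 hy', pt_coe] at h5
  rw [h5, add_sub_cancel_right]
  have h6 : ((pt (-(γ 1 1 : ℤ) / M) hy' : ℍ) : ℂ).im = 1 / ((M : ℝ) ^ 2 * y) := pt_im _ hy'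
  refine (hC _ ?_).trans ?_
  · rw [h6, le_div_iff₀ (by positivity), one_mul]
    rw [le_div_iff₀ (by positivity)] at hy1
    linarith
  · rw [h6]

/-- decay of the form near the cusp `a / M` -/
lemma G_bot {γ : SL(2, ℤ)} {M : ℕ} (hM : 0 < M) (hγ : γ 1 0 = (M : ℤ)) (hN : N ∣ M) (b : ℝ) :
    G f ((γ 0 0 : ℤ) / M) =O[𝓝[>] 0] fun y : ℝ => y ^ b := by
  obtain ⟨C, hC0, hC⟩ := f_le f
  have hMr : (0 : ℝ) < M := by exact_mod_cast hM
  have hγN : γ ∈ Gamma0 N := by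
    rw [Gamma0_mem, hγ]
    simpa [ZMod.natCast_eq_zero_iff] using hN
  -- the comparison function
  have hcmp : (fun y : ℝ => Real.exp (-(2 * Real.pi / (M : ℝ) ^ 2) * y⁻¹) * y ^ (-2 : ℝ))
      =O[𝓝[>] 0] fun y : ℝ => y ^ b := by
    have h1 : (fun t : ℝ => Real.exp (-(2 * Real.pi / (M : ℝ) ^ 2) * t)) =O[atTop]
        fun t : ℝ => t ^ (-(b + 2)) :=
      (isLittleO_exp_neg_mul_rpow_atTop (by positivity) _).isBigO
    have h2 := h1.comp_tendsto (tendsto_inv_nhdsGT_zero (𝕜 := ℝ))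
    have h3 : (fun y : ℝ => Real.exp (-(2 * Real.pi / (M : ℝ) ^ 2) * y⁻¹) * y ^ (-2 : ℝ))
      =O[𝓝[>] 0] fun y : ℝ => (y⁻¹) ^ (-(b + 2)) * y ^ (-2 : ℝ) :=
      IsBigO.mul h2 (isBigO_refl _ _)
    refine h3.congr' EventuallyEq.rfl ?_
    filter_upwards [self_mem_nhdsWithin] with y hy
    have hy0 : (0 : ℝ) < y := hy
    rw [Real.inv_rpow hy0.le, ← Real.rpow_neg hy0.le, ← Real.rpow_add hy0]
    congr 1
    ring
  refine IsBigO.trans ?_ hcmp
  refine IsBigO.of_bound (C / (M : ℝ) ^ 2) ?_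
  have hsmall : ∀ᶠ y : ℝ in 𝓝[>] 0, y ≤ 1 / (M : ℝ) ^ 2 := by
    have : Iic (1 / (M : ℝ) ^ 2) ∈ 𝓝 (0 : ℝ) := Iic_mem_nhds (by positivity)
    exact mem_nhdsWithin_of_mem_nhds this
  filter_upwards [hsmall, self_mem_nhdsWithin] with y hy1 hy
  have hy0 : 0 < y := hy
  have hy' : 0 < 1 / ((M : ℝ) ^ 2 * y) := by positivity
  have hMc : (M : ℂ) ≠ 0 := by exact_mod_cast hM.ne'
  have hyc : (y : ℂ) ≠ 0 := by exact_mod_cast hy0.ne'
  rw [G_eq f _ hy0, ← smul_pt hM hγ hy0 hy', f_smul f hγN, pt_coe, hγ]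
  have h1 : (((M : ℤ) : ℤ) : ℂ) * (((-(γ 1 1 : ℤ) / M : ℝ) : ℂ) +
      ((1 / ((M : ℝ) ^ 2 * y) : ℝ) : ℂ) * Complex.I) + (γ 1 1 : ℤ) = Complex.I / (M * y) := by
    push_cast
    field_simp
    ring
  rw [h1, norm_mul, norm_pow, norm_div, Complex.norm_I, norm_mul, Complex.norm_natCast,
    Complex.norm_real, Real.norm_of_nonneg hy0.le, Real.norm_of_nonneg (by positivity)]
  have h2 := hC (pt (-(γ 1 1 : ℤ) / M) hy') (by
    rw [pt_im, le_div_iff₀ (by positivity), one_mul]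
    rw [le_div_iff₀ (by positivity)] at hy1
    linarith)
  rw [pt_im] at h2
  have h3 : y ^ (-2 : ℝ) = 1 / y ^ 2 := by
    rw [Real.rpow_neg hy0.le, one_div]
    norm_cast
  have h4 : Real.exp (-(2 * Real.pi * (1 / ((M : ℝ) ^ 2 * y)))) =
      Real.exp (-(2 * Real.pi / (M : ℝ) ^ 2) * y⁻¹) := by
    congr 1
    field_simp
  rw [h3, ← h4]
  calc (1 / ((M : ℝ) * y)) ^ 2 * ‖f (pt (-(γ 1 1 : ℤ) / M) hy')‖
      ≤ (1 / ((M : ℝ) * y)) ^ 2 * (C * Real.exp (-(2 * Real.pi * (1 / ((M : ℝ) ^ 2 * y))))) := by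
        gcongr
    _ = C / (M : ℝ) ^ 2 * (Real.exp (-(2 * Real.pi * (1 / ((M : ℝ) ^ 2 * y)))) * (1 / y ^ 2)) := by
        field_simp

lemma G_loc (x : ℝ) : LocallyIntegrableOn (G f x) (Ioi 0) :=
  (G_cont f x).locallyIntegrableOn measurableSet_Ioi

theorem mellin_conv {γ : SL(2, ℤ)} {M : ℕ} (hM : 0 < M) (hγ : γ 1 0 = (M : ℤ)) (hN : N ∣ M)
    (s : ℂ) : MellinConvergent (G f ((γ 0 0 : ℤ) / M)) s :=
  mellinConvergent_of_isBigO_rpow_exp (a := 2 * Real.pi) (b := s.re - 1) (by positivity)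
    (G_loc f _) (G_top f _) (by simpa using G_bot f hM hγ hN (-(s.re - 1))) (by linarith)

theorem mellin_entire {γ : SL(2, ℤ)} {M : ℕ} (hM : 0 < M) (hγ : γ 1 0 = (M : ℤ)) (hN : N ∣ M) :
    Differentiable ℂ (mellin (G f ((γ 0 0 : ℤ) / M))) := fun s =>
  mellin_differentiableAt_of_isBigO_rpow_exp (a := 2 * Real.pi) (b := s.re - 1) (by positivity)
    (G_loc f _) (G_top f _) (by simpa using G_bot f hM hγ hN (-(s.re - 1))) (by linarith)

/-- the value of the Mellin transform at one -/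
theorem mellin_one {γ : SL(2, ℤ)} {M : ℕ} (hM : 0 < M) (hγ : γ 1 0 = (M : ℤ)) (hN : N ∣ M) {c : ℂ}
    (hc : ∀ τ : ℍ, prim f ((γ • τ : ℍ) : ℂ) = prim f (τ : ℂ) + c) :
    2 * Real.pi * mellin (G f ((γ 0 0 : ℤ) / M)) 1 = c := by
  set x : ℝ := (γ 0 0 : ℤ) / M with hx
  have hint : IntegrableOn (G f x) (Ioi 0) := by
    have := mellin_conv f hM hγ hN 1
    rw [MellinConvergent] at this
    simpa using this
  have hval : mellin (G f x) 1 = ∫ y in Ioi (0 : ℝ), G f x y := by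
    rw [mellin]
    simp
  set P : ℝ → ℂ := Function.update (fun y : ℝ => prim f ((x : ℂ) + y * Complex.I)) 0 c with hP
  have hPy : ∀ y : ℝ, y ≠ 0 → P y = prim f ((x : ℂ) + y * Complex.I) := fun y hy => by
    rw [hP, Function.update_of_ne hy]
  have hcont : ContinuousWithinAt P (Ici 0) 0 := by
    rw [hP, continuousWithinAt_update_same]
    have h1 : Ici (0 : ℝ) \ {0} = Ioi 0 := Ici_sdiff_left
    rw [h1]
    exact prim_near f hM hγ hc
  have hder : ∀ y ∈ Ioi (0 : ℝ), HasDerivAt P (-(2 * Real.pi) * G f x y) y := by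
    intro y hy
    refine (hasDerivAt_line f x hy).congr_of_eventuallyEq ?_
    filter_upwards [isOpen_Ioi.mem_nhds hy] with t ht
    exact hPy t (ne_of_gt ht)
  have htop : Tendsto P atTop (𝓝 0) := by
    obtain ⟨C, hC0, hC⟩ := prim_le f
    rw [tendsto_zero_iff_norm_tendsto_zero]
    have h0 : Tendsto (fun y : ℝ => C * Real.exp (-(2 * Real.pi * y))) atTop (𝓝 0) := by
      have h3 : Tendsto (fun y : ℝ => -(2 * Real.pi * y)) atTop atBot :=
        tendsto_neg_atTop_atBot.comp (tendsto_id.const_mul_atTop (by positivity))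
      have h4 := (Real.tendsto_exp_atBot.comp h3).const_mul C
      simpa using h4
    refine squeeze_zero' (Eventually.of_forall fun y => norm_nonneg _) ?_ h0
    filter_upwards [eventually_ge_atTop (1 : ℝ)] with y hy
    rw [hPy y (by linarith)]
    refine (hC _ ?_).trans ?_
    · simpa using hy
    · simp
  have h1 := integral_Ioi_of_hasDerivAt_of_tendsto hcont hder (hint.const_mul _) htop
  rw [integral_const_mul] at h1
  have h2 : P 0 = c := by rw [hP, Function.update_self]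
  rw [h2] at h1
  rw [hval]
  linear_combination -h1

end Pool.Agent.H503.TA
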