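import Mathlib

/-!
# Primitives of cusp forms of weight two
-/

set_option autoImplicit false
set_option linter.unusedSectionVars false

open Complex UpperHalfPlane MatrixGroups CongruenceSubgroup Filter Topology

namespace Pool.Agent.H503.TA

variable {N : ℕ} [NeZero N]

/-- The `n`-th Fourier coefficient of `f`. -/
noncomputable def coef {N : ℕ} (f : CuspForm (Gamma0 N : Subgroup (GL (Fin 2) ℝ)) 2) (n : ℕ) : ℂ :=
  (qExpansion 1 f).coeff n

/-- The primitive `∑ c(n)/n e^(2πinz) = 2πi ∫_{i∞}^z f(w) dw` of `2πi f(z) dz`. -/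
noncomputable def prim {N : ℕ} (f : CuspForm (Gamma0 N : Subgroup (GL (Fin 2) ℝ)) 2) (z : ℂ) : ℂ :=
  ∑' n : ℕ, coef f n / n * Complex.exp (2 * Real.pi * Complex.I * n * z)

section
variable (f : CuspForm (Gamma0 N : Subgroup (GL (Fin 2) ℝ)) 2)

lemma one_mem : (1 : ℝ) ∈ (Gamma0 N : Subgroup (GL (Fin 2) ℝ)).strictPeriods := by
  rw [strictPeriods_Gamma0]
  exact AddSubgroup.mem_zmultiples 1

lemma qpow (z : ℂ) (n : ℕ) : (Function.Periodic.qParam 1 z) ^ n =
    Complex.exp (2 * Real.pi * Complex.I * n * z) := by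
  rw [Function.Periodic.qParam, ← Complex.exp_nat_mul]
  congr 1
  push_cast
  ring

theorem hasSum_f (τ : ℍ) :
    HasSum (fun n : ℕ => coef f n * Complex.exp (2 * Real.pi * Complex.I * n * (τ : ℂ))) (f τ) := by
  have h := ModularForm.hasSum_qExpansion f one_pos (one_mem (N := N)) τ
  simp only [qpow] at h
  exact h

theorem coef_zero : coef f 0 = 0 :=
  CuspFormClass.qExpansion_coeff_zero f one_pos (one_mem (N := N))

lemma norm_e (n : ℕ) (z : ℂ) : ‖Complex.exp (2 * Real.pi * Complex.I * n * z)‖ =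
    Real.exp (-(2 * Real.pi * n * z.im)) := by
  rw [Complex.norm_exp]
  congr 1
  simp

/-- a point of the upper half plane -/
noncomputable def pt (x : ℝ) {y : ℝ} (hy : 0 < y) : ℍ := ⟨x + y * Complex.I, by simpa using hy⟩

@[simp] lemma pt_coe (x : ℝ) {y : ℝ} (hy : 0 < y) : ((pt x hy : ℍ) : ℂ) = x + y * Complex.I := rfl

theorem summable_coef {δ : ℝ} (hδ : 0 < δ) :
    Summable fun n : ℕ => ‖coef f n‖ * Real.exp (-(2 * Real.pi * n * δ)) := by
  have h := (hasSum_f f (pt 0 hδ)).summable.norm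
  refine h.congr fun n => ?_
  rw [norm_mul, norm_e]
  simp

/-- the terms -/
lemma term_le {δ : ℝ} (n : ℕ) {w : ℂ} (hw : δ < w.im) :
    ‖coef f n / n * Complex.exp (2 * Real.pi * Complex.I * n * w)‖ ≤
      ‖coef f n‖ * Real.exp (-(2 * Real.pi * n * δ)) := by
  rw [norm_mul, norm_e, norm_div, Complex.norm_natCast]
  rcases Nat.eq_zero_or_pos n with rfl | hn
  · simp
  · have h1 : (1 : ℝ) ≤ n := by exact_mod_cast hn
    gcongr
    exact div_le_self (norm_nonneg _) h1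

theorem hasDerivAt_prim (τ : ℍ) : HasDerivAt (prim f) (2 * Real.pi * Complex.I * f τ) (τ : ℂ) := by
  set δ : ℝ := τ.im / 2 with hδ
  have hδ0 : 0 < δ := half_pos τ.im_pos
  have hδ1 : δ < (τ : ℂ).im := by
    rw [UpperHalfPlane.coe_im, hδ]
    linarith [τ.im_pos]
  set U : Set ℂ := {z | δ < z.im} with hU
  have hUo : IsOpen U := isOpen_lt continuous_const Complex.continuous_im
  set F : ℕ → ℂ → ℂ := fun n z => coef f n / n * Complex.exp (2 * Real.pi * Complex.I * n * z)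
    with hF
  have hFd : ∀ n z, HasDerivAt (F n)
      (2 * Real.pi * Complex.I * (coef f n * Complex.exp (2 * Real.pi * Complex.I * n * z))) z := by
    intro n z
    have h1 : HasDerivAt (fun z : ℂ => 2 * Real.pi * Complex.I * n * z)
        (2 * Real.pi * Complex.I * n * 1) z := (hasDerivAt_id z).const_mul _
    have h2 := (h1.cexp).const_mul (coef f n / n)
    refine h2.congr_deriv ?_
    rcases Nat.eq_zero_or_pos n with rfl | hn
    · rw [coef_zero]
      simp
    · have : (n : ℂ) ≠ 0 := by exact_mod_cast hn.ne'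
      field_simp
  have hs := summable_coef f hδ0
  have hd : ∀ i, DifferentiableOn ℂ (F i) U := fun i z _ =>
    (hFd i z).differentiableAt.differentiableWithinAt
  have hb : ∀ (i : ℕ) (w : ℂ), w ∈ U → ‖F i w‖ ≤ ‖coef f i‖ * Real.exp (-(2 * Real.pi * i * δ)) :=
    fun i w hw => term_le f i hw
  have h1 := hasSum_deriv_of_summable_norm hs hd hUo hb (z := (τ : ℂ)) hδ1
  have h2 := differentiableOn_tsum_of_summable_norm hs hd hUo hb
  have h3 : DifferentiableAt ℂ (prim f) (τ : ℂ) := (h2 (τ : ℂ) hδ1).differentiableAt (hUo.mem_nhds hδ1)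
  have h4 : deriv (prim f) (τ : ℂ) = 2 * Real.pi * Complex.I * f τ := by
    refine h1.unique ?_
    have h5 := (hasSum_f f τ).mul_left (2 * Real.pi * Complex.I)
    have h6 : (fun i => deriv (F i) (τ : ℂ)) = fun n : ℕ => 2 * Real.pi * Complex.I *
        (coef f n * Complex.exp (2 * Real.pi * Complex.I * n * (τ : ℂ))) :=
      funext fun n => (hFd n (τ : ℂ)).deriv
    rw [h6]
    exact h5
  rw [← h4]
  exact h3.hasDerivAt

/-- decay of the primitive -/
theorem prim_le : ∃ C : ℝ, 0 ≤ C ∧ ∀ z : ℂ, 1 ≤ z.im →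
    ‖prim f z‖ ≤ C * Real.exp (-(2 * Real.pi * z.im)) := by
  have hs := summable_coef f (δ := 1 / 2) (by norm_num)
  set S : ℝ := ∑' n : ℕ, ‖coef f n‖ * Real.exp (-(2 * Real.pi * n * (1 / 2))) with hS
  have hS0 : 0 ≤ S := tsum_nonneg fun n => by positivity
  refine ⟨S * Real.exp (2 * Real.pi), by positivity, fun z hz => ?_⟩
  have hb : ∀ n : ℕ, ‖coef f n / n * Complex.exp (2 * Real.pi * Complex.I * n * z)‖ ≤
      ‖coef f n‖ * Real.exp (-(2 * Real.pi * n * (1 / 2))) *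
        (Real.exp (2 * Real.pi) * Real.exp (-(2 * Real.pi * z.im))) := by
    intro n
    rcases Nat.eq_zero_or_pos n with rfl | hn
    · simp only [CharP.cast_eq_zero, div_zero, zero_mul, norm_zero]
      positivity
    · have h1 : (1 : ℝ) ≤ n := by exact_mod_cast hn
      rw [norm_mul, norm_e, norm_div, Complex.norm_natCast, mul_assoc ‖coef f n‖, ← Real.exp_add,
        ← Real.exp_add]
      have h2 : -(2 * Real.pi * n * z.im) ≤ -(2 * Real.pi * n * (1 / 2)) +
          (2 * Real.pi + -(2 * Real.pi * z.im)) := by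
        have hpi := Real.pi_pos
        nlinarith [mul_nonneg (mul_nonneg hpi.le (sub_nonneg.2 h1)) (sub_nonneg.2 hz),
          mul_nonneg hpi.le (sub_nonneg.2 h1)]
      calc ‖coef f n‖ / n * Real.exp (-(2 * Real.pi * n * z.im))
          ≤ ‖coef f n‖ * Real.exp (-(2 * Real.pi * n * z.im)) := by
            gcongr
            exact div_le_self (norm_nonneg _) h1
        _ ≤ _ := by gcongr
  have hsum : Summable fun n : ℕ => ‖coef f n / n * Complex.exp (2 * Real.pi * Complex.I * n * z)‖ :=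
    Summable.of_nonneg_of_le (fun n => norm_nonneg _) hb (hs.mul_right _)
  calc ‖prim f z‖ ≤ ∑' n : ℕ, ‖coef f n / n * Complex.exp (2 * Real.pi * Complex.I * n * z)‖ :=
        norm_tsum_le_tsum_norm hsum
    _ ≤ ∑' n : ℕ, ‖coef f n‖ * Real.exp (-(2 * Real.pi * n * (1 / 2))) *
        (Real.exp (2 * Real.pi) * Real.exp (-(2 * Real.pi * z.im))) :=
        hsum.tsum_le_tsum hb (hs.mul_right _)
    _ = S * Real.exp (2 * Real.pi) * Real.exp (-(2 * Real.pi * z.im)) := by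
        rw [tsum_mul_right]
        ring

/-- decay of the form -/
theorem f_le : ∃ C : ℝ, 0 ≤ C ∧ ∀ τ : ℍ, 1 ≤ τ.im →
    ‖f τ‖ ≤ C * Real.exp (-(2 * Real.pi * τ.im)) := by
  have hs := summable_coef f (δ := 1 / 2) (by norm_num)
  set S : ℝ := ∑' n : ℕ, ‖coef f n‖ * Real.exp (-(2 * Real.pi * n * (1 / 2))) with hS
  have hS0 : 0 ≤ S := tsum_nonneg fun n => by positivity
  refine ⟨S * Real.exp (2 * Real.pi), by positivity, fun z hz => ?_⟩
  have hb : ∀ n : ℕ, ‖coef f n * Complex.exp (2 * Real.pi * Complex.I * n * z)‖ ≤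
      ‖coef f n‖ * Real.exp (-(2 * Real.pi * n * (1 / 2))) *
        (Real.exp (2 * Real.pi) * Real.exp (-(2 * Real.pi * z.im))) := by
    intro n
    rcases Nat.eq_zero_or_pos n with rfl | hn
    · rw [coef_zero]
      simp only [zero_mul, norm_zero]
      positivity
    · have h1 : (1 : ℝ) ≤ n := by exact_mod_cast hn
      rw [norm_mul, norm_e, mul_assoc ‖coef f n‖, ← Real.exp_add, ← Real.exp_add,
        UpperHalfPlane.coe_im]
      have h2 : -(2 * Real.pi * n * z.im) ≤ -(2 * Real.pi * n * (1 / 2)) +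
          (2 * Real.pi + -(2 * Real.pi * z.im)) := by
        have hpi := Real.pi_pos
        nlinarith [mul_nonneg (mul_nonneg hpi.le (sub_nonneg.2 h1)) (sub_nonneg.2 hz),
          mul_nonneg hpi.le (sub_nonneg.2 h1)]
      gcongr
  have hsum : Summable fun n : ℕ => ‖coef f n * Complex.exp (2 * Real.pi * Complex.I * n * z)‖ :=
    Summable.of_nonneg_of_le (fun n => norm_nonneg _) hb (hs.mul_right _)
  calc ‖f z‖ = ‖∑' n : ℕ, coef f n * Complex.exp (2 * Real.pi * Complex.I * n * z)‖ := by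
        rw [(hasSum_f f z).tsum_eq]
    _ ≤ ∑' n : ℕ, ‖coef f n * Complex.exp (2 * Real.pi * Complex.I * n * z)‖ :=
        norm_tsum_le_tsum_norm hsum
    _ ≤ ∑' n : ℕ, ‖coef f n‖ * Real.exp (-(2 * Real.pi * n * (1 / 2))) *
        (Real.exp (2 * Real.pi) * Real.exp (-(2 * Real.pi * z.im))) :=
        hsum.tsum_le_tsum hb (hs.mul_right _)
    _ = S * Real.exp (2 * Real.pi) * Real.exp (-(2 * Real.pi * z.im)) := by
        rw [tsum_mul_right]
        ring

/-- the upper half plane as a subset of `ℂ` -/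
def HP : Set ℂ := {z | 0 < z.im}

lemma HP_open : IsOpen HP := isOpen_lt continuous_const Complex.continuous_im

lemma HP_conv : Convex ℝ HP := convex_halfSpace_im_gt 0

lemma HP_pre : IsPreconnected HP := HP_conv.isPreconnected

/-- two functions with the same derivative -/
theorem const_of_deriv {g h g' : ℂ → ℂ} (hg : ∀ z ∈ HP, HasDerivAt g (g' z) z)
    (hh : ∀ z ∈ HP, HasDerivAt h (g' z) z) : ∃ c : ℂ, ∀ z ∈ HP, g z = h z + c := by
  obtain ⟨c, hc⟩ := HP_open.exists_is_const_of_deriv_eq_zero HP_pre (f := fun z => g z - h z)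
    (fun z hz => ((hg z hz).sub (hh z hz)).differentiableAt.differentiableWithinAt)
    (fun z hz => by
      have := ((hg z hz).fun_sub (hh z hz)).deriv
      simpa using this)
  exact ⟨c, fun z hz => by rw [← hc z hz]; ring⟩

/-- the fractional linear map of `γ` -/
noncomputable def mob (γ : SL(2, ℤ)) (z : ℂ) : ℂ :=
  ((γ 0 0 : ℤ) * z + (γ 0 1 : ℤ)) / ((γ 1 0 : ℤ) * z + (γ 1 1 : ℤ))

lemma mob_coe (γ : SL(2, ℤ)) (τ : ℍ) : mob γ τ = ((γ • τ : ℍ) : ℂ) := by
  rw [UpperHalfPlane.coe_specialLinearGroup_apply]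
  simp [mob]

lemma den_ne (γ : SL(2, ℤ)) (τ : ℍ) : ((γ 1 0 : ℤ) : ℂ) * τ + (γ 1 1 : ℤ) ≠ 0 := by
  have := UpperHalfPlane.denom_ne_zero (γ : GL (Fin 2) ℝ) τ
  simpa [UpperHalfPlane.denom] using this

lemma det_eq (γ : SL(2, ℤ)) : γ 0 0 * γ 1 1 - γ 0 1 * γ 1 0 = 1 := by
  have := γ.det_coe
  rwa [Matrix.det_fin_two] at this

lemma hasDerivAt_mob (γ : SL(2, ℤ)) (τ : ℍ) :
    HasDerivAt (mob γ) (1 / (((γ 1 0 : ℤ) : ℂ) * τ + (γ 1 1 : ℤ)) ^ 2) (τ : ℂ) := by
  have hd := den_ne γ τ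
  have h1 : HasDerivAt (fun z : ℂ => ((γ 0 0 : ℤ) : ℂ) * z + (γ 0 1 : ℤ)) (((γ 0 0 : ℤ) : ℂ) * 1) τ :=
    ((hasDerivAt_id _).const_mul _).add_const _
  have h2 : HasDerivAt (fun z : ℂ => ((γ 1 0 : ℤ) : ℂ) * z + (γ 1 1 : ℤ)) (((γ 1 0 : ℤ) : ℂ) * 1) τ :=
    ((hasDerivAt_id _).const_mul _).add_const _
  have h3 := h1.div h2 hd
  refine h3.congr_deriv ?_
  congr 1
  have hdet : ((γ 0 0 : ℤ) : ℂ) * (γ 1 1 : ℤ) - (γ 0 1 : ℤ) * (γ 1 0 : ℤ) = 1 := by
    exact_mod_cast congrArg (fun n : ℤ => (n : ℂ)) (det_eq γ)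
  linear_combination hdet

lemma f_smul {γ : SL(2, ℤ)} (hγ : γ ∈ Gamma0 N) (τ : ℍ) :
    f (γ • τ) = (((γ 1 0 : ℤ) : ℂ) * τ + (γ 1 1 : ℤ)) ^ 2 * f τ := by
  have h := SlashInvariantForm.slash_action_eqn_SL'' f hγ τ
  rw [h]
  simp [UpperHalfPlane.denom]

/-- the primitive along `γ` -/
theorem prim_smul {γ : SL(2, ℤ)} (hγ : γ ∈ Gamma0 N) :
    ∃ c : ℂ, ∀ τ : ℍ, prim f ((γ • τ : ℍ) : ℂ) = prim f (τ : ℂ) + c := by
  have hg : ∀ z ∈ HP, HasDerivAt (fun z => prim f (mob γ z))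
      (2 * Real.pi * Complex.I * f (ofComplex z)) z := by
    intro z hz
    set τ : ℍ := ⟨z, hz⟩ with hτ
    have hz' : z = (τ : ℂ) := rfl
    rw [hz', ofComplex_apply]
    have h1 := hasDerivAt_prim f (γ • τ)
    rw [← mob_coe] at h1
    have h2 := h1.comp (τ : ℂ) (hasDerivAt_mob γ τ)
    refine h2.congr_deriv ?_
    rw [f_smul f hγ τ]
    have hd := den_ne γ τ
    field_simp
  have hh : ∀ z ∈ HP, HasDerivAt (prim f) (2 * Real.pi * Complex.I * f (ofComplex z)) z := by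
    intro z hz
    set τ : ℍ := ⟨z, hz⟩ with hτ
    have hz' : z = (τ : ℂ) := rfl
    rw [hz', ofComplex_apply]
    exact hasDerivAt_prim f τ
  obtain ⟨c, hc⟩ := const_of_deriv hg hh
  exact ⟨c, fun τ => by rw [← mob_coe]; exact hc τ τ.im_pos⟩

end

end Pool.Agent.H503.TA
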