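import Pool.Agent.H503.TA.Gal

/-!
# The order of vanishing in the tower of the fields `ℚ(ζ_{ℓ^n})`
-/

set_option autoImplicit false
set_option linter.unusedSectionVars false

open Complex UpperHalfPlane MatrixGroups CongruenceSubgroup Filter Topology ModularForm
open MeasureTheory Set Asymptotics

namespace Pool.Agent.H503.TA

/-- uniqueness of the continuation -/
lemma unique_cont {L1 L2 D : ℂ → ℂ} (h1 : Differentiable ℂ L1) (h2 : Differentiable ℂ L2)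
    (e1 : ∀ s : ℂ, 2 < s.re → L1 s = D s) (e2 : ∀ s : ℂ, 2 < s.re → L2 s = D s) : L1 = L2 := by
  have a1 : AnalyticOnNhd ℂ L1 Set.univ := fun z _ => h1.analyticAt z
  have a2 : AnalyticOnNhd ℂ L2 Set.univ := fun z _ => h2.analyticAt z
  have hopen : IsOpen {s : ℂ | 2 < s.re} := isOpen_lt continuous_const Complex.continuous_re
  have hmem : (3 : ℂ) ∈ {s : ℂ | 2 < s.re} := by
    simp
    norm_num
  have hev : L1 =ᶠ[𝓝 (3 : ℂ)] L2 := by
    filter_upwards [hopen.mem_nhds hmem] with s hs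
    rw [e1 s hs, e2 s hs]
  exact a1.eq_of_eventuallyEq a2 hev

/-- the order of a product is unchanged by a factor which does not vanish -/
lemma order_mul {F H : ℂ → ℂ} (hF : Differentiable ℂ F) (hH : Differentiable ℂ H) (h1 : H 1 ≠ 0) :
    analyticOrderAt (fun s => F s * H s) 1 = analyticOrderAt F 1 := by
  have h2 := analyticOrderAt_mul (hF.analyticAt 1) (hH.analyticAt 1)
  have h3 : analyticOrderAt H 1 = 0 := (hH.analyticAt 1).analyticOrderAt_eq_zero.2 h1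
  rw [h3, add_zero] at h2
  exact h2

/-- all primitive characters of conductor `ℓ^m` divisible by the level, `ℓ = 2, 3` -/
theorem all_primitive {ℓ : ℕ} (hℓ : ℓ = 2 ∨ ℓ = 3) {A : ℕ} (hA : 3 ≤ A)
    (f : CuspForm (Gamma0 (ℓ ^ A) : Subgroup (GL (Fin 2) ℝ)) 2) (hf : f ≠ 0)
    (hreal : ∀ n, (coef f n).im = 0) (hc : ∀ n, ℓ ∣ n → coef f n = 0)
    (K : Type*) [Field K] [Algebra K ℝ] (hper : PeriodsIn f K)
    (hirr : ∀ j, Irreducible (Polynomial.cyclotomic (ℓ ^ j) K)) {m : ℕ} (hm : A ≤ m)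
    (χ : DirichletCharacter ℂ (ℓ ^ m)) (hχ : χ.IsPrimitive) : NonvanishingAtOne (coef f) χ := by
  have hp : ℓ.Prime := by
    rcases hℓ with rfl | rfl
    · exact Nat.prime_two
    · exact Nat.prime_three
  have : NeZero (ℓ ^ A) := ⟨pow_ne_zero _ hp.ne_zero⟩
  have hM : NeZero (ℓ ^ m) := ⟨pow_ne_zero _ hp.ne_zero⟩
  have hN : ℓ ^ A ∣ ℓ ^ m := pow_dvd_pow ℓ hm
  have hc' : ∀ n : ℕ, ¬ n.Coprime (ℓ ^ m) → coef f n = 0 := by
    intro n hn
    apply hc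
    by_contra hnd
    apply hn
    apply Nat.Coprime.pow_right
    rw [Nat.coprime_comm]
    exact hp.coprime_iff_not_dvd.2 hnd
  refine nonvanishing_of_Schi f hN hc' χ ?_
  rcases hℓ with rfl | rfl
  · obtain ⟨t, rfl⟩ : ∃ t, m = t + 1 + 2 := ⟨m - 3, by omega⟩
    exact Schi_ne_zero f good_two t hN hf hreal hc' hper (hirr _) χ hχ
  · obtain ⟨t, rfl⟩ : ∃ t, m = t + 1 + 1 := ⟨m - 2, by omega⟩
    exact Schi_ne_zero f good_three t hN hf hreal hc' hper (hirr _) χ hχ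

/-- one primitive character of each parity, `ℓ` arbitrary -/
theorem one_primitive {ℓ : ℕ} (hp : ℓ.Prime) {A : ℕ}
    (f : CuspForm (Gamma0 (ℓ ^ A) : Subgroup (GL (Fin 2) ℝ)) 2) (hf : f ≠ 0)
    (hreal : ∀ n, (coef f n).im = 0) (hc : ∀ n, ℓ ∣ n → coef f n = 0)
    {m : ℕ} (hm : A ≤ m) (hm2 : 2 ≤ m) {s : ℂ} (hs : s = 1 ∨ s = -1) :
    ∃ χ : DirichletCharacter ℂ (ℓ ^ m), χ.IsPrimitive ∧ χ (-1) = s ∧
      NonvanishingAtOne (coef f) χ := by
  have : NeZero (ℓ ^ A) := ⟨pow_ne_zero _ hp.ne_zero⟩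
  have hM : NeZero (ℓ ^ m) := ⟨pow_ne_zero _ hp.ne_zero⟩
  have hN : ℓ ^ A ∣ ℓ ^ m := pow_dvd_pow ℓ hm
  have hc' : ∀ n : ℕ, ¬ n.Coprime (ℓ ^ m) → coef f n = 0 := by
    intro n hn
    apply hc
    by_contra hnd
    apply hn
    apply Nat.Coprime.pow_right
    rw [Nat.coprime_comm]
    exact hp.coprime_iff_not_dvd.2 hnd
  obtain ⟨χ, h1, h2, h3⟩ := exists_primitive f hp hm2 hN hf hreal hc' hs
  exact ⟨χ, h1, h2, nonvanishing_of_Schi f hN hc' χ h3⟩

end Pool.Agent.H503.TA
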