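import Pool.Agent.H503.TA.UGrp

/-!
# Character sums of an integer valued function on the units
-/

set_option autoImplicit false
set_option linter.unusedSectionVars false

open Complex UpperHalfPlane MatrixGroups CongruenceSubgroup Filter Topology ModularForm
open MeasureTheory Set Asymptotics

namespace Pool.Agent.H503.TA

section
variable {M : ℕ} [NeZero M]

lemma unit_val_two (hM : 2 < M) (u : (ZMod M)ˣ) : 2 * (u : ZMod M).val ≠ M := by
  intro h
  have h1 : ((2 * (u : ZMod M).val : ℕ) : ZMod M) = 0 := by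
    rw [h, ZMod.natCast_self]
  push_cast at h1
  rw [ZMod.natCast_zmod_val] at h1
  have h2 : (2 : ZMod M) = 0 := by
    have h3 := congrArg (fun x => x * ((u⁻¹ : (ZMod M)ˣ) : ZMod M)) h1
    simpa [mul_assoc] using h3
  have h3 : ((2 : ℕ) : ZMod M) = 0 := by exact_mod_cast h2
  rw [ZMod.natCast_eq_zero_iff] at h3
  have := Nat.le_of_dvd (by norm_num) h3
  omega

lemma neg_half (hM : 2 < M) (u : (ZMod M)ˣ) :
    2 * ((-u : (ZMod M)ˣ) : ZMod M).val < M ↔ ¬ 2 * (u : ZMod M).val < M := by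
  have h1 := unit_val_two hM u
  have : Fact (1 < M) := ⟨by omega⟩
  have hne : (u : ZMod M) ≠ 0 := u.ne_zero
  have h2 := ZMod.val_lt (u : ZMod M)
  have h3 : (u : ZMod M).val ≠ 0 := by
    rw [Ne, ZMod.val_eq_zero]
    exact hne
  rw [Units.val_neg, ZMod.neg_val, if_neg hne]
  omega

lemma sum_half (hM : 2 < M) (F : (ZMod M)ˣ → ℂ) (hF : ∀ u, F (-u) = F u) :
    ∑ u, F u = 2 * ∑ u ∈ Finset.univ.filter (fun u : (ZMod M)ˣ => 2 * (u : ZMod M).val < M), F u := by
  rw [← Finset.sum_filter_add_sum_filter_not Finset.univ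
    (fun u : (ZMod M)ˣ => 2 * (u : ZMod M).val < M)]
  have h1 : ∑ u ∈ Finset.univ.filter (fun u : (ZMod M)ˣ => ¬ 2 * (u : ZMod M).val < M), F u =
      ∑ u ∈ Finset.univ.filter (fun u : (ZMod M)ˣ => 2 * (u : ZMod M).val < M), F u := by
    refine Finset.sum_bij' (fun u _ => -u) (fun u _ => -u) ?_ ?_ ?_ ?_ ?_
    · intro u hu
      rw [Finset.mem_filter] at hu ⊢
      exact ⟨Finset.mem_univ _, (neg_half hM u).2 hu.2⟩
    · intro u hu
      rw [Finset.mem_filter] at hu ⊢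
      refine ⟨Finset.mem_univ _, ?_⟩
      rw [neg_half hM]
      exact not_not.2 hu.2
    · intro u _
      exact neg_neg u
    · intro u _
      exact neg_neg u
    · intro u _
      exact (hF u).symm
  rw [h1]
  ring

/-- orthogonality on the units -/
lemma sum_chi (b u : (ZMod M)ˣ) : ∑ χ : DirichletCharacter ℂ M, χ (b : ZMod M) * χ⁻¹ (u : ZMod M) =
    if u = b then (M.totient : ℂ) else 0 := by
  have h3 := DirichletCharacter.sum_char_inv_mul_char_eq ℂ u.isUnit (b : ZMod M)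
  have h4 : ∀ χ : DirichletCharacter ℂ M, χ (b : ZMod M) * χ⁻¹ (u : ZMod M) =
      χ ((u : ZMod M)⁻¹) * χ (b : ZMod M) := by
    intro χ
    rw [MulChar.inv_apply, ZMod.inv_coe_unit, Ring.inverse_unit, mul_comm]
  rw [Finset.sum_congr rfl fun χ _ => h4 χ, h3]
  by_cases h : u = b
  · rw [if_pos h, if_pos (by rw [h])]
  · rw [if_neg h, if_neg (fun h5 => h (Units.ext h5))]

/-- the half sum -/
noncomputable def Lh (k : (ZMod M)ˣ → ℤ) (χ : DirichletCharacter ℂ M) : ℂ :=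
  ∑ u ∈ Finset.univ.filter (fun u : (ZMod M)ˣ => 2 * (u : ZMod M).val < M),
    χ⁻¹ (u : ZMod M) * k u

lemma chi_sq (χ : DirichletCharacter ℂ M) : χ (-1) * χ (-1) = 1 := by
  rw [← map_mul]
  simp

lemma chi_inv_neg {s : ℂ} (hs : s = 1 ∨ s = -1) {χ : DirichletCharacter ℂ M} (hχ : χ (-1) = s) :
    χ⁻¹ (-1) = s := by
  rw [MulChar.inv_apply_eq_inv, Ring.inverse_eq_inv', hχ]
  rcases hs with rfl | rfl <;> norm_num

lemma two_Lh (hM : 2 < M) {s : ℂ} (hs : s = 1 ∨ s = -1) {k : (ZMod M)ˣ → ℤ}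
    (hk : ∀ u, (k (-u) : ℂ) = s * k u) {χ : DirichletCharacter ℂ M} (hχ : χ (-1) = s) :
    ∑ u : (ZMod M)ˣ, χ⁻¹ (u : ZMod M) * k u = 2 * Lh k χ := by
  refine sum_half hM _ fun u => ?_
  rw [hk, Units.val_neg, ← neg_one_mul (u : ZMod M), map_mul, chi_inv_neg hs hχ]
  have : s * s = 1 := by rcases hs with rfl | rfl <;> norm_num
  linear_combination (χ⁻¹ (u : ZMod M) * k u) * this

lemma sum_other {s : ℂ} (hs : s = 1 ∨ s = -1) {k : (ZMod M)ˣ → ℤ}
    (hk : ∀ u, (k (-u) : ℂ) = s * k u) {χ : DirichletCharacter ℂ M} (hχ : χ (-1) ≠ s) :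
    ∑ u : (ZMod M)ˣ, χ⁻¹ (u : ZMod M) * k u = 0 := by
  have hsq := chi_sq χ
  have h6 : χ (-1) = -s := by
    have h4 : (χ (-1) - 1) * (χ (-1) + 1) = 0 := by linear_combination hsq
    rcases mul_eq_zero.1 h4 with h5 | h5
    · have h6 : χ (-1) = 1 := by linear_combination h5
      rcases hs with rfl | rfl
      · exact absurd h6 hχ
      · rw [h6]
        ring
    · have h6 : χ (-1) = -1 := by linear_combination h5
      rcases hs with rfl | rfl
      · rw [h6]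
      · exact absurd h6 hχ
  have hinv : χ⁻¹ (-1) = -s := by
    rw [MulChar.inv_apply_eq_inv, Ring.inverse_eq_inv', h6]
    rcases hs with rfl | rfl <;> norm_num
  have h7 : ∑ u : (ZMod M)ˣ, χ⁻¹ (u : ZMod M) * k u =
      -∑ u : (ZMod M)ˣ, χ⁻¹ (u : ZMod M) * k u := by
    conv_lhs => rw [← Equiv.sum_comp (Equiv.neg (ZMod M)ˣ)]
    rw [← Finset.sum_neg_distrib]
    refine Finset.sum_congr rfl fun u _ => ?_
    rw [Equiv.neg_apply, hk, Units.val_neg, ← neg_one_mul (u : ZMod M), map_mul, hinv]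
    have : s * s = 1 := by rcases hs with rfl | rfl <;> norm_num
    linear_combination (-(χ⁻¹ (u : ZMod M) * k u)) * this
  linear_combination (1 / 2 : ℂ) * h7

/-- the inversion formula -/
lemma inversion (hM : 2 < M) {s : ℂ} (hs : s = 1 ∨ s = -1) {k : (ZMod M)ˣ → ℤ}
    (hk : ∀ u, (k (-u) : ℂ) = s * k u) (b : (ZMod M)ˣ) :
    2 * ∑ χ ∈ Finset.univ.filter (fun χ : DirichletCharacter ℂ M => χ (-1) = s),
      χ (b : ZMod M) * Lh k χ = (M.totient : ℂ) * k b := by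
  have h1 : ∑ χ : DirichletCharacter ℂ M, χ (b : ZMod M) * ∑ u : (ZMod M)ˣ,
      χ⁻¹ (u : ZMod M) * k u = (M.totient : ℂ) * k b := by
    simp only [Finset.mul_sum]
    rw [Finset.sum_comm, Finset.sum_eq_single b]
    · have h2 := sum_chi b b
      rw [if_pos rfl] at h2
      rw [← h2, Finset.sum_mul]
      refine Finset.sum_congr rfl fun χ _ => ?_
      ring
    · intro u _ hu
      have h2 := sum_chi b u
      rw [if_neg hu] at h2
      have h3 : ∑ χ : DirichletCharacter ℂ M, χ (b : ZMod M) * (χ⁻¹ (u : ZMod M) * k u) =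
          (∑ χ : DirichletCharacter ℂ M, χ (b : ZMod M) * χ⁻¹ (u : ZMod M)) * k u := by
        rw [Finset.sum_mul]
        refine Finset.sum_congr rfl fun χ _ => ?_
        ring
      rw [h3, h2, zero_mul]
    · intro h
      exact absurd (Finset.mem_univ b) h
  rw [← h1, Finset.mul_sum, Finset.sum_filter]
  refine Finset.sum_congr rfl fun χ _ => ?_
  split_ifs with hχ
  · rw [two_Lh hM hs hk hχ]
    ring
  · rw [sum_other hs hk hχ, mul_zero]

/-- the functional equation -/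
lemma func_eq (hM : 2 < M) {s : ℂ} (hs : s = 1 ∨ s = -1) {k : (ZMod M)ˣ → ℤ}
    (hk : ∀ u, (k (-u) : ℂ) = s * k u) (hk2 : ∀ u, k (-u⁻¹) = -k u)
    {χ : DirichletCharacter ℂ M} (hχ : χ (-1) = s) : Lh k χ = -s * Lh k χ⁻¹ := by
  have hχ' : χ⁻¹ (-1) = s := chi_inv_neg hs hχ
  have h1 := two_Lh hM hs hk hχ
  have h2 := two_Lh hM hs hk hχ'
  rw [inv_inv] at h2
  have h3 : ∑ u : (ZMod M)ˣ, χ⁻¹ (u : ZMod M) * k u =
      -s * ∑ u : (ZMod M)ˣ, χ (u : ZMod M) * k u := by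
    conv_lhs => rw [← Equiv.sum_comp ((Equiv.inv (ZMod M)ˣ).trans (Equiv.neg (ZMod M)ˣ))]
    rw [Finset.mul_sum]
    refine Finset.sum_congr rfl fun u _ => ?_
    simp only [Equiv.trans_apply, Equiv.inv_apply, Equiv.neg_apply]
    rw [hk2, Units.val_neg, ← neg_one_mul ((u⁻¹ : (ZMod M)ˣ) : ZMod M), map_mul, hχ']
    have h4 : χ⁻¹ ((u⁻¹ : (ZMod M)ˣ) : ZMod M) = χ (u : ZMod M) := by
      rw [MulChar.inv_apply, Ring.inverse_unit, inv_inv]
    rw [h4]
    push_cast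
    ring
  linear_combination (1 / 2 : ℂ) * h3 - (1 / 2 : ℂ) * h1 + (-s / 2) * h2

/-- integrality -/
lemma chi_integral (χ : DirichletCharacter ℂ M) (u : (ZMod M)ˣ) : IsIntegral ℤ (χ (u : ZMod M)) := by
  have h1 : (χ (u : ZMod M)) ^ Fintype.card (ZMod M)ˣ = 1 := by
    rw [← map_pow, ← Units.val_pow_eq_pow_val, pow_card_eq_one, Units.val_one, map_one]
  refine IsIntegral.of_pow (n := Fintype.card (ZMod M)ˣ) Fintype.card_pos ?_
  rw [h1]
  exact isIntegral_one

lemma Lh_adjoin (k : (ZMod M)ˣ → ℤ) (χ : DirichletCharacter ℂ M) :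
    Lh k χ ∈ Algebra.adjoin ℤ (Set.range χ) := by
  refine Subalgebra.sum_mem _ fun u _ => ?_
  refine Subalgebra.mul_mem _ ?_ ?_
  · rw [MulChar.inv_apply]
    exact Algebra.subset_adjoin ⟨_, rfl⟩
  · exact Subalgebra.intCast_mem _ _

lemma Lh_integral (k : (ZMod M)ˣ → ℤ) (χ : DirichletCharacter ℂ M) : IsIntegral ℤ (Lh k χ) := by
  refine IsIntegral.sum _ fun u _ => ?_
  exact (chi_integral χ⁻¹ u).mul (isIntegral_algebraMap (x := k u))

end

end Pool.Agent.H503.TA
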