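import Pool.Agent.H503.TA.UMain

/-!
# Assembly
-/

set_option autoImplicit false
set_option linter.unusedSectionVars false

open Complex UpperHalfPlane MatrixGroups CongruenceSubgroup Filter Topology ModularForm
open MeasureTheory Set Asymptotics

namespace Pool.Agent.H503.TA

/-- the Gauss sum as a sum over the residues `0, …, M - 1` -/
lemma tau_eq_range {M : ℕ} [NeZero M] (χ : DirichletCharacter ℂ M) :
    tau χ = ∑ a ∈ Finset.range M, χ⁻¹ (a : ZMod M) *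
      Complex.exp (2 * Real.pi * Complex.I * a / M) := by
  unfold tau gaussSum
  symm
  refine Finset.sum_bij' (fun a _ => (a : ZMod M)) (fun a _ => a.val) ?_ ?_ ?_ ?_ ?_
  · intro a _
    exact Finset.mem_univ _
  · intro a _
    rw [Finset.mem_range]
    exact ZMod.val_lt a
  · intro a ha
    rw [Finset.mem_range] at ha
    exact ZMod.val_natCast_of_lt ha
  · intro a _
    exact ZMod.natCast_zmod_val a
  · intro a _
    congr 1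
    have := ZMod.stdAddChar_coe (N := M) (a : ℤ)
    push_cast at this
    rw [this]

lemma coprime_cond {ℓ : ℕ} (hp : ℓ.Prime) {m : ℕ} {c : ℕ → ℂ} (hc : ∀ n, ℓ ∣ n → c n = 0) :
    ∀ n : ℕ, ¬ n.Coprime (ℓ ^ m) → c n = 0 := by
  intro n hn
  apply hc
  by_contra hnd
  apply hn
  apply Nat.Coprime.pow_right
  rw [Nat.coprime_comm]
  exact hp.coprime_iff_not_dvd.2 hnd

lemma totient_half {ℓ : ℕ} (hℓ : ℓ.Prime) {m : ℕ} (hm : 2 ≤ m) {p : ℕ} (hp : p.Prime)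
    (hpl : p ≠ ℓ) (h2 : ℓ = 2 ∨ ¬ p ∣ (ℓ - 1) / 2) : ¬ p ∣ (ℓ ^ m).totient / 2 := by
  obtain ⟨n, rfl⟩ : ∃ n, m = n + 1 + 1 := ⟨m - 2, by omega⟩
  rw [Nat.totient_prime_pow_succ hℓ]
  rcases hℓ.eq_two_or_odd with rfl | hodd
  · have : 2 ^ (n + 1) * (2 - 1) / 2 = 2 ^ n := by
      rw [pow_succ]
      omega
    rw [this]
    intro hd
    exact hpl ((Nat.prime_dvd_prime_iff_eq hp Nat.prime_two).1 (hp.dvd_of_dvd_pow hd))
  · have h3 : ¬ p ∣ (ℓ - 1) / 2 := by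
      rcases h2 with rfl | h2
      · simp at hodd
      · exact h2
    have h4 : ℓ ^ (n + 1) * (ℓ - 1) / 2 = ℓ ^ (n + 1) * ((ℓ - 1) / 2) :=
      Nat.mul_div_assoc _ (by omega)
    rw [h4, hp.dvd_mul]
    rintro (h5 | h5)
    · exact hpl ((Nat.prime_dvd_prime_iff_eq hp hℓ).1 (hp.dvd_of_dvd_pow h5))
    · exact h3 h5

/-- the primes of the theorem -/
def GoodPrime (ℓ p : ℕ) : Prop := p.Prime ∧
  ((ℓ = 3 ∧ (p % 9 = 2 ∨ p % 9 = 4 ∨ p % 9 = 5 ∨ p % 9 = 7)) ∨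
    (ℓ = 2 ∧ (p % 8 = 3 ∨ p % 8 = 5)))

lemma goodP_three {p : ℕ} (h : p % 9 = 2 ∨ p % 9 = 4 ∨ p % 9 = 5 ∨ p % 9 = 7) : GoodP 3 1 p := by
  rcases h with h | h | h | h
  · refine ⟨-((p : ℤ) + 1) / 3, ?_, Or.inr ?_⟩ <;> push_cast <;> omega
  · refine ⟨((p : ℤ) - 1) / 3, ?_, Or.inl ?_⟩ <;> push_cast <;> omega
  · refine ⟨-((p : ℤ) + 1) / 3, ?_, Or.inr ?_⟩ <;> push_cast <;> omega
  · refine ⟨((p : ℤ) - 1) / 3, ?_, Or.inl ?_⟩ <;> push_cast <;> omega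

lemma goodP_two {p : ℕ} (h : p % 8 = 3 ∨ p % 8 = 5) : GoodP 2 2 p := by
  rcases h with h | h
  · refine ⟨-((p : ℤ) + 1) / 4, ?_, Or.inr ?_⟩ <;> push_cast <;> omega
  · refine ⟨((p : ℤ) - 1) / 4, ?_, Or.inl ?_⟩ <;> push_cast <;> omega

/-- coprimality from prime ideals -/
lemma coprime_of_not_mem {l q : integralClosure ℤ ℂ}
    (h : ∀ 𝔓 : Ideal (integralClosure ℤ ℂ), 𝔓.IsPrime → q ∈ 𝔓 → l ∉ 𝔓) : IsCoprime l q := by
  rw [← Ideal.isCoprime_span_singleton_iff, Ideal.isCoprime_iff_sup_eq]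
  by_contra hne
  obtain ⟨𝔓, hmax, hle⟩ := Ideal.exists_le_maximal _ hne
  have h1 : l ∈ 𝔓 := hle (Ideal.mem_sup_left (Ideal.mem_span_singleton_self l))
  have h2 : q ∈ 𝔓 := hle (Ideal.mem_sup_right (Ideal.mem_span_singleton_self q))
  exact h 𝔓 hmax.isPrime h2 h1

section
variable {ℓ A : ℕ}
variable (f : CuspForm (Gamma0 (ℓ ^ A) : Subgroup (GL (Fin 2) ℝ)) 2)

/-- part one -/
theorem unit_exists (hℓ : ℓ.Prime) (hA : 1 ≤ A) (hf : f ≠ 0) (hreal : ∀ n, (coef f n).im = 0)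
    (hc : ∀ n, ℓ ∣ n → coef f n = 0) {s : ℂ}
    (hs : s = 1 ∨ s = -1) {Ω : ℂ}
    (hΩ : ∀ w : ℂ, (∃ c, IsPer f c ∧ w = c + s * (starRingEnd ℂ) c) ↔ ∃ k : ℤ, w = k * Ω)
    {m : ℕ} (hm : A ≤ m) (hm2 : 2 ≤ m) {p : ℕ} (hp : p.Prime) (hpl : p ≠ ℓ)
    (h2 : ℓ = 2 ∨ ¬ p ∣ (ℓ - 1) / 2)
    (𝔓 : Ideal (integralClosure ℤ ℂ)) (h𝔓 : 𝔓.IsPrime) (hp𝔓 : (p : integralClosure ℤ ℂ) ∈ 𝔓) :
    ∃ χ : DirichletCharacter ℂ (ℓ ^ m), χ.IsPrimitive ∧ χ (-1) = s ∧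
      ∃ l : integralClosure ℤ ℂ, l ∉ 𝔓 ∧ (l : ℂ) ∈ Algebra.adjoin ℤ (Set.range χ) ∧
        ∃ L : ℂ → ℂ, Differentiable ℂ L ∧
        (∀ s : ℂ, 2 < s.re → L s = LSeries (fun n => χ n * coef f n) s) ∧
        (∑ a ∈ Finset.range (ℓ ^ m), χ⁻¹ (a : ZMod (ℓ ^ m)) *
          Complex.exp (2 * Real.pi * Complex.I * a / (ℓ ^ m : ℕ))) * L 1 = Ω * (l : ℂ) := by
  have hN0 : NeZero (ℓ ^ A) := ⟨pow_ne_zero _ hℓ.ne_zero⟩
  have hM0 : NeZero (ℓ ^ m) := ⟨pow_ne_zero _ hℓ.ne_zero⟩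
  have hN : ℓ ^ A ∣ ℓ ^ m := pow_dvd_pow ℓ hm
  have hM : 2 < ℓ ^ m := by
    calc 2 < 2 ^ 2 := by norm_num
      _ ≤ ℓ ^ 2 := Nat.pow_le_pow_left hℓ.two_le 2
      _ ≤ ℓ ^ m := Nat.pow_le_pow_right hℓ.pos hm2
  have hc' := coprime_cond hℓ (m := m) hc
  have hΩ0 := generator_ne_zero f hf hs hΩ
  obtain ⟨k, hkγ, hk, hk2, hS⟩ := exists_k f hN hM hreal hs hΩ0 hΩ
  obtain ⟨χ, hpr, hχs, hnot⟩ := exists_not_in f hℓ hA hm hm2 hc' hs hΩ0 hΩ hkγ hk hS hp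
    (totient_half hℓ hm2 hp hpl h2) hpl hp𝔓
  have hL0 : Lh k χ ≠ 0 := fun h0 => hnot (by rw [h0]; exact in_zero)
  have hS0 : Schi f χ ≠ 0 := by
    rw [hS χ hχs]
    exact mul_ne_zero hΩ0 hL0
  obtain ⟨L, hL1, hL2, hL3⟩ := exists_L f hN hc' χ (tau_ne_zero_of_Schi f hN hc' χ hS0)
  refine ⟨χ, hpr, hχs, ⟨Lh k χ, Lh_integral k χ⟩, fun hmem => hnot ⟨_, hmem, rfl⟩,
    Lh_adjoin k χ, L, hL1, hL2, ?_⟩
  rw [← tau_eq_range, hL3, hS χ hχs]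

/-- part two -/
theorem unit_all (hℓ : ℓ = 2 ∨ ℓ = 3) (hA : 1 ≤ A) (hf : f ≠ 0) (hreal : ∀ n, (coef f n).im = 0)
    (hc : ∀ n, ℓ ∣ n → coef f n = 0) {s : ℂ}
    (hs : s = 1 ∨ s = -1) {Ω : ℂ}
    (hΩ : ∀ w : ℂ, (∃ c, IsPer f c ∧ w = c + s * (starRingEnd ℂ) c) ↔ ∃ k : ℤ, w = k * Ω)
    {m : ℕ} (hm : A ≤ m) (hm3 : 3 ≤ m) (χ : DirichletCharacter ℂ (ℓ ^ m)) (hχ : χ.IsPrimitive)
    (hχs : χ (-1) = s) :
    ∃ l : integralClosure ℤ ℂ, (∀ p, GoodPrime ℓ p → IsCoprime l (p : integralClosure ℤ ℂ)) ∧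
      (l : ℂ) ∈ Algebra.adjoin ℤ (Set.range χ) ∧ ∃ L : ℂ → ℂ, Differentiable ℂ L ∧
        (∀ s : ℂ, 2 < s.re → L s = LSeries (fun n => χ n * coef f n) s) ∧
        (∑ a ∈ Finset.range (ℓ ^ m), χ⁻¹ (a : ZMod (ℓ ^ m)) *
          Complex.exp (2 * Real.pi * Complex.I * a / (ℓ ^ m : ℕ))) * L 1 = Ω * (l : ℂ) := by
  have hℓp : ℓ.Prime := by
    rcases hℓ with rfl | rfl
    · exact Nat.prime_two
    · exact Nat.prime_three
  have hN0 : NeZero (ℓ ^ A) := ⟨pow_ne_zero _ hℓp.ne_zero⟩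
  have hM0 : NeZero (ℓ ^ m) := ⟨pow_ne_zero _ hℓp.ne_zero⟩
  have hN : ℓ ^ A ∣ ℓ ^ m := pow_dvd_pow ℓ hm
  have hM : 2 < ℓ ^ m := by
    calc 2 < 2 ^ 2 := by norm_num
      _ ≤ ℓ ^ 2 := Nat.pow_le_pow_left hℓp.two_le 2
      _ ≤ ℓ ^ m := Nat.pow_le_pow_right hℓp.pos (by omega)
  have hc' := coprime_cond hℓp (m := m) hc
  have hΩ0 := generator_ne_zero f hf hs hΩ
  obtain ⟨k, hkγ, hk, hk2, hS⟩ := exists_k f hN hM hreal hs hΩ0 hΩ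
  have key : ∀ p, GoodPrime ℓ p → ∀ 𝔓 : Ideal (integralClosure ℤ ℂ), 𝔓.IsPrime →
      (p : integralClosure ℤ ℂ) ∈ 𝔓 → ¬ In 𝔓 (Lh k χ) := by
    rintro p ⟨hp, hgood⟩ 𝔓 h𝔓 hp𝔓 hin
    have hpl : p ≠ ℓ := by
      rintro rfl
      rcases hgood with ⟨rfl, h⟩ | ⟨rfl, h⟩ <;> omega
    have h2 : ℓ = 2 ∨ ¬ p ∣ (ℓ - 1) / 2 := by
      rcases hℓ with rfl | rfl
      · exact Or.inl rfl
      · right
        intro hd
        exact hp.one_lt.ne' (Nat.dvd_one.1 hd)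
    obtain ⟨χ₀, hpr, hχ₀s, hnot⟩ := exists_not_in f hℓp hA hm (by omega) hc' hs hΩ0 hΩ hkγ hk hS hp
      (totient_half hℓp (by omega) hp hpl h2) hpl hp𝔓
    apply hnot
    rcases hℓ with rfl | rfl
    · have hg : GoodP 2 2 p := by
        rcases hgood with ⟨h, -⟩ | ⟨-, h⟩
        · norm_num at h
        · exact goodP_two h
      obtain ⟨t, rfl⟩ : ∃ t, m = t + 1 + 2 := ⟨m - 3, by omega⟩
      exact all_in good_two t hs hk hk2 hp hp𝔓 hg hχ hχs hpr hχ₀s hin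
    · have hg : GoodP 3 1 p := by
        rcases hgood with ⟨-, h⟩ | ⟨h, -⟩
        · exact goodP_three h
        · norm_num at h
      obtain ⟨t, rfl⟩ : ∃ t, m = t + 1 + 1 := ⟨m - 2, by omega⟩
      exact all_in good_three t hs hk hk2 hp hp𝔓 hg hχ hχs hpr hχ₀s hin
  -- the value does not vanish
  obtain ⟨p₀, hp₀⟩ : ∃ p, GoodPrime ℓ p := by
    rcases hℓ with rfl | rfl
    · exact ⟨3, Nat.prime_three, Or.inr ⟨rfl, by norm_num⟩⟩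
    · exact ⟨2, Nat.prime_two, Or.inl ⟨rfl, by norm_num⟩⟩
  have hL0 : Lh k χ ≠ 0 := by
    intro h0
    -- a prime ideal above `p₀`
    have hnu : (Ideal.span {(p₀ : integralClosure ℤ ℂ)}) ≠ ⊤ := by
      intro htop
      rw [Ideal.span_singleton_eq_top] at htop
      obtain ⟨v, hv⟩ := htop.exists_right_inv
      have h1 : IsIntegral ℤ ((v : integralClosure ℤ ℂ) : ℂ) := v.2
      have h2 : ((v : integralClosure ℤ ℂ) : ℂ) = algebraMap ℚ ℂ (1 / p₀) := by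
        have h3 := congrArg (fun z : integralClosure ℤ ℂ => (z : ℂ)) hv
        push_cast at h3
        have hp0 : (p₀ : ℂ) ≠ 0 := by exact_mod_cast hp₀.1.ne_zero
        rw [eq_ratCast]
        push_cast
        field_simp
        linear_combination h3
      rw [h2] at h1
      have h4 : IsIntegral ℤ ((1 : ℚ) / p₀) :=
        (isIntegral_algebraMap_iff (algebraMap ℚ ℂ).injective).1 h1
      obtain ⟨y, hy⟩ := IsIntegrallyClosed.isIntegral_iff.1 h4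
      have hp0 : (p₀ : ℚ) ≠ 0 := by exact_mod_cast hp₀.1.ne_zero
      have h5 : (y : ℚ) * p₀ = 1 := by
        have : (algebraMap ℤ ℚ y : ℚ) = y := rfl
        rw [← this, hy]
        field_simp
      have h6 : (p₀ : ℤ) ∣ 1 := ⟨y, by
        have : ((1 : ℤ) : ℚ) = ((p₀ * y : ℤ) : ℚ) := by
          push_cast
          linarith
        exact_mod_cast this⟩
      have h7 : p₀ ∣ 1 := by exact_mod_cast h6
      exact hp₀.1.one_lt.ne' (Nat.dvd_one.1 h7)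
    obtain ⟨𝔓, hmax, hle⟩ := Ideal.exists_le_maximal _ hnu
    exact key p₀ hp₀ 𝔓 hmax.isPrime (hle (Ideal.mem_span_singleton_self _))
      (by rw [h0]; exact in_zero)
  have hS0 : Schi f χ ≠ 0 := by
    rw [hS χ hχs]
    exact mul_ne_zero hΩ0 hL0
  obtain ⟨L, hL1, hL2, hL3⟩ := exists_L f hN hc' χ (tau_ne_zero_of_Schi f hN hc' χ hS0)
  refine ⟨⟨Lh k χ, Lh_integral k χ⟩, fun p hp => ?_, Lh_adjoin k χ, L, hL1, hL2, ?_⟩
  · exact coprime_of_not_mem fun 𝔓 h𝔓 hp𝔓 hmem => key p hp 𝔓 h𝔓 hp𝔓 ⟨_, hmem, rfl⟩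
  · rw [← tau_eq_range, hL3, hS χ hχs]

end

end Pool.Agent.H503.TA
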