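import Pool.Agent.H503.TA.UChar

/-!
# Congruences modulo a place above `p`
-/

set_option autoImplicit false
set_option linter.unusedSectionVars false

open Complex UpperHalfPlane MatrixGroups CongruenceSubgroup Filter Topology ModularForm
open MeasureTheory Set Asymptotics

namespace Pool.Agent.H503.TA

section
variable {ℓ e : ℕ} (h : Good ℓ e)
include h

/-- every unit is plus or minus a power of `b = 1 + ℓ^e a` -/
lemma units_eq' (a : ℤ) (ha : ¬ (ℓ : ℤ) ∣ a) (n : ℕ) (u : (ZMod (ℓ ^ (n + e)))ˣ) : ∃ i : ℕ,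
    (u : ZMod (ℓ ^ (n + e))) = (1 + ℓ ^ e * a : ZMod (ℓ ^ (n + e))) ^ i ∨
    (u : ZMod (ℓ ^ (n + e))) = -(1 + ℓ ^ e * a : ZMod (ℓ ^ (n + e))) ^ i := by
  have hℓ0 : NeZero (ℓ ^ (n + e)) := ⟨pow_ne_zero _ h.prime.ne_zero⟩
  have hord0 : orderOf (1 + ℓ ^ e * a : ZMod (ℓ ^ (n + e))) = ℓ ^ n :=
    ZMod.orderOf_one_add_mul_prime_pow h.prime e h.e0 h.e2 a ha n
  have hunit : IsUnit (1 + ℓ ^ e * a : ZMod (ℓ ^ (n + e))) := by
    have h1 := pow_orderOf_eq_one (1 + ℓ ^ e * a : ZMod (ℓ ^ (n + e)))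
    rw [hord0] at h1
    exact IsUnit.of_pow_eq_one h1 (pow_ne_zero _ h.prime.ne_zero)
  obtain ⟨g, hg⟩ := hunit
  have hord : orderOf g = ℓ ^ n := by
    rw [← orderOf_units, hg]
    exact hord0
  have hcard : Nat.card (ZMod (ℓ ^ (n + e)))ˣ = 2 * ℓ ^ n := by
    rw [Nat.card_eq_fintype_card, ZMod.card_units_eq_totient, h.tot]
  have hindex : (Subgroup.zpowers g).index = 2 := by
    have h1 := Subgroup.card_mul_index (Subgroup.zpowers g)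
    rw [Nat.card_zpowers, hord, hcard, mul_comm 2] at h1
    exact Nat.eq_of_mul_eq_mul_left (pow_pos h.prime.pos n) h1
  have hred : ∀ i : ℕ, ZMod.castHom (Dvd.intro_left (ℓ ^ n) (pow_add ℓ n e).symm :
      ℓ ^ e ∣ ℓ ^ (n + e)) (ZMod (ℓ ^ e)) ((1 + ℓ ^ e * a : ZMod (ℓ ^ (n + e))) ^ i) = 1 := by
    intro i
    rw [map_pow, map_add, map_one, map_mul, map_pow, map_natCast]
    have : ((ℓ : ZMod (ℓ ^ e)) ^ e) = 0 := by
      rw [← Nat.cast_pow, ZMod.natCast_self]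
    rw [this, zero_mul, add_zero, one_pow]
  have hneg : (-1 : (ZMod (ℓ ^ (n + e)))ˣ) ∉ Subgroup.zpowers g := by
    intro hmem
    rw [← mem_powers_iff_mem_zpowers] at hmem
    obtain ⟨i, hi⟩ := hmem
    have h2 := congrArg (fun u : (ZMod (ℓ ^ (n + e)))ˣ => ZMod.castHom (Dvd.intro_left (ℓ ^ n)
      (pow_add ℓ n e).symm : ℓ ^ e ∣ ℓ ^ (n + e)) (ZMod (ℓ ^ e)) (u : ZMod (ℓ ^ (n + e)))) hi
    simp only [Units.val_pow_eq_pow_val, hg, hred, Units.val_neg, Units.val_one, map_neg,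
      map_one] at h2
    exact one_ne_neg_one h h2
  by_cases hu : u ∈ Subgroup.zpowers g
  · rw [← mem_powers_iff_mem_zpowers] at hu
    obtain ⟨i, hi⟩ := hu
    refine ⟨i, Or.inl ?_⟩
    rw [← hi, Units.val_pow_eq_pow_val, hg]
  · have h3 : (-1) * u ∈ Subgroup.zpowers g := by
      rw [Subgroup.mul_mem_iff_of_index_two hindex]
      tauto
    rw [← mem_powers_iff_mem_zpowers] at h3
    obtain ⟨i, hi⟩ := h3
    refine ⟨i, Or.inr ?_⟩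
    have h4 := congrArg (fun u : (ZMod (ℓ ^ (n + e)))ˣ => (u : ZMod (ℓ ^ (n + e)))) hi
    simp only [Units.val_pow_eq_pow_val, hg, Units.val_mul, Units.val_neg, Units.val_one] at h4
    rw [h4]
    ring

/-- the primes `p` which, with `-1`, generate the units -/
def GoodP (ℓ e p : ℕ) : Prop := ∃ a : ℤ, ¬ (ℓ : ℤ) ∣ a ∧
  ((p : ℤ) = 1 + (ℓ : ℤ) ^ e * a ∨ (p : ℤ) = -(1 + (ℓ : ℤ) ^ e * a))

lemma units_p {p : ℕ} (hp : GoodP ℓ e p) (n : ℕ) (u : (ZMod (ℓ ^ (n + e)))ˣ) : ∃ i : ℕ,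
    (u : ZMod (ℓ ^ (n + e))) = (p : ZMod (ℓ ^ (n + e))) ^ i ∨
    (u : ZMod (ℓ ^ (n + e))) = -(p : ZMod (ℓ ^ (n + e))) ^ i := by
  obtain ⟨a, ha, hpa⟩ := hp
  obtain ⟨i, hi⟩ := units_eq' h a ha n u
  refine ⟨i, ?_⟩
  rcases hpa with hpa | hpa
  · have : (p : ZMod (ℓ ^ (n + e))) = (1 + ℓ ^ e * a : ZMod (ℓ ^ (n + e))) := by
      have := congrArg (fun z : ℤ => (z : ZMod (ℓ ^ (n + e)))) hpa
      push_cast at this
      exact this
    rw [this]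
    exact hi
  · have : (p : ZMod (ℓ ^ (n + e))) = -(1 + ℓ ^ e * a : ZMod (ℓ ^ (n + e))) := by
      have := congrArg (fun z : ℤ => (z : ZMod (ℓ ^ (n + e)))) hpa
      push_cast at this
      exact this
    rw [this, neg_pow]
    rcases neg_one_pow_eq_or (ZMod (ℓ ^ (n + e))) i with h1 | h1
    · rw [h1, one_mul]
      exact hi
    · rw [h1, neg_one_mul, neg_neg]
      exact hi.symm

/-- the half sums are values of a polynomial with integral coefficients -/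
lemma exists_poly (n : ℕ) [NeZero (ℓ ^ (n + e))] {s : ℂ} (hs : s = 1 ∨ s = -1)
    (k : (ZMod (ℓ ^ (n + e)))ˣ → ℤ) : ∃ P : Polynomial ℤ,
      ∀ χ : DirichletCharacter ℂ (ℓ ^ (n + e)), χ (-1) = s →
        Lh k χ = P.eval₂ (Int.castRingHom ℂ) (χ⁻¹ (1 + ℓ ^ e : ZMod (ℓ ^ (n + e)))) := by
  classical
  choose i hi using units_eq h n
  obtain ⟨σ, hσ⟩ : ∃ σ : ℤ, (σ : ℂ) = s := by
    rcases hs with rfl | rfl
    · exact ⟨1, by simp⟩
    · exact ⟨-1, by simp⟩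
  refine ⟨∑ u ∈ Finset.univ.filter (fun u : (ZMod (ℓ ^ (n + e)))ˣ =>
    2 * (u : ZMod (ℓ ^ (n + e))).val < ℓ ^ (n + e)), Polynomial.C (if (u : ZMod (ℓ ^ (n + e))) =
    (1 + ℓ ^ e : ZMod (ℓ ^ (n + e))) ^ i u then k u else σ * k u) * Polynomial.X ^ i u,
    fun χ hχ => ?_⟩
  unfold Lh
  rw [Polynomial.eval₂_finsetSum]
  refine Finset.sum_congr rfl fun u _ => ?_
  rw [Polynomial.eval₂_mul, Polynomial.eval₂_C, Polynomial.eval₂_pow, Polynomial.eval₂_X, ← map_pow]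
  split_ifs with hif
  · rw [← hif, eq_intCast]
    ring
  · have h7 := (hi u).resolve_left hif
    conv_lhs => rw [h7]
    rw [← neg_one_mul, map_mul χ⁻¹, chi_inv_neg hs hχ, eq_intCast]
    push_cast
    rw [hσ]
    ring

end

section
variable (𝔓 : Ideal (integralClosure ℤ ℂ))

/-- `z` is an algebraic integer in `𝔓` -/
def In (z : ℂ) : Prop := ∃ x ∈ 𝔓, (x : ℂ) = z

variable {𝔓}

lemma In.add {z w : ℂ} (hz : In 𝔓 z) (hw : In 𝔓 w) : In 𝔓 (z + w) := by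
  obtain ⟨x, hx, rfl⟩ := hz
  obtain ⟨y, hy, rfl⟩ := hw
  exact ⟨x + y, 𝔓.add_mem hx hy, by push_cast; rfl⟩

lemma in_zero : In 𝔓 0 := ⟨0, 𝔓.zero_mem, by push_cast; rfl⟩

lemma In.mul {z w : ℂ} (hz : IsIntegral ℤ z) (hw : In 𝔓 w) : In 𝔓 (z * w) := by
  obtain ⟨y, hy, rfl⟩ := hw
  exact ⟨⟨z, hz⟩ * y, 𝔓.mul_mem_left _ hy, by push_cast; rfl⟩

lemma In.sum {ι : Type*} {F : ι → ℂ} {S : Finset ι} (hF : ∀ i ∈ S, In 𝔓 (F i)) :
    In 𝔓 (∑ i ∈ S, F i) := by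
  classical
  induction S using Finset.induction_on with
  | empty => simpa using in_zero
  | insert a S ha ih =>
    rw [Finset.sum_insert ha]
    exact (hF a (Finset.mem_insert_self _ _)).add
      (ih fun i hi => hF i (Finset.mem_insert_of_mem hi))

lemma in_int {p : ℕ} (hp : p.Prime) [h𝔓 : 𝔓.IsPrime] (hp𝔓 : (p : integralClosure ℤ ℂ) ∈ 𝔓) {n : ℤ}
    (hn : In 𝔓 (n : ℂ)) : (p : ℤ) ∣ n := by
  by_contra hnd
  obtain ⟨x, hx, hxn⟩ := hn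
  have hx' : x = (n : integralClosure ℤ ℂ) := by
    apply Subtype.ext
    rw [hxn]
    push_cast
    rfl
  have hcop : IsCoprime (p : ℤ) n := (Nat.prime_iff_prime_int.1 hp).coprime_iff_not_dvd.2 hnd
  obtain ⟨a, b, hab⟩ := hcop
  apply h𝔓.ne_top
  rw [Ideal.eq_top_iff_one]
  have h1 : (1 : integralClosure ℤ ℂ) = (a : integralClosure ℤ ℂ) * (p : integralClosure ℤ ℂ) +
      (b : integralClosure ℤ ℂ) * (n : integralClosure ℤ ℂ) := by
    have := congrArg (fun z : ℤ => (z : integralClosure ℤ ℂ)) hab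
    push_cast at this
    rw [this]
  rw [h1, ← hx']
  exact 𝔓.add_mem (𝔓.mul_mem_left _ hp𝔓) (𝔓.mul_mem_left _ hx)

/-- the Frobenius -/
lemma frob {p : ℕ} (hp : p.Prime) [h𝔓 : 𝔓.IsPrime] (hp𝔓 : (p : integralClosure ℤ ℂ) ∈ 𝔓)
    (P : Polynomial ℤ) {x : ℂ} (hx : IsIntegral ℤ x) (h : In 𝔓 (P.eval₂ (Int.castRingHom ℂ) x)) :
    In 𝔓 (P.eval₂ (Int.castRingHom ℂ) (x ^ p)) := by
  have hF : Fact p.Prime := ⟨hp⟩
  set y : integralClosure ℤ ℂ := ⟨x, hx⟩ with hy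
  have hcoe : ∀ z : integralClosure ℤ ℂ, ((P.eval₂ (Int.castRingHom (integralClosure ℤ ℂ)) z :
      integralClosure ℤ ℂ) : ℂ) = P.eval₂ (Int.castRingHom ℂ) (z : ℂ) := by
    intro z
    have := Polynomial.hom_eval₂ P (Int.castRingHom (integralClosure ℤ ℂ))
      (algebraMap (integralClosure ℤ ℂ) ℂ) z
    rw [show (algebraMap (integralClosure ℤ ℂ) ℂ).comp (Int.castRingHom (integralClosure ℤ ℂ)) =
      Int.castRingHom ℂ from RingHom.ext_int _ _] at this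
    exact this
  have h1 : P.eval₂ (Int.castRingHom (integralClosure ℤ ℂ)) y ∈ 𝔓 := by
    obtain ⟨z, hz, hz2⟩ := h
    have : P.eval₂ (Int.castRingHom (integralClosure ℤ ℂ)) y = z := by
      apply Subtype.ext
      rw [hcoe, hz2]
    rw [this]
    exact hz
  have hnt : Nontrivial (integralClosure ℤ ℂ ⧸ 𝔓) := Ideal.Quotient.nontrivial_iff.2 h𝔓.ne_top
  have hchar : CharP (integralClosure ℤ ℂ ⧸ 𝔓) p := by
    rw [CharP.charP_iff_prime_eq_zero hp]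
    have := Ideal.Quotient.eq_zero_iff_mem.2 hp𝔓
    rw [map_natCast] at this
    exact this
  have h2 : P.eval₂ (Int.castRingHom (integralClosure ℤ ℂ)) (y ^ p) ∈ 𝔓 := by
    rw [← Ideal.Quotient.eq_zero_iff_mem, Polynomial.hom_eval₂, map_pow]
    have h3 := Ideal.Quotient.eq_zero_iff_mem.2 h1
    rw [Polynomial.hom_eval₂] at h3
    have h4 := congrArg (frobenius (integralClosure ℤ ℂ ⧸ 𝔓) p) h3
    rw [Polynomial.hom_eval₂, map_zero, frobenius_def] at h4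
    rw [← h4]
    congr 1
    exact RingHom.ext_int _ _
  refine ⟨_, h2, ?_⟩
  rw [hcoe]
  push_cast
  rfl

lemma frob_iter {p : ℕ} (hp : p.Prime) [h𝔓 : 𝔓.IsPrime] (hp𝔓 : (p : integralClosure ℤ ℂ) ∈ 𝔓)
    (P : Polynomial ℤ) {x : ℂ} (hx : IsIntegral ℤ x) (h : In 𝔓 (P.eval₂ (Int.castRingHom ℂ) x))
    (i : ℕ) : In 𝔓 (P.eval₂ (Int.castRingHom ℂ) (x ^ (p ^ i))) := by
  induction i with
  | zero => simpa using h
  | succ i ih =>
    rw [pow_succ, pow_mul]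
    exact frob hp hp𝔓 P (hx.pow _) ih

/-- if one primitive character sum is in `𝔓` then all are -/
theorem all_in {ℓ e : ℕ} (h : Good ℓ e) (t : ℕ) [NeZero (ℓ ^ (t + 1 + e))] {s : ℂ}
    (hs : s = 1 ∨ s = -1) {k : (ZMod (ℓ ^ (t + 1 + e)))ˣ → ℤ}
    (hk : ∀ u, (k (-u) : ℂ) = s * k u) (hk2 : ∀ u, k (-u⁻¹) = -k u)
    {p : ℕ} (hp : p.Prime) [h𝔓 : 𝔓.IsPrime] (hp𝔓 : (p : integralClosure ℤ ℂ) ∈ 𝔓)
    (hgp : GoodP ℓ e p) {χ₁ χ : DirichletCharacter ℂ (ℓ ^ (t + 1 + e))} (h1 : χ₁.IsPrimitive)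
    (h1s : χ₁ (-1) = s) (hχ : χ.IsPrimitive) (hχs : χ (-1) = s) (hin : In 𝔓 (Lh k χ₁)) :
    In 𝔓 (Lh k χ) := by
  have hM : 2 < ℓ ^ (t + 1 + e) := by
    calc 2 < ℓ ^ e := h.two
      _ ≤ ℓ ^ (t + 1 + e) := Nat.pow_le_pow_right h.prime.pos (by omega)
  obtain ⟨P, hP⟩ := exists_poly h (t + 1) hs k
  have hprim : ∀ ψ : DirichletCharacter ℂ (ℓ ^ (t + 1 + e)), ψ.IsPrimitive →
      IsPrimitiveRoot (ψ⁻¹ (1 + ℓ ^ e : ZMod (ℓ ^ (t + 1 + e)))) (ℓ ^ (t + 1)) := by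
    intro ψ hψ
    rw [MulChar.inv_apply_eq_inv, Ring.inverse_eq_inv']
    exact (primitive_g h t ψ hψ).inv
  have hn : NeZero (ℓ ^ (t + 1)) := ⟨pow_ne_zero _ h.prime.ne_zero⟩
  set ζ₁ := χ₁⁻¹ (1 + ℓ ^ e : ZMod (ℓ ^ (t + 1 + e))) with hζ₁
  set ζ := χ⁻¹ (1 + ℓ ^ e : ZMod (ℓ ^ (t + 1 + e))) with hζ
  have hp1 : IsPrimitiveRoot ζ₁ (ℓ ^ (t + 1)) := hprim χ₁ h1
  have hp2 : IsPrimitiveRoot ζ (ℓ ^ (t + 1)) := hprim χ hχ
  obtain ⟨j, hj, hjζ⟩ := hp1.eq_pow_of_pow_eq_one hp2.pow_eq_one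
  have hjc : j.Coprime (ℓ ^ (t + 1)) := by
    rw [← hp1.pow_iff_coprime (NeZero.pos _), hjζ]
    exact hp2
  have hjc2 : j.Coprime (ℓ ^ (t + 1 + e)) := by
    apply Nat.Coprime.pow_right
    exact (Nat.coprime_pow_right_iff (by omega) _ _).1 hjc
  have hint : IsIntegral ℤ ζ₁ := by
    refine IsIntegral.of_pow (n := ℓ ^ (t + 1)) (NeZero.pos _) ?_
    rw [hp1.pow_eq_one]
    exact isIntegral_one
  rw [hP χ₁ h1s] at hin
  obtain ⟨u, hu⟩ := (ZMod.isUnit_iff_coprime j (ℓ ^ (t + 1 + e))).2 hjc2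
  obtain ⟨i, hi | hi⟩ := units_p h hgp (t + 1) u
  · -- the power of `p`
    have h5 : ζ = ζ₁ ^ (p ^ i) := by
      rw [← hjζ]
      apply pow_eq_pow_of_modEq _ hp1.pow_eq_one
      have h6 : ((j : ℕ) : ZMod (ℓ ^ (t + 1 + e))) = ((p ^ i : ℕ) : ZMod (ℓ ^ (t + 1 + e))) := by
        rw [← hu, hi]
        push_cast
        rfl
      rw [ZMod.natCast_eq_natCast_iff] at h6
      exact h6.of_dvd (pow_dvd_pow ℓ (by omega))
    rw [hP χ hχs, ← hζ, h5]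
    exact frob_iter hp hp𝔓 P hint hin i
  · -- minus a power of `p`
    have h5 : ζ⁻¹ = ζ₁ ^ (p ^ i) := by
      have h6 : (((j + p ^ i : ℕ)) : ZMod (ℓ ^ (t + 1 + e))) = 0 := by
        push_cast
        rw [← hu, hi]
        ring
      rw [ZMod.natCast_eq_zero_iff] at h6
      have h7 : ℓ ^ (t + 1) ∣ j + p ^ i := (pow_dvd_pow ℓ (by omega)).trans h6
      have h8 : ζ₁ ^ (j + p ^ i) = 1 := by
        obtain ⟨c, hc⟩ := h7
        rw [hc, pow_mul, hp1.pow_eq_one, one_pow]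
      rw [pow_add, hjζ] at h8
      exact inv_eq_of_mul_eq_one_right h8
    have h9 : In 𝔓 (Lh k χ⁻¹) := by
      rw [hP χ⁻¹ (chi_inv_neg hs hχs), inv_inv]
      have h10 : χ (1 + ℓ ^ e : ZMod (ℓ ^ (t + 1 + e))) = ζ⁻¹ := by
        rw [hζ, MulChar.inv_apply_eq_inv, Ring.inverse_eq_inv', inv_inv]
      rw [h10, h5]
      exact frob_iter hp hp𝔓 P hint hin i
    rw [func_eq hM hs hk hk2 hχs]
    refine h9.mul ?_
    rcases hs with rfl | rfl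
    · exact isIntegral_one.neg
    · rw [neg_neg]
      exact isIntegral_one

end

end Pool.Agent.H503.TA
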