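import Pool.Agent.H503.TA.Lat

/-!
# The periods modulo a prime number
-/

set_option autoImplicit false
set_option linter.unusedSectionVars false

open Complex UpperHalfPlane MatrixGroups CongruenceSubgroup Filter Topology ModularForm
open MeasureTheory Set Asymptotics

namespace Pool.Agent.H503.TA

/-- lower triangular unipotent matrices -/
def Lx (x : ℤ) : SL(2, ℤ) := ⟨!![1, 0; x, 1], by simp⟩

lemma Lx_mul (x y : ℤ) : Lx x * Lx y = Lx (x + y) := by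
  ext i j
  rw [Matrix.SpecialLinearGroup.coe_mul, Matrix.mul_apply, Fin.sum_univ_two]
  fin_cases i <;> fin_cases j <;> simp [Lx]

lemma Lx_zero : Lx 0 = 1 := by
  ext i j
  fin_cases i <;> fin_cases j <;> simp [Lx]

lemma Lx_inv (x : ℤ) : (Lx x)⁻¹ = Lx (-x) := by
  rw [inv_eq_iff_mul_eq_one, Lx_mul, add_neg_cancel, Lx_zero]

lemma Lx_pow (x : ℤ) (n : ℕ) : Lx x ^ n = Lx (n * x) := by
  induction n with
  | zero => simp [Lx_zero]
  | succ n ih =>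
    rw [pow_succ, ih, Lx_mul]
    congr 1
    push_cast
    ring

lemma Lx_zpow (x : ℤ) (n : ℤ) : Lx x ^ n = Lx (n * x) := by
  cases n with
  | ofNat n =>
    rw [Int.ofNat_eq_natCast, zpow_natCast, Lx_pow]
  | negSucc n =>
    rw [zpow_negSucc, Lx_pow, Lx_inv]
    congr 1
    rw [Int.negSucc_eq]
    push_cast
    ring

lemma step_down {ℓ : ℕ} (S : Subgroup SL(2, ℤ)) {A j : ℕ} (hj1 : 1 ≤ j)
    (hAj : A ≤ j) (hroot : ∀ γ : SL(2, ℤ), (ℓ : ℤ) ^ A ∣ γ 1 0 → γ ^ ℓ ∈ S → γ ∈ S)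
    (hM : ∀ γ : SL(2, ℤ), (ℓ : ℤ) ^ (j + 1) ∣ γ 1 0 → γ ∈ S) :
    ∀ γ : SL(2, ℤ), (ℓ : ℤ) ^ j ∣ γ 1 0 → γ ∈ S := by
  intro γ ⟨c, hc⟩
  have hL : Lx ((ℓ : ℤ) ^ j) ∈ S := by
    apply hroot
    · simp only [Lx, Matrix.SpecialLinearGroup.coe_mk]
      simpa using pow_dvd_pow (ℓ : ℤ) hAj
    · apply hM
      rw [Lx_pow]
      simp only [Lx, Matrix.SpecialLinearGroup.coe_mk]
      simp [pow_succ, mul_comm]
  have hLn : ∀ n : ℤ, Lx (n * (ℓ : ℤ) ^ j) ∈ S := fun n => by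
    rw [← Lx_zpow]
    exact S.zpow_mem hL n
  have hcop : IsCoprime (γ 1 1) (ℓ : ℤ) := by
    have hdet := det_eq γ
    rw [hc] at hdet
    obtain ⟨i, rfl⟩ : ∃ i, j = i + 1 := ⟨j - 1, by omega⟩
    refine ⟨γ 0 0, -γ 0 1 * (ℓ : ℤ) ^ i * c, ?_⟩
    rw [pow_succ] at hdet
    linear_combination hdet
  obtain ⟨u, v, huv⟩ := hcop
  have hmem : γ * Lx ((-(u * c)) * (ℓ : ℤ) ^ j) ∈ S := by
    apply hM
    have : (γ * Lx ((-(u * c)) * (ℓ : ℤ) ^ j)) 1 0 =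
        γ 1 0 * 1 + γ 1 1 * ((-(u * c)) * (ℓ : ℤ) ^ j) := by
      rw [Matrix.SpecialLinearGroup.coe_mul, Matrix.mul_apply, Fin.sum_univ_two]
      simp [Lx]
    rw [this, hc]
    refine ⟨c * v, ?_⟩
    rw [pow_succ]
    linear_combination (-(ℓ : ℤ) ^ j * c) * huv
  exact (S.mul_mem_cancel_right (hLn _)).1 hmem

lemma descend {ℓ : ℕ} (S : Subgroup SL(2, ℤ)) {A : ℕ} (hA1 : 1 ≤ A)
    (hroot : ∀ γ : SL(2, ℤ), (ℓ : ℤ) ^ A ∣ γ 1 0 → γ ^ ℓ ∈ S → γ ∈ S) (d : ℕ)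
    (hM : ∀ γ : SL(2, ℤ), (ℓ : ℤ) ^ (A + d) ∣ γ 1 0 → γ ∈ S) :
    ∀ γ : SL(2, ℤ), (ℓ : ℤ) ^ A ∣ γ 1 0 → γ ∈ S := by
  induction d with
  | zero => simpa using hM
  | succ d ih =>
    exact ih (step_down S (j := A + d) (by omega) (by omega) hroot hM)

section
variable {ℓ A : ℕ} [NeZero (ℓ ^ A)]
variable (f : CuspForm (Gamma0 (ℓ ^ A) : Subgroup (GL (Fin 2) ℝ)) 2)

/-- the elements whose period has `s`-part divisible by `p` -/
def stabP (s Ω : ℂ) (p : ℕ) : Subgroup SL(2, ℤ) where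
  carrier := {γ | γ ∈ Gamma0 (ℓ ^ A) ∧ ∃ c : ℂ, (∀ τ : ℍ, prim f ((γ • τ : ℍ) : ℂ) =
    prim f (τ : ℂ) + c) ∧ ∃ k : ℤ, c + s * (starRingEnd ℂ) c = p * k * Ω}
  one_mem' := ⟨Subgroup.one_mem _, 0, fun τ => by rw [one_smul, add_zero], 0, by simp⟩
  mul_mem' := by
    rintro a b ⟨ha, c, hc, k, hk⟩ ⟨hb, d, hd, n, hn⟩
    refine ⟨mul_mem ha hb, c + d, fun τ => by rw [mul_smul, hc, hd]; ring, k + n, ?_⟩
    rw [map_add]
    push_cast
    linear_combination hk + hn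
  inv_mem' := by
    rintro a ⟨ha, c, hc, k, hk⟩
    refine ⟨inv_mem ha, -c, fun τ => ?_, -k, ?_⟩
    · have := hc (a⁻¹ • τ)
      rw [smul_inv_smul] at this
      rw [this]
      ring
    · rw [map_neg]
      push_cast
      linear_combination -hk

lemma mem_stabP {s Ω : ℂ} {p : ℕ} {γ : SL(2, ℤ)} : γ ∈ stabP f s Ω p ↔ γ ∈ Gamma0 (ℓ ^ A) ∧
    ∃ c : ℂ, (∀ τ : ℍ, prim f ((γ • τ : ℍ) : ℂ) =
    prim f (τ : ℂ) + c) ∧ ∃ k : ℤ, c + s * (starRingEnd ℂ) c = p * k * Ω := Iff.rfl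

/-- the periods of the elements with lower left entry `ℓ^m` are not all divisible by `p` -/
theorem not_all_divisible (hℓ : ℓ.Prime) (hA : 1 ≤ A) {m : ℕ} (hm : A ≤ m) {s Ω : ℂ} (hΩ0 : Ω ≠ 0)
    (hΩ : ∀ w : ℂ, (∃ c, IsPer f c ∧ w = c + s * (starRingEnd ℂ) c) ↔ ∃ k : ℤ, w = k * Ω)
    {p : ℕ} (hp : p.Prime) (hpl : p ≠ ℓ)
    (hall : ∀ γ : SL(2, ℤ), γ 1 0 = (ℓ : ℤ) ^ m → ∀ c : ℂ, (∀ τ : ℍ, prim f ((γ • τ : ℍ) : ℂ) =
      prim f (τ : ℂ) + c) → ∃ k : ℤ, c + s * (starRingEnd ℂ) c = p * k * Ω) : False := by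
  have hmemN : ∀ γ : SL(2, ℤ), (ℓ : ℤ) ^ A ∣ γ 1 0 ↔ γ ∈ Gamma0 (ℓ ^ A) := by
    intro γ
    rw [Gamma0_mem, ZMod.intCast_zmod_eq_zero_iff_dvd]
    push_cast
    rfl
  have h1 : ∀ γ : SL(2, ℤ), (ℓ : ℤ) ^ m ∣ γ 1 0 → γ ∈ stabP f s Ω p := by
    refine gamma0_le hℓ _ ?_ ?_ ?_
    · refine ⟨?_, 0, fun τ => ?_, 0, by simp⟩
      · rw [← hmemN]
        simp [ModularGroup.T]
      · have : ((ModularGroup.T • τ : ℍ) : ℂ) = (τ : ℂ) + 1 := by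
          have := ModularGroup.coe_T_zpow_smul_eq (n := 1) (z := τ)
          simpa using this
        rw [this, prim_add_one, add_zero]
    · refine ⟨?_, 0, fun τ => ?_, 0, by simp⟩
      · rw [← hmemN]
        simp
      · rw [ModularGroup.SL_neg_smul, one_smul, add_zero]
    · intro γ hγ
      have hγN : γ ∈ Gamma0 (ℓ ^ A) := by
        rw [← hmemN, hγ]
        exact pow_dvd_pow _ hm
      obtain ⟨c, hc⟩ := prim_smul f hγN
      exact ⟨hγN, c, hc, hall γ hγ c hc⟩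
  obtain ⟨d, rfl⟩ := Nat.exists_eq_add_of_le hm
  have h2 := descend (stabP f s Ω p) hA (fun γ hγ hpow => ?_) d h1
  · obtain ⟨c, ⟨γ, hγ, hc⟩, hc1⟩ := (hΩ (((1 : ℤ) : ℂ) * Ω)).2 ⟨1, rfl⟩
    obtain ⟨-, c', hc', k, hk⟩ := h2 γ ((hmemN γ).2 hγ)
    have hcc : c' = c := by
      have e1 := hc UpperHalfPlane.I
      have e2 := hc' UpperHalfPlane.I
      rw [e1] at e2
      exact (add_left_cancel e2).symm
    rw [hcc, ← hc1] at hk
    have h3 : ((1 : ℤ) : ℂ) = ((p * k : ℤ) : ℂ) := by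
      apply mul_right_cancel₀ hΩ0
      rw [hk]
      push_cast
      ring
    have h4 : (1 : ℤ) = p * k := by exact_mod_cast h3
    have h5 : (p : ℤ) ∣ 1 := ⟨k, h4⟩
    have h6 : p ∣ 1 := by exact_mod_cast h5
    exact hp.one_lt.ne' (Nat.dvd_one.1 h6)
  · have hγN := (hmemN γ).1 hγ
    obtain ⟨c, hc⟩ := prim_smul f hγN
    obtain ⟨v, hv⟩ := (hΩ _).1 ⟨c, ⟨γ, hγN, hc⟩, rfl⟩
    obtain ⟨-, c', hc', k, hk⟩ := hpow
    have hpow' : ∀ n : ℕ, ∀ τ : ℍ, prim f ((γ ^ n • τ : ℍ) : ℂ) = prim f τ + n * c := by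
      intro n
      induction n with
      | zero => intro τ; simp
      | succ n ih =>
        intro τ
        rw [pow_succ, mul_smul, ih, hc]
        push_cast
        ring
    have hcc : c' = ℓ * c := by
      have e1 := hpow' ℓ UpperHalfPlane.I
      have e2 := hc' UpperHalfPlane.I
      rw [e1] at e2
      exact (add_left_cancel e2).symm
    rw [hcc, map_mul, Complex.conj_natCast] at hk
    have h3 : ((ℓ * v : ℤ) : ℂ) = ((p * k : ℤ) : ℂ) := by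
      apply mul_right_cancel₀ hΩ0
      push_cast
      linear_combination hk - (ℓ : ℂ) * hv
    have h4 : (ℓ * v : ℤ) = p * k := by exact_mod_cast h3
    have h5 : (p : ℤ) ∣ v := by
      have h6 : (p : ℤ) ∣ ℓ * v := ⟨k, h4⟩
      have h7 : IsCoprime (p : ℤ) (ℓ : ℤ) := by
        rw [Nat.isCoprime_iff_coprime]
        exact (Nat.coprime_primes hp hℓ).2 hpl
      exact h7.dvd_of_dvd_mul_left h6
    obtain ⟨t, rfl⟩ := h5
    exact ⟨hγN, c, hc, t, by rw [hv]; push_cast; ring⟩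

end

end Pool.Agent.H503.TA
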