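import Pool.Agent.H503.TA.UFrob

/-!
# The algebraic parts of the twisted values are units at `p`
-/

set_option autoImplicit false
set_option linter.unusedSectionVars false

open Complex UpperHalfPlane MatrixGroups CongruenceSubgroup Filter Topology ModularForm
open MeasureTheory Set Asymptotics

namespace Pool.Agent.H503.TA

section
variable {N : ℕ} [NeZero N]
variable (f : CuspForm (Gamma0 N : Subgroup (GL (Fin 2) ℝ)) 2)
variable {M : ℕ} [NeZero M]

lemma tau_ne_zero_of_Schi (hN : N ∣ M) (hc : ∀ n : ℕ, ¬ n.Coprime M → coef f n = 0)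
    (χ : DirichletCharacter ℂ M) (hS : Schi f χ ≠ 0) : tau χ ≠ 0 := fun h0 =>
  hS (Schi_of_tau f hN hc χ h0)

/-- the entire function and its value at one -/
theorem exists_L (hN : N ∣ M) (hc : ∀ n : ℕ, ¬ n.Coprime M → coef f n = 0)
    (χ : DirichletCharacter ℂ M) (htau : tau χ ≠ 0) : ∃ L : ℂ → ℂ, Differentiable ℂ L ∧
    (∀ s : ℂ, 2 < s.re → L s = LSeries (fun n => χ n * coef f n) s) ∧
    tau χ * L 1 = Schi f χ := by
  have h2pi : (2 * Real.pi : ℂ) ≠ 0 := by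
    have := Real.pi_ne_zero
    exact_mod_cast mul_ne_zero two_ne_zero this
  have hval : mellin (Fchi f χ) 1 = Schi f χ / (2 * Real.pi) := by
    rw [mellin_sum f hN, Schi, Finset.sum_div]
    refine Finset.sum_congr rfl fun a _ => ?_
    unfold per
    push_cast
    field_simp
  refine ⟨fun s => ((2 * Real.pi : ℝ) : ℂ) ^ s * (Complex.Gamma s)⁻¹ * (tau χ)⁻¹ *
    ∑ a : ZMod M, χ⁻¹ a * mellin (G f ((a.val : ℝ) / M)) s, ?_, ?_, ?_⟩
  · refine Differentiable.mul (Differentiable.mul (Differentiable.mul ?_ ?_) ?_) ?_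
    · refine Differentiable.const_cpow differentiable_id (Or.inl ?_)
      push_cast
      exact h2pi
    · exact Complex.differentiable_one_div_Gamma
    · exact differentiable_const _
    · exact mellin_entire_sum f hN χ
  · intro s hs
    have hG : Complex.Gamma s ≠ 0 := Complex.Gamma_ne_zero_of_re_pos (by linarith)
    have h1 := hasSum_L f hc χ hs
    rw [mellin_sum f hN] at h1
    have h2 := h1.mul_left (((2 * Real.pi : ℝ) : ℂ) ^ s * (Complex.Gamma s)⁻¹ * (tau χ)⁻¹)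
    refine h2.tsum_eq.symm.trans ?_
    rw [LSeries]
    refine tsum_congr fun n => ?_
    rw [LSeries.term_def]
    rcases Nat.eq_zero_or_pos n with rfl | hn
    · simp [coef_zero]
    · rw [if_neg hn.ne']
      have h3 : ((2 * Real.pi * n : ℝ) : ℂ) ^ s = ((2 * Real.pi : ℝ) : ℂ) ^ s * (n : ℂ) ^ s := by
        rw [Complex.ofReal_mul, Complex.mul_cpow_ofReal_nonneg (by positivity) (by positivity)]
        simp
      have h4 : ((2 * Real.pi : ℝ) : ℂ) ^ s ≠ 0 := by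
        rw [Ne, Complex.cpow_eq_zero_iff]
        push_cast
        tauto
      have h5 : (n : ℂ) ^ s ≠ 0 := by
        rw [Ne, Complex.cpow_eq_zero_iff]
        have : (n : ℂ) ≠ 0 := by exact_mod_cast hn.ne'
        tauto
      rw [h3]
      field_simp
  · simp only [Complex.cpow_one, Complex.Gamma_one, inv_one, mul_one]
    rw [← mellin_sum f hN, hval]
    push_cast
    field_simp

/-- the periods of one parity as integral multiples -/
theorem exists_k (hN : N ∣ M) (hM : 2 < M) (hreal : ∀ n, (coef f n).im = 0) {s : ℂ}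
    (hs : s = 1 ∨ s = -1) {Ω : ℂ} (hΩ0 : Ω ≠ 0)
    (hΩ : ∀ w : ℂ, (∃ c, IsPer f c ∧ w = c + s * (starRingEnd ℂ) c) ↔ ∃ k : ℤ, w = k * Ω) :
    ∃ k : (ZMod M)ˣ → ℤ,
      (∀ γ : SL(2, ℤ), γ 1 0 = (M : ℤ) → ∀ c : ℂ, (∀ τ : ℍ, prim f ((γ • τ : ℍ) : ℂ) =
        prim f (τ : ℂ) + c) → ∃ u : (ZMod M)ˣ, c + s * (starRingEnd ℂ) c = k u * Ω) ∧
      (∀ u, (k (-u) : ℂ) = s * k u) ∧ (∀ u, k (-u⁻¹) = -k u) ∧
      ∀ χ : DirichletCharacter ℂ M, χ (-1) = s → Schi f χ = Ω * Lh k χ := by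
  have hM0 : 0 < M := Nat.pos_of_ne_zero (NeZero.ne M)
  have hss : s * s = 1 := by rcases hs with rfl | rfl <;> norm_num
  have hconj : (starRingEnd ℂ) s = s := by rcases hs with rfl | rfl <;> simp
  have hγN : ∀ γ : SL(2, ℤ), γ 1 0 = (M : ℤ) → γ ∈ Gamma0 N := by
    intro γ hγ
    rw [Gamma0_mem, hγ, Int.cast_natCast, ZMod.natCast_eq_zero_iff]
    exact hN
  have hcop : ∀ a : (ZMod M)ˣ, IsCoprime (((a : ZMod M).val : ℕ) : ℤ) (M : ℤ) := by
    intro a
    rw [Nat.isCoprime_iff_coprime, ← ZMod.isUnit_iff_coprime, ZMod.natCast_zmod_val]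
    exact a.isUnit
  have hk0 : ∀ u : (ZMod M)ˣ, ∃ k : ℤ, per f M ((u : ZMod M).val : ℤ) +
      s * (starRingEnd ℂ) (per f M ((u : ZMod M).val : ℤ)) = k * Ω := by
    intro u
    obtain ⟨γ, h0, h1⟩ := exists_gamma (hcop u)
    obtain ⟨c, hc⟩ := prim_smul f (hγN γ h1)
    have h2 := per_gamma f hM0 h1 hN hc
    rw [h0] at h2
    rw [h2]
    exact (hΩ _).1 ⟨c, ⟨γ, hγN γ h1, hc⟩, rfl⟩
  choose k hk using hk0
  refine ⟨k, ?_, ?_, ?_, ?_⟩
  · intro γ hγ c hc
    have h1 := per_gamma f hM0 hγ hN hc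
    have hu : IsUnit ((γ 0 0 : ℤ) : ZMod M) := by
      rw [ZMod.coe_int_isUnit_iff_isCoprime]
      refine ⟨-γ 0 1, γ 1 1, ?_⟩
      have := det_eq γ
      rw [hγ] at this
      linarith
    obtain ⟨u, hu⟩ := hu
    refine ⟨u, ?_⟩
    rw [← hk, hu, per_zmod, h1]
  · intro u
    have h1 := hk (-u)
    have h2 := hk u
    have h3 : per f M ((((-u : (ZMod M)ˣ) : ZMod M).val : ℕ) : ℤ) =
        (starRingEnd ℂ) (per f M ((u : ZMod M).val : ℤ)) := by
      rw [← conj_per f hreal, ← per_zmod f (M := M) (-((u : ZMod M).val : ℤ))]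
      congr 2
      push_cast
      rw [ZMod.natCast_zmod_val]
    rw [h3, Complex.conj_conj] at h1
    apply mul_right_cancel₀ hΩ0
    rw [← h1, mul_assoc, ← h2]
    linear_combination (-(starRingEnd ℂ) (per f M ((u : ZMod M).val : ℤ))) * hss
  · intro u
    obtain ⟨γ, h0, h1⟩ := exists_gamma (hcop u)
    obtain ⟨c, hc⟩ := prim_smul f (hγN γ h1)
    have h2 := per_gamma f hM0 h1 hN hc
    rw [h0] at h2
    set δ : SL(2, ℤ) := -γ⁻¹ with hδ
    have hδ10 : δ 1 0 = (M : ℤ) := by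
      rw [hδ, Matrix.SpecialLinearGroup.coe_neg, Matrix.neg_apply,
        Matrix.SpecialLinearGroup.SL2_inv_expl]
      simp [h1]
    have hδ00 : δ 0 0 = -γ 1 1 := by
      rw [hδ, Matrix.SpecialLinearGroup.coe_neg, Matrix.neg_apply,
        Matrix.SpecialLinearGroup.SL2_inv_expl]
      simp
    have hδc : ∀ τ : ℍ, prim f ((δ • τ : ℍ) : ℂ) = prim f (τ : ℂ) + (-c) := by
      intro τ
      rw [hδ, ModularGroup.SL_neg_smul]
      have := hc (γ⁻¹ • τ)
      rw [smul_inv_smul] at this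
      rw [this]
      ring
    have h3 := per_gamma f hM0 hδ10 hN hδc
    rw [hδ00] at h3
    have h4 : per f M ((((-u⁻¹ : (ZMod M)ˣ) : ZMod M).val : ℕ) : ℤ) = -c := by
      rw [← h3, ← per_zmod f (M := M) (-γ 1 1)]
      congr 2
      have hdet := congrArg (fun z : ℤ => (z : ZMod M)) (det_eq γ)
      rw [h0, h1] at hdet
      push_cast at hdet
      rw [ZMod.natCast_zmod_val, ZMod.natCast_self, mul_zero, sub_zero] at hdet
      have h5 : ((u⁻¹ : (ZMod M)ˣ) : ZMod M) = ((γ 1 1 : ℤ) : ZMod M) := by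
        have h6 : ((u⁻¹ : (ZMod M)ˣ) : ZMod M) * ((u : ZMod M) * ((γ 1 1 : ℤ) : ZMod M)) =
            ((u⁻¹ : (ZMod M)ˣ) : ZMod M) := by rw [hdet, mul_one]
        rw [← mul_assoc, Units.inv_mul, one_mul] at h6
        exact h6.symm
      rw [Units.val_neg, h5]
      push_cast
      rfl
    have h5 := hk (-u⁻¹)
    have h6 := hk u
    rw [h4, map_neg] at h5
    rw [h2] at h6
    have h7 : ((k (-u⁻¹) : ℤ) : ℂ) = ((-k u : ℤ) : ℂ) := by
      apply mul_right_cancel₀ hΩ0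
      rw [← h5]
      push_cast
      rw [neg_mul, ← h6]
      ring
    exact_mod_cast h7
  · intro χ hχ
    have hk2 : ∀ u, (k (-u) : ℂ) = s * k u := by
      intro u
      have h1 := hk (-u)
      have h2 := hk u
      have h3 : per f M ((((-u : (ZMod M)ˣ) : ZMod M).val : ℕ) : ℤ) =
          (starRingEnd ℂ) (per f M ((u : ZMod M).val : ℤ)) := by
        rw [← conj_per f hreal, ← per_zmod f (M := M) (-((u : ZMod M).val : ℤ))]
        congr 2
        push_cast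
        rw [ZMod.natCast_zmod_val]
      rw [h3, Complex.conj_conj] at h1
      apply mul_right_cancel₀ hΩ0
      rw [← h1, mul_assoc, ← h2]
      linear_combination (-(starRingEnd ℂ) (per f M ((u : ZMod M).val : ℤ))) * hss
    have hinv : χ⁻¹ (-1) = s := chi_inv_neg hs hχ
    have h1 : 2 * Schi f χ = ∑ a : ZMod M, χ⁻¹ a * (per f M (a.val : ℤ) +
        s * per f M (-(a.val : ℤ))) := by
      have h2 : ∑ a : ZMod M, χ⁻¹ a * per f M (-(a.val : ℤ)) = s * Schi f χ := by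
        unfold Schi
        rw [← Equiv.sum_comp (Equiv.neg (ZMod M)), Finset.mul_sum]
        refine Finset.sum_congr rfl fun a _ => ?_
        simp only [Equiv.neg_apply]
        have h3 : per f M (-((-a).val : ℤ)) = per f M (a.val : ℤ) := by
          rw [← per_zmod f (M := M) (-((-a).val : ℤ))]
          congr 2
          push_cast
          rw [ZMod.natCast_zmod_val, neg_neg]
        rw [h3, ← neg_one_mul a, map_mul, hinv]
        ring
      have h4 : ∑ a : ZMod M, χ⁻¹ a * (per f M (a.val : ℤ) + s * per f M (-(a.val : ℤ))) =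
          Schi f χ + s * ∑ a : ZMod M, χ⁻¹ a * per f M (-(a.val : ℤ)) := by
        unfold Schi
        rw [Finset.mul_sum, ← Finset.sum_add_distrib]
        refine Finset.sum_congr rfl fun a _ => ?_
        ring
      rw [h4, h2]
      linear_combination (-Schi f χ) * hss
    have h6 : ∑ a : ZMod M, χ⁻¹ a * (per f M (a.val : ℤ) + s * per f M (-(a.val : ℤ))) =
        ∑ a : (ZMod M)ˣ, χ⁻¹ (a : ZMod M) * (per f M ((a : ZMod M).val : ℤ) +
          s * per f M (-((a : ZMod M).val : ℤ))) := by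
      rw [← Finset.sum_filter_of_ne (p := fun a : ZMod M => IsUnit a)]
      · symm
        refine Finset.sum_bij (fun a _ => (a : ZMod M)) ?_ ?_ ?_ ?_
        · intro a _
          simp
        · intro a _ b _ hab
          exact Units.ext hab
        · intro b hb
          rw [Finset.mem_filter] at hb
          obtain ⟨u, hu⟩ := hb.2
          exact ⟨u, Finset.mem_univ _, hu⟩
        · intro a _
          rfl
      · intro a _ hne
        by_contra hna
        apply hne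
        rw [MulChar.map_nonunit _ hna, zero_mul]
    have h7 := two_Lh hM hs hk2 hχ
    have h8 : ∑ a : (ZMod M)ˣ, χ⁻¹ (a : ZMod M) * (per f M ((a : ZMod M).val : ℤ) +
          s * per f M (-((a : ZMod M).val : ℤ))) =
          Ω * ∑ u : (ZMod M)ˣ, χ⁻¹ (u : ZMod M) * k u := by
      rw [Finset.mul_sum]
      refine Finset.sum_congr rfl fun a _ => ?_
      rw [conj_per f hreal, hk]
      ring
    rw [h7] at h8
    linear_combination (1 / 2 : ℂ) * h1 + (1 / 2 : ℂ) * h6 + (1 / 2 : ℂ) * h8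

end

section
variable {ℓ A : ℕ} [NeZero (ℓ ^ A)]
variable (f : CuspForm (Gamma0 (ℓ ^ A) : Subgroup (GL (Fin 2) ℝ)) 2)

/-- one of the half sums is not in `𝔓` -/
theorem exists_not_in (hℓ : ℓ.Prime) (hA : 1 ≤ A) {m : ℕ} [NeZero (ℓ ^ m)] (hm : A ≤ m) (hm2 : 2 ≤ m)
    (hc : ∀ n : ℕ, ¬ n.Coprime (ℓ ^ m) → coef f n = 0)
    {s : ℂ} (hs : s = 1 ∨ s = -1) {Ω : ℂ} (hΩ0 : Ω ≠ 0)
    (hΩ : ∀ w : ℂ, (∃ c, IsPer f c ∧ w = c + s * (starRingEnd ℂ) c) ↔ ∃ k : ℤ, w = k * Ω)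
    {k : (ZMod (ℓ ^ m))ˣ → ℤ}
    (hkγ : ∀ γ : SL(2, ℤ), γ 1 0 = ((ℓ ^ m : ℕ) : ℤ) → ∀ c : ℂ,
      (∀ τ : ℍ, prim f ((γ • τ : ℍ) : ℂ) = prim f (τ : ℂ) + c) →
        ∃ u : (ZMod (ℓ ^ m))ˣ, c + s * (starRingEnd ℂ) c = k u * Ω)
    (hk : ∀ u, (k (-u) : ℂ) = s * k u)
    (hS : ∀ χ : DirichletCharacter ℂ (ℓ ^ m), χ (-1) = s → Schi f χ = Ω * Lh k χ)
    {p : ℕ} (hp : p.Prime) (hpt : ¬ p ∣ (ℓ ^ m).totient / 2) (hpl : p ≠ ℓ)
    {𝔓 : Ideal (integralClosure ℤ ℂ)} [h𝔓 : 𝔓.IsPrime] (hp𝔓 : (p : integralClosure ℤ ℂ) ∈ 𝔓) :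
    ∃ χ : DirichletCharacter ℂ (ℓ ^ m), χ.IsPrimitive ∧ χ (-1) = s ∧ ¬ In 𝔓 (Lh k χ) := by
  have hN : ℓ ^ A ∣ ℓ ^ m := pow_dvd_pow ℓ hm
  have hM : 2 < ℓ ^ m := by
    calc 2 < 2 ^ 2 := by norm_num
      _ ≤ ℓ ^ 2 := Nat.pow_le_pow_left hℓ.two_le 2
      _ ≤ ℓ ^ m := Nat.pow_le_pow_right hℓ.pos hm2
  by_contra hno
  push Not at hno
  have hall : ∀ χ : DirichletCharacter ℂ (ℓ ^ m), χ (-1) = s → In 𝔓 (Lh k χ) := by
    intro χ hχ
    by_cases hpr : χ.IsPrimitive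
    · exact hno χ hpr hχ
    · have h1 := Schi_of_tau f hN hc χ (tau_eq_zero hℓ hm2 χ hpr)
      rw [hS χ hχ] at h1
      rw [(mul_eq_zero.1 h1).resolve_left hΩ0]
      exact in_zero
  have hdiv : ∀ b : (ZMod (ℓ ^ m))ˣ, (p : ℤ) ∣ k b := by
    intro b
    have h1 := inversion hM hs hk b
    have heven : 2 ∣ (ℓ ^ m).totient := (Nat.totient_even hM).two_dvd
    obtain ⟨h, hh⟩ := heven
    have h2 : In 𝔓 (∑ χ ∈ Finset.univ.filter (fun χ : DirichletCharacter ℂ (ℓ ^ m) => χ (-1) = s),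
        χ (b : ZMod (ℓ ^ m)) * Lh k χ) := by
      refine In.sum fun χ hχ => ?_
      rw [Finset.mem_filter] at hχ
      exact (hall χ hχ.2).mul (chi_integral χ b)
    have h3 : ∑ χ ∈ Finset.univ.filter (fun χ : DirichletCharacter ℂ (ℓ ^ m) => χ (-1) = s),
        χ (b : ZMod (ℓ ^ m)) * Lh k χ = ((h * k b : ℤ) : ℂ) := by
      rw [hh] at h1
      push_cast at h1 ⊢
      linear_combination (1 / 2 : ℂ) * h1
    rw [h3] at h2
    have h4 := in_int hp hp𝔓 h2
    rcases (Nat.prime_iff_prime_int.1 hp).dvd_or_dvd h4 with h5 | h5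
    · exfalso
      apply hpt
      rw [hh, Nat.mul_div_cancel_left _ (by norm_num)]
      exact_mod_cast h5
    · exact h5
  refine not_all_divisible f hℓ hA hm hΩ0 hΩ hp hpl fun γ hγ c hc' => ?_
  obtain ⟨u, hu⟩ := hkγ γ (by rw [hγ]; push_cast; rfl) c hc'
  obtain ⟨t, ht⟩ := hdiv u
  exact ⟨t, by rw [hu, ht]; push_cast; ring⟩

end

end Pool.Agent.H503.TA
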